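import Pool.Agent.OS.Stmts

/-!
# MP_ddb6ee_nt: assembly (helper75)
-/

set_option autoImplicit false

namespace Pool.Agent.OS.Asm75

open Finset Pool.Agent.OS

lemma blocks (m : ℕ) : ∀ (k : ℕ) (Q : Finset ℕ), k * m ≤ Q.card → ∃ P : ℕ → Finset ℕ,
    (∀ i < k, P i ⊆ Q ∧ (P i).card = m) ∧ (∀ i < k, ∀ j < k, i ≠ j → Disjoint (P i) (P j)) := by
  classical
  intro k
  induction k with
  | zero => intro Q _; exact ⟨fun _ => ∅, fun i hi => absurd hi (by omega), fun i hi => absurd hi (by omega)⟩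
  | succ k ih =>
    intro Q hQ
    rw [add_mul, one_mul] at hQ
    obtain ⟨B, hB1, hB2⟩ := Finset.exists_subset_card_eq (show m ≤ Q.card by omega)
    obtain ⟨P, hP1, hP2⟩ := ih (Q \ B) (by rw [Finset.card_sdiff_of_subset hB1, hB2]; omega)
    have hdis : ∀ i < k, Disjoint (P i) B := fun i hi =>
      Finset.disjoint_left.2 (fun q hq hq' => (Finset.mem_sdiff.1 ((hP1 i hi).1 hq)).2 hq')
    refine ⟨fun i => if i = k then B else P i, ?_, ?_⟩
    · intro i hi
      by_cases h : i = k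
      · simp only [h, if_true]
        exact ⟨hB1, hB2⟩
      · simp only [h, if_false]
        exact ⟨(hP1 i (by omega)).1.trans Finset.sdiff_subset, (hP1 i (by omega)).2⟩
    · intro i hi j hj hij
      by_cases h : i = k
      · have h' : j ≠ k := fun e => hij (h.trans e.symm)
        simp only [h, if_true, h', if_false]
        exact (hdis j (by omega)).symm
      · by_cases h' : j = k
        · simp only [h, if_false, h', if_true]
          exact hdis i (by omega)
        · simp only [h, if_false, h']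
          exact hP2 i (by omega) j (by omega) hij

lemma disc_cases (D : ℕ) : (fundDisc (-(D : ℤ))).natAbs = D ∨ (fundDisc (-(D : ℤ))).natAbs = 4 * D := by
  unfold fundDisc
  split_ifs
  · left; simp
  · right; omega

lemma omega_disc {D : ℕ} (hD : 1 ≤ D) :
    (fundDisc (-(D : ℤ))).natAbs.primeFactors.card ≤ D.primeFactors.card + 1 := by
  rcases disc_cases D with h | h
  · rw [h]; omega
  · rw [h]
    have h1 : (4 * D).primeFactors ⊆ insert 2 D.primeFactors := by
      intro p hp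
      rw [Nat.mem_primeFactors] at hp
      obtain ⟨hp1, hp2, _⟩ := hp
      rw [Finset.mem_insert, Nat.mem_primeFactors]
      rcases (Nat.Prime.dvd_mul hp1).1 hp2 with h2 | h2
      · left
        have : p ∣ 2 ^ 2 := by norm_num; exact h2
        exact (Nat.prime_dvd_prime_iff_eq hp1 Nat.prime_two).1 (hp1.dvd_of_dvd_pow this)
      · right
        exact ⟨hp1, h2, by omega⟩
    exact (Finset.card_le_card h1).trans (Finset.card_insert_le _ _)

lemma split_of {D p : ℕ} (hp : p.Prime) (h : jacobiSym (-(D : ℤ)) p = 1) :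
    ¬ p ∣ D ∧ ∃ y : ℤ, (p : ℤ) ∣ y ^ 2 + D := by
  haveI := Fact.mk hp
  rw [← jacobiSym.legendreSym.to_jacobiSym] at h
  have h0 : ((-(D : ℤ) : ℤ) : ZMod p) ≠ 0 := by
    intro e
    have := (legendreSym.eq_zero_iff p (-(D : ℤ))).2 e
    rw [this] at h
    exact absurd h (by norm_num)
  refine ⟨?_, ?_⟩
  · intro hd
    apply h0
    rw [ZMod.intCast_zmod_eq_zero_iff_dvd]
    exact (Int.natCast_dvd_natCast.2 hd).neg_right
  · rw [legendreSym.eq_one_iff p h0] at h
    obtain ⟨r, hr⟩ := h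
    refine ⟨(r.val : ℤ), ?_⟩
    rw [← ZMod.intCast_zmod_eq_zero_iff_dvd]
    push_cast
    rw [ZMod.natCast_zmod_val]
    push_cast at hr
    rw [sq, ← hr]
    ring

theorem asm75 : Asm := by
  classical
  rintro hOno hMom hOm ⟨C, hC, hP1⟩ ⟨t₀, hP2⟩
  have hc : Filter.Tendsto (fun X : ℕ => (X : ℝ)) Filter.atTop Filter.atTop := tendsto_natCast_atTop_atTop
  have hL' : Filter.Tendsto (fun X : ℕ => Real.log (X : ℝ)) Filter.atTop Filter.atTop :=
    Real.tendsto_log_atTop.comp hc
  have hl' : Filter.Tendsto (fun X : ℕ => Real.log (Real.log (X : ℝ))) Filter.atTop Filter.atTop :=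
    Real.tendsto_log_atTop.comp hL'
  have e2 : ∀ᶠ L : ℝ in Filter.atTop, 14 * Real.log L + 2 ≤ 11 / 90 * L := by
    have h1 := (Asymptotics.isLittleO_iff.1 Real.isLittleO_log_id_atTop)
      (show (0 : ℝ) < 1 / 280 by norm_num)
    filter_upwards [h1, Filter.eventually_ge_atTop (100 : ℝ)] with L h2 h3
    rw [Real.norm_eq_abs, Real.norm_eq_abs, id, abs_of_pos (show 0 < L by linarith)] at h2
    have h4 := (le_abs_self _).trans h2
    linarith
  have e3 : ∀ᶠ l : ℝ in Filter.atTop, 90 * C + 20 * Real.log l ≤ l := by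
    have h1 := (Asymptotics.isLittleO_iff.1 Real.isLittleO_log_id_atTop)
      (show (0 : ℝ) < 1 / 40 by norm_num)
    filter_upwards [h1, Filter.eventually_ge_atTop (180 * C), Filter.eventually_ge_atTop (1 : ℝ)] with l h2 h3 h5
    rw [Real.norm_eq_abs, Real.norm_eq_abs, id, abs_of_pos (show 0 < l by linarith)] at h2
    have h4 := (le_abs_self _).trans h2
    linarith
  have hev : ∀ᶠ X : ℕ in Filter.atTop, 16 ≤ X ∧ 5 ≤ Real.log (Real.log (X : ℝ)) ∧
      14 * Real.log (Real.log (X : ℝ)) + 2 ≤ 11 / 90 * Real.log (X : ℝ) ∧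
      90 * C + 20 * Real.log (Real.log (Real.log (X : ℝ))) ≤ Real.log (Real.log (X : ℝ)) ∧
      (t₀ : ℝ) + 2 ≤ Real.log (X : ℝ) := by
    filter_upwards [Filter.eventually_ge_atTop 16, hl'.eventually_ge_atTop 5, hL'.eventually e2,
      hl'.eventually e3, hL'.eventually_ge_atTop ((t₀ : ℝ) + 2)] with X a1 a2 a3 a4 a5
    exact ⟨a1, a2, a3, a4, a5⟩
  obtain ⟨X₀, hX₀⟩ := Filter.eventually_atTop.1 hev
  refine ⟨4 + X₀, fun X hX1 => ?_⟩
  have hX1r : (1 : ℝ) ≤ X := by exact_mod_cast hX1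
  have hXp : (0 : ℝ) < X := by linarith
  have hX9 : (1 : ℝ) ≤ (X : ℝ) ^ ((9 : ℝ) / 10) := Real.one_le_rpow hX1r (by norm_num)
  set S := (Icc 1 X).filter (fun D : ℕ => Squarefree D ∧
    onoInvariant (fundDisc (-(D : ℤ))) = (fundDisc (-(D : ℤ))).natAbs.primeFactors.card) with hS
  rcases Nat.lt_or_ge X X₀ with hsm | hX
  · have h1 : (S.card : ℝ) ≤ X₀ := by
      have h2 : S.card ≤ X₀ := by
        refine (card_filter_le _ _).trans ?_
        rw [Nat.card_Icc]
        omega
      exact_mod_cast h2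
    have h3 : (0 : ℝ) ≤ X₀ := Nat.cast_nonneg _
    nlinarith
  obtain ⟨a1, a2, a3, a4, a5⟩ := hX₀ X hX
  obtain ⟨L, hL⟩ : ∃ L : ℝ, L = Real.log (X : ℝ) := ⟨_, rfl⟩
  rw [← hL] at a2 a3 a4 a5
  obtain ⟨l, hl⟩ : ∃ l : ℝ, l = Real.log L := ⟨_, rfl⟩
  rw [← hl] at a2 a3 a4
  have ht₀ : (0 : ℝ) ≤ t₀ := Nat.cast_nonneg _
  have hl0 : 0 < l := by linarith
  have hL0 : 0 < L := by linarith
  have hL100 : 100 ≤ L := by linarith
  have hexpl : Real.exp l = L := by rw [hl, Real.exp_log hL0]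
  have hX9' : (X : ℝ) ^ ((9 : ℝ) / 10) = Real.exp (9 / 10 * L) := by
    rw [Real.rpow_def_of_pos hXp, ← hL]; ring_nf
  have hXexp : (X : ℝ) = Real.exp L := by rw [hL, Real.exp_log hXp]
  -- t
  obtain ⟨t, ht⟩ : ∃ t : ℕ, t = ⌊L⌋₊ := ⟨_, rfl⟩
  have ht1 : (t : ℝ) ≤ L := by rw [ht]; exact Nat.floor_le hL0.le
  have ht2 : L < t + 1 := by rw [ht]; exact Nat.lt_floor_add_one _
  have ht3 : L / 2 ≤ t := by linarith
  have ht4 : t₀ ≤ t := by
    have : (t₀ : ℝ) ≤ t := by linarith
    exact_mod_cast this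
  have ht5 : 2 ≤ t := by
    have : (2 : ℝ) ≤ t := by linarith
    exact_mod_cast this
  have htr : (0 : ℝ) < t := by linarith
  -- k
  obtain ⟨k, hk⟩ : ∃ k : ℕ, k = ⌊L / (16 * l)⌋₊ := ⟨_, rfl⟩
  have hk1 : (k : ℝ) ≤ L / (16 * l) := by rw [hk]; exact Nat.floor_le (by positivity)
  have hk2 : L / (16 * l) < k + 1 := by rw [hk]; exact Nat.lt_floor_add_one _
  have hkt : k ≤ t := by
    rw [ht]
    apply Nat.le_floor
    refine hk1.trans ?_
    rw [div_le_iff₀ (by positivity)]
    nlinarith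
  -- w
  obtain ⟨w, hw⟩ : ∃ w : ℕ, w = ⌈L / (9 * l)⌉₊ := ⟨_, rfl⟩
  have hw1 : L / (9 * l) ≤ w := by rw [hw]; exact Nat.le_ceil _
  -- blocks
  obtain ⟨P, hPa, hPb⟩ := blocks (t ^ 5) k _ (show k * t ^ 5 ≤
      ((Finset.Icc 1 (t ^ 7)).filter (fun p => p.Prime ∧ p ≠ 2)).card from by
    refine le_trans ?_ (hP2 t ht4)
    calc k * t ^ 5 ≤ t * t ^ 5 := Nat.mul_le_mul_right _ hkt
      _ = t ^ 6 := by ring)
  have hPc : ∀ i < k, ∀ p ∈ P i, p.Prime ∧ p ≠ 2 ∧ p ≤ t ^ 7 := by
    intro i hi p hp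
    have := (hPa i hi).1 hp
    rw [mem_filter, mem_Icc] at this
    exact ⟨this.2.1, this.2.2, this.1.2⟩
  set B := (Icc 1 X).filter (fun n : ℕ => (∀ i < k, ∀ p ∈ P i, jacobiSym (-(n : ℤ)) p ≠ 1) ∧
    2 * n.primeFactors.card ≤ t ^ 5) with hB
  set W := (Icc 1 X).filter (fun n : ℕ => w ≤ n.primeFactors.card) with hW
  have hsub : S ⊆ (Icc 1 ⌊(X : ℝ) ^ ((9 : ℝ) / 10)⌋₊ ∪ W) ∪ B := by
    intro D hD
    rw [hS, mem_filter] at hD
    obtain ⟨hD1, hD2, hD3⟩ := hD
    have hD4 := mem_Icc.1 hD1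
    rw [mem_union, mem_union]
    by_cases h1 : D ≤ ⌊(X : ℝ) ^ ((9 : ℝ) / 10)⌋₊
    · exact Or.inl (Or.inl (mem_Icc.2 ⟨hD4.1, h1⟩))
    by_cases h2 : w ≤ D.primeFactors.card
    · exact Or.inl (Or.inr (by rw [hW, mem_filter]; exact ⟨hD1, h2⟩))
    right
    have h3 : (X : ℝ) ^ ((9 : ℝ) / 10) < D := Nat.lt_of_floor_lt (not_le.1 h1)
    have h4 : (D.primeFactors.card : ℝ) < L / (9 * l) := by
      rw [not_le, hw] at h2
      exact Nat.lt_ceil.1 h2
    have h5 : (D.primeFactors.card : ℝ) ≤ L := by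
      refine h4.le.trans ?_
      rw [div_le_iff₀ (by positivity)]
      nlinarith
    have h6 : D.primeFactors.card ≤ t := by rw [ht]; exact Nat.le_floor h5
    rw [hB, mem_filter]
    refine ⟨hD1, ?_, ?_⟩
    · intro i hi p hp hj
      obtain ⟨hp1, hp2, hp3⟩ := hPc i hi p hp
      obtain ⟨g1, g2⟩ := split_of hp1 hj
      have h7 : 4 * p ^ (D.primeFactors.card + 2) ≤ D := by
        have h8 : (4 : ℝ) * (p : ℝ) ^ (D.primeFactors.card + 2) ≤ D := by
          refine le_trans ?_ h3.le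
          have h9 : (p : ℝ) ≤ Real.exp (7 * l) := by
            calc (p : ℝ) ≤ ((t ^ 7 : ℕ) : ℝ) := by exact_mod_cast hp3
              _ = (t : ℝ) ^ 7 := by push_cast; ring
              _ ≤ L ^ 7 := pow_le_pow_left₀ htr.le ht1 7
              _ = Real.exp (7 * l) := by
                rw [← hexpl, ← Real.exp_nat_mul]; norm_num [hexpl, hl]
          have h10 : (p : ℝ) ^ (D.primeFactors.card + 2) ≤ Real.exp (7 * L / 9 + 14 * l) := by
            calc (p : ℝ) ^ (D.primeFactors.card + 2) ≤ Real.exp (7 * l) ^ (D.primeFactors.card + 2) :=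
                  pow_le_pow_left₀ (Nat.cast_nonneg _) h9 _
              _ = Real.exp (((D.primeFactors.card + 2 : ℕ) : ℝ) * (7 * l)) := by rw [← Real.exp_nat_mul]
              _ ≤ Real.exp (7 * L / 9 + 14 * l) := by
                apply Real.exp_le_exp.2
                push_cast
                have h11 : (D.primeFactors.card : ℝ) * (9 * l) ≤ L := by
                  rw [lt_div_iff₀ (by positivity)] at h4
                  exact h4.le
                nlinarith
          have h12 : (4 : ℝ) ≤ Real.exp 2 := by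
            have : Real.exp 2 = Real.exp 1 * Real.exp 1 := by rw [← Real.exp_add]; norm_num
            have h13 := Real.exp_one_gt_d9
            nlinarith
          calc (4 : ℝ) * (p : ℝ) ^ (D.primeFactors.card + 2) ≤ Real.exp 2 * Real.exp (7 * L / 9 + 14 * l) :=
                mul_le_mul h12 h10 (by positivity) (by positivity)
            _ = Real.exp (2 + (7 * L / 9 + 14 * l)) := by rw [← Real.exp_add]
            _ ≤ Real.exp (9 / 10 * L) := by
                apply Real.exp_le_exp.2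
                linarith
            _ = (X : ℝ) ^ ((9 : ℝ) / 10) := hX9'.symm
        exact_mod_cast h8
      have h8 : 4 * p ^ (D.primeFactors.card + 2) ≤ (fundDisc (-(D : ℤ))).natAbs := by
        rcases disc_cases D with h | h
        · rw [h]; exact h7
        · rw [h]; omega
      have h9 := hOno D p (D.primeFactors.card + 2) hD4.1 hp1 hp2 g1 g2 h8
      have h10 := omega_disc hD4.1
      rw [hD3] at h9
      omega
    · have h7 : 2 * t ≤ t ^ 5 := by
        calc 2 * t ≤ t * t := Nat.mul_le_mul_right _ ht5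
          _ = t ^ 2 := (sq t).symm
          _ ≤ t ^ 5 := Nat.pow_le_pow_right (by omega) (by norm_num)
      omega
  have hcard := (card_le_card hsub).trans ((card_union_le _ _).trans (Nat.add_le_add_right (card_union_le _ _) _))
  have hcard' : (S.card : ℝ) ≤ ((Icc 1 ⌊(X : ℝ) ^ ((9 : ℝ) / 10)⌋₊).card : ℝ) + W.card + B.card := by
    exact_mod_cast hcard
  -- first
  have k1 : ((Icc 1 ⌊(X : ℝ) ^ ((9 : ℝ) / 10)⌋₊).card : ℝ) ≤ (X : ℝ) ^ ((9 : ℝ) / 10) := by
    rw [Nat.card_Icc, Nat.add_sub_cancel]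
    exact Nat.floor_le (by positivity)
  -- second
  have k2 : (W.card : ℝ) ≤ (X : ℝ) ^ ((9 : ℝ) / 10) := by
    have h1 := hOm X w (L / l ^ 2) (by positivity)
    rw [← hW] at h1
    have h2 := hP1 X a1
    rw [← hL, ← hl] at h2
    have hz1 : Real.exp (l - 2 * Real.log l) = L / l ^ 2 := by
      rw [Real.exp_sub, hexpl]
      congr 1
      have : (2 : ℝ) * Real.log l = ((2 : ℕ) : ℝ) * Real.log l := by norm_num
      rw [this, Real.exp_nat_mul, Real.exp_log hl0]
    have hlogl : 0 ≤ l - 2 * Real.log l := by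
      have q1 : 0 ≤ Real.log l := Real.log_nonneg (by linarith)
      linarith
    have h3 : Real.exp ((l - 2 * Real.log l) * (L / (9 * l))) ≤ (1 + L / l ^ 2) ^ w := by
      calc Real.exp ((l - 2 * Real.log l) * (L / (9 * l))) ≤ Real.exp ((w : ℝ) * (l - 2 * Real.log l)) := by
            apply Real.exp_le_exp.2
            rw [mul_comm]
            exact mul_le_mul_of_nonneg_right hw1 hlogl
        _ = Real.exp (l - 2 * Real.log l) ^ w := by rw [← Real.exp_nat_mul]
        _ ≤ (1 + L / l ^ 2) ^ w := by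
            rw [hz1]
            apply pow_le_pow_left₀ (by positivity)
            linarith
    have h4 : (X : ℝ) * Real.exp (L / l ^ 2 * ∑ p ∈ (Finset.Icc 1 X).filter Nat.Prime, (1 : ℝ) / p) ≤
        Real.exp (L + C * L / l) := by
      rw [Real.exp_add]
      apply mul_le_mul hXexp.le _ (Real.exp_pos _).le (Real.exp_pos _).le
      apply Real.exp_le_exp.2
      calc L / l ^ 2 * ∑ p ∈ (Finset.Icc 1 X).filter Nat.Prime, (1 : ℝ) / p ≤ L / l ^ 2 * (C * l) :=
            mul_le_mul_of_nonneg_left h2 (by positivity)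
        _ = C * L / l := by field_simp
    have h5 : (W.card : ℝ) * Real.exp ((l - 2 * Real.log l) * (L / (9 * l))) ≤ Real.exp (L + C * L / l) :=
      (mul_le_mul_of_nonneg_left h3 (Nat.cast_nonneg _)).trans (h1.trans h4)
    rw [← le_div_iff₀ (Real.exp_pos _), ← Real.exp_sub] at h5
    refine h5.trans ?_
    rw [hX9']
    apply Real.exp_le_exp.2
    have h6 : (l - 2 * Real.log l) * (L / (9 * l)) = L / 9 - 2 / 9 * (L * (Real.log l / l)) := by
      field_simp
    have h7 : C * L / l = L * (C / l) := by ring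
    rw [h6, h7]
    have h8 : C / l + 2 / 9 * (Real.log l / l) ≤ 1 / 90 := by
      have : C / l + 2 / 9 * (Real.log l / l) = (90 * C + 20 * Real.log l) / (90 * l) := by field_simp; ring
      rw [this, div_le_div_iff₀ (by positivity) (by norm_num)]
      linarith
    nlinarith
  -- third
  have k3 : (B.card : ℝ) ≤ 2 * (X : ℝ) ^ ((9 : ℝ) / 10) := by
    have h1 := hMom k (t ^ 5) X (t ^ 7) P (Nat.one_le_pow _ _ (by omega)) (fun i hi => ⟨(hPa i hi).2, hPc i hi⟩) hPb
    rw [← hB] at h1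
    push_cast at h1
    obtain ⟨m, hm⟩ : ∃ m : ℝ, m = (t : ℝ) ^ 5 := ⟨_, rfl⟩
    rw [← hm] at h1
    have hm0 : 0 < m := by rw [hm]; positivity
    have h2 : (B.card : ℝ) ≤ X * (4 / m) ^ k + (2 * (t : ℝ) ^ 7) ^ (2 * k) := by
      rw [← le_div_iff₀ (by positivity)] at h1
      refine h1.trans (le_of_eq ?_)
      rw [add_div]
      congr 1
      · rw [div_pow 4 m, div_pow m 2, pow_mul, pow_mul (2 : ℝ)]
        have : (m ^ 2) ^ k = m ^ k * m ^ k := by rw [← pow_mul, two_mul, pow_add]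
        rw [this]
        norm_num
        field_simp
      · rw [← div_pow]
        congr 1
        field_simp
    have h3 : (2 * (t : ℝ) ^ 7) ^ (2 * k) ≤ (X : ℝ) ^ ((9 : ℝ) / 10) := by
      have h4 : 2 * (t : ℝ) ^ 7 ≤ Real.exp (1 + 7 * l) := by
        have q1 : (2 : ℝ) ≤ Real.exp 1 := by
          have := Real.exp_one_gt_d9
          linarith
        have q2 : (t : ℝ) ^ 7 ≤ Real.exp (7 * l) := by
          calc (t : ℝ) ^ 7 ≤ L ^ 7 := pow_le_pow_left₀ htr.le ht1 7
            _ = Real.exp (7 * l) := by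
                rw [← hexpl, ← Real.exp_nat_mul]; norm_num [hexpl, hl]
        rw [Real.exp_add]
        exact mul_le_mul q1 q2 (by positivity) (by positivity)
      rw [hX9']
      calc (2 * (t : ℝ) ^ 7) ^ (2 * k) ≤ Real.exp (1 + 7 * l) ^ (2 * k) := pow_le_pow_left₀ (by positivity) h4 _
        _ = Real.exp (((2 * k : ℕ) : ℝ) * (1 + 7 * l)) := by rw [← Real.exp_nat_mul]
        _ ≤ Real.exp (9 / 10 * L) := by
            apply Real.exp_le_exp.2
            push_cast
            have h5 : (k : ℝ) * (16 * l) ≤ L := by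
              rw [le_div_iff₀ (by positivity)] at hk1
              exact hk1
            have h6 : (0 : ℝ) ≤ k := Nat.cast_nonneg _
            nlinarith
    have h4 : (X : ℝ) * (4 / m) ^ k ≤ (X : ℝ) ^ ((9 : ℝ) / 10) := by
      have h5 : 4 / m ≤ Real.exp (-(4 * l)) := by
        have h6 : L ^ 5 / 32 ≤ m := by
          rw [hm]
          calc L ^ 5 / 32 = (L / 2) ^ 5 := by ring
            _ ≤ (t : ℝ) ^ 5 := pow_le_pow_left₀ (by positivity) ht3 5
        have h7 : Real.exp (-(4 * l)) = 1 / L ^ 4 := by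
          rw [Real.exp_neg, one_div]
          congr 1
          rw [← hexpl, ← Real.exp_nat_mul]; norm_num [hexpl, hl]
        rw [h7, div_le_div_iff₀ hm0 (by positivity)]
        have h8 : 128 ≤ L := by
          have h9 : Real.exp 5 ≤ L := by rw [← hexpl]; exact Real.exp_le_exp.2 a2
          have h10 : (128 : ℝ) ≤ Real.exp 5 := by
            have : Real.exp 5 = Real.exp 1 ^ 5 := by rw [← Real.exp_nat_mul]; norm_num
            rw [this]
            have h11 := Real.exp_one_gt_d9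
            calc (128 : ℝ) ≤ 2.7182818283 ^ 5 := by norm_num
              _ ≤ Real.exp 1 ^ 5 := pow_le_pow_left₀ (by norm_num) h11.le 5
          linarith
        have h9 : 4 * L ^ 4 * 32 ≤ L ^ 5 := by
          have : L ^ 5 = L * L ^ 4 := by ring
          rw [this]
          have : 0 < L ^ 4 := by positivity
          nlinarith
        linarith
      have h6 : (4 / m) ^ k ≤ Real.exp (-(1 / 10 * L)) := by
        calc (4 / m) ^ k ≤ Real.exp (-(4 * l)) ^ k := pow_le_pow_left₀ (by positivity) h5 _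
          _ = Real.exp ((k : ℝ) * (-(4 * l))) := by rw [← Real.exp_nat_mul]
          _ ≤ Real.exp (-(1 / 10 * L)) := by
            apply Real.exp_le_exp.2
            rw [div_lt_iff₀ (by positivity)] at hk2
            nlinarith
      calc (X : ℝ) * (4 / m) ^ k ≤ Real.exp L * Real.exp (-(1 / 10 * L)) :=
            mul_le_mul hXexp.le h6 (by positivity) (Real.exp_pos _).le
        _ = Real.exp (9 / 10 * L) := by rw [← Real.exp_add]; ring_nf
        _ = (X : ℝ) ^ ((9 : ℝ) / 10) := hX9'.symm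
    linarith
  have hX₀ : (0 : ℝ) ≤ X₀ := Nat.cast_nonneg _
  nlinarith

end Pool.Agent.OS.Asm75
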