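import Pool.Agent.OS.Stmts2
import Pool.Agent.OS.Asm75

/-!
# MP_ddb6ee_nt: assembly for the exponent `3 / 4 + ε` (helper75)
-/

set_option autoImplicit false

namespace Pool.Agent.OS.Asm275

open Finset Pool.Agent.OS Pool.Agent.OS.Asm75

theorem asm275 : Asm2 := by
  classical
  rintro hOno hMom hOm ⟨C, hC, hP1⟩ hP3 ε hε
  rcases lt_or_ge (1 / 4) ε with hbig | hsmall
  · refine ⟨1, fun X hX1 => ?_⟩
    have hX1r : (1 : ℝ) ≤ X := by exact_mod_cast hX1
    have h1 : (((Icc 1 X).filter (fun D : ℕ => Squarefree D ∧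
        onoInvariant (fundDisc (-(D : ℤ))) = (fundDisc (-(D : ℤ))).natAbs.primeFactors.card)).card : ℝ) ≤ X := by
      have h2 : ((Icc 1 X).filter (fun D : ℕ => Squarefree D ∧
          onoInvariant (fundDisc (-(D : ℤ))) = (fundDisc (-(D : ℤ))).natAbs.primeFactors.card)).card ≤ X := by
        refine (card_filter_le _ _).trans ?_
        rw [Nat.card_Icc]
        omega
      exact_mod_cast h2
    rw [one_mul]
    refine h1.trans ?_
    calc (X : ℝ) = (X : ℝ) ^ (1 : ℝ) := (Real.rpow_one _).symm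
      _ ≤ (X : ℝ) ^ ((3 : ℝ) / 4 + ε) := Real.rpow_le_rpow_of_exponent_le hX1r (by linarith)
  obtain ⟨y₀, hP2⟩ := hP3 (ε / 4) (by linarith)
  have hc : Filter.Tendsto (fun X : ℕ => (X : ℝ)) Filter.atTop Filter.atTop := tendsto_natCast_atTop_atTop
  have hL' : Filter.Tendsto (fun X : ℕ => Real.log (X : ℝ)) Filter.atTop Filter.atTop :=
    Real.tendsto_log_atTop.comp hc
  have hl' : Filter.Tendsto (fun X : ℕ => Real.log (Real.log (X : ℝ))) Filter.atTop Filter.atTop :=
    Real.tendsto_log_atTop.comp hL'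
  have e2 : ∀ᶠ L : ℝ in Filter.atTop, 6 * Real.log L + 2 ≤ ε * L := by
    have h1 := (Asymptotics.isLittleO_iff.1 Real.isLittleO_log_id_atTop)
      (show (0 : ℝ) < ε / 12 by positivity)
    filter_upwards [h1, Filter.eventually_ge_atTop (4 / ε), Filter.eventually_ge_atTop (1 : ℝ)] with L h2 h3 h5
    rw [Real.norm_eq_abs, Real.norm_eq_abs, id, abs_of_pos (show 0 < L by linarith)] at h2
    have h4 := (le_abs_self _).trans h2
    rw [div_le_iff₀ hε] at h3
    linarith
  have e3 : ∀ᶠ l : ℝ in Filter.atTop, C + 1 / 2 * Real.log l ≤ ε * l := by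
    have h1 := (Asymptotics.isLittleO_iff.1 Real.isLittleO_log_id_atTop)
      (show (0 : ℝ) < ε by positivity)
    filter_upwards [h1, Filter.eventually_ge_atTop (2 * C / ε), Filter.eventually_ge_atTop (1 : ℝ)] with l h2 h3 h5
    rw [Real.norm_eq_abs, Real.norm_eq_abs, id, abs_of_pos (show 0 < l by linarith)] at h2
    have h4 := (le_abs_self _).trans h2
    rw [div_le_iff₀ hε] at h3
    linarith
  have hev : ∀ᶠ X : ℕ in Filter.atTop, 16 ≤ X ∧ 5 ≤ Real.log (Real.log (X : ℝ)) ∧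
      4 / ε ≤ Real.log (Real.log (X : ℝ)) ∧
      6 * Real.log (Real.log (X : ℝ)) + 2 ≤ ε * Real.log (X : ℝ) ∧
      C + 1 / 2 * Real.log (Real.log (Real.log (X : ℝ))) ≤ ε * Real.log (Real.log (X : ℝ)) ∧
      (y₀ : ℝ) ≤ Real.log (X : ℝ) := by
    filter_upwards [Filter.eventually_ge_atTop 16, hl'.eventually_ge_atTop 5, hl'.eventually_ge_atTop (4 / ε),
      hL'.eventually e2, hl'.eventually e3, hL'.eventually_ge_atTop (y₀ : ℝ)] with X a1 a2 a6 a3 a4 a5
    exact ⟨a1, a2, a6, a3, a4, a5⟩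
  obtain ⟨X₀, hX₀⟩ := Filter.eventually_atTop.1 hev
  refine ⟨4 + X₀, fun X hX1 => ?_⟩
  have hX1r : (1 : ℝ) ≤ X := by exact_mod_cast hX1
  have hXp : (0 : ℝ) < X := by linarith
  have hX9 : (1 : ℝ) ≤ (X : ℝ) ^ ((3 : ℝ) / 4 + ε) := Real.one_le_rpow hX1r (by positivity)
  set S := (Icc 1 X).filter (fun D : ℕ => Squarefree D ∧
    onoInvariant (fundDisc (-(D : ℤ))) = (fundDisc (-(D : ℤ))).natAbs.primeFactors.card) with hS
  rcases Nat.lt_or_ge X X₀ with hsm | hX
  · have h1 : (S.card : ℝ) ≤ X₀ := by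
      have h2 : S.card ≤ X₀ := by
        refine (card_filter_le _ _).trans ?_
        rw [Nat.card_Icc]
        omega
      exact_mod_cast h2
    have h3 : (0 : ℝ) ≤ X₀ := Nat.cast_nonneg _
    nlinarith
  obtain ⟨a1, a2, a6, a3, a4, a5⟩ := hX₀ X hX
  obtain ⟨L, hL⟩ : ∃ L : ℝ, L = Real.log (X : ℝ) := ⟨_, rfl⟩
  rw [← hL] at a2 a3 a4 a5 a6
  obtain ⟨l, hl⟩ : ∃ l : ℝ, l = Real.log L := ⟨_, rfl⟩
  rw [← hl] at a2 a3 a4 a6
  have hy₀ : (0 : ℝ) ≤ y₀ := Nat.cast_nonneg _
  have hl0 : 0 < l := by linarith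
  have hL0 : 0 < L := by
    by_contra hcon
    push Not at hcon
    have : ε * L ≤ 0 := mul_nonpos_of_nonneg_of_nonpos hε.le hcon
    linarith
  have hexpl : Real.exp l = L := by rw [hl, Real.exp_log hL0]
  have hL128 : 128 ≤ L := by
    have h9 : Real.exp 5 ≤ L := by rw [← hexpl]; exact Real.exp_le_exp.2 a2
    have h10 : (128 : ℝ) ≤ Real.exp 5 := by
      have : Real.exp 5 = Real.exp 1 ^ 5 := by rw [← Real.exp_nat_mul]; norm_num
      rw [this]
      have h11 := Real.exp_one_gt_d9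
      calc (128 : ℝ) ≤ 2.7182818283 ^ 5 := by norm_num
        _ ≤ Real.exp 1 ^ 5 := pow_le_pow_left₀ (by norm_num) h11.le 5
    linarith
  have hX9' : (X : ℝ) ^ ((3 : ℝ) / 4 + ε) = Real.exp ((3 / 4 + ε) * L) := by
    rw [Real.rpow_def_of_pos hXp, ← hL]; ring_nf
  have hXexp : (X : ℝ) = Real.exp L := by rw [hL, Real.exp_log hXp]
  have hεl : 4 ≤ ε * l := by
    rw [div_le_iff₀ hε] at a6
    linarith
  -- y
  obtain ⟨y, hy⟩ : ∃ y : ℕ, y = ⌊L ^ 3⌋₊ := ⟨_, rfl⟩
  have hL3 : L ^ 3 = Real.exp (3 * l) := by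
    rw [← hexpl, ← Real.exp_nat_mul]; norm_num [hexpl, hl]
  have hy1 : (y : ℝ) ≤ Real.exp (3 * l) := by rw [← hL3, hy]; exact Nat.floor_le (by positivity)
  have hL3big : L ≤ L ^ 3 := by
    calc L = L ^ 1 := (pow_one L).symm
      _ ≤ L ^ 3 := pow_le_pow_right₀ (by linarith) (by norm_num)
  have hy2 : Real.exp (3 * l - 1) ≤ y := by
    have h1 : L ^ 3 < y + 1 := by rw [hy]; exact Nat.lt_floor_add_one _
    rw [Real.exp_sub, ← hL3, div_le_iff₀ (Real.exp_pos 1)]
    have h2 := Real.exp_one_gt_d9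
    have h3 : (0 : ℝ) ≤ y := Nat.cast_nonneg _
    nlinarith
  have hy3 : y₀ ≤ y := by
    rw [hy]
    apply Nat.le_floor
    linarith
  -- m
  obtain ⟨m, hm⟩ : ∃ m : ℕ, m = ⌊Real.exp ((2 - ε) * l)⌋₊ := ⟨_, rfl⟩
  have hm1 : (m : ℝ) ≤ Real.exp ((2 - ε) * l) := by rw [hm]; exact Nat.floor_le (Real.exp_pos _).le
  have hm2 : Real.exp ((2 - ε) * l) < m + 1 := by rw [hm]; exact Nat.lt_floor_add_one _
  have hm3 : L ≤ Real.exp ((2 - ε) * l) := by
    rw [← hexpl, Real.exp_le_exp]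
    rw [hl, hexpl, ← hl] at *
    nlinarith
  have hm4 : 1 ≤ m := by
    rw [hm]
    apply Nat.le_floor
    push_cast
    linarith
  have hmr : (1 : ℝ) ≤ m := by exact_mod_cast hm4
  -- k
  obtain ⟨k, hk⟩ : ∃ k : ℕ, k = ⌊L / (8 * l)⌋₊ := ⟨_, rfl⟩
  have hk1 : (k : ℝ) ≤ L / (8 * l) := by rw [hk]; exact Nat.floor_le (by positivity)
  have hk2 : L / (8 * l) < k + 1 := by rw [hk]; exact Nat.lt_floor_add_one _
  have hk0 : (0 : ℝ) ≤ k := Nat.cast_nonneg _
  have hkL : (k : ℝ) ≤ L := by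
    refine hk1.trans ?_
    rw [div_le_iff₀ (by positivity)]
    nlinarith
  -- w
  obtain ⟨w, hw⟩ : ∃ w : ℕ, w = ⌈L / (4 * l)⌉₊ := ⟨_, rfl⟩
  have hw1 : L / (4 * l) ≤ w := by rw [hw]; exact Nat.le_ceil _
  -- blocks
  have hkm : k * m ≤ ((Finset.Icc 1 y).filter (fun p => p.Prime ∧ p ≠ 2)).card := by
    have h1 := hP2 y hy3
    have h2 : ((k * m : ℕ) : ℝ) ≤ (((Finset.Icc 1 y).filter (fun p => p.Prime ∧ p ≠ 2)).card : ℝ) := by
      refine le_trans ?_ h1
      push_cast
      calc (k : ℝ) * m ≤ Real.exp l * Real.exp ((2 - ε) * l) :=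
            mul_le_mul (by rw [hexpl]; exact hkL) hm1 (by positivity) (Real.exp_pos _).le
        _ = Real.exp (l + (2 - ε) * l) := by rw [← Real.exp_add]
        _ ≤ Real.exp ((3 * l - 1) * (1 - ε / 4)) := by
            apply Real.exp_le_exp.2
            nlinarith
        _ = Real.exp (3 * l - 1) ^ (1 - ε / 4) := by rw [← Real.exp_mul]
        _ ≤ (y : ℝ) ^ (1 - ε / 4) := Real.rpow_le_rpow (Real.exp_pos _).le hy2 (by linarith)
    exact_mod_cast h2
  obtain ⟨P, hPa, hPb⟩ := blocks m k _ hkm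
  have hPc : ∀ i < k, ∀ p ∈ P i, p.Prime ∧ p ≠ 2 ∧ p ≤ y := by
    intro i hi p hp
    have := (hPa i hi).1 hp
    rw [mem_filter, mem_Icc] at this
    exact ⟨this.2.1, this.2.2, this.1.2⟩
  set B := (Icc 1 X).filter (fun n : ℕ => (∀ i < k, ∀ p ∈ P i, jacobiSym (-(n : ℤ)) p ≠ 1) ∧
    2 * n.primeFactors.card ≤ m) with hB
  set W := (Icc 1 X).filter (fun n : ℕ => w ≤ n.primeFactors.card) with hW
  have hsub : S ⊆ (Icc 1 ⌊(X : ℝ) ^ ((3 : ℝ) / 4 + ε)⌋₊ ∪ W) ∪ B := by
    intro D hD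
    rw [hS, mem_filter] at hD
    obtain ⟨hD1, hD2, hD3⟩ := hD
    have hD4 := mem_Icc.1 hD1
    rw [mem_union, mem_union]
    by_cases h1 : D ≤ ⌊(X : ℝ) ^ ((3 : ℝ) / 4 + ε)⌋₊
    · exact Or.inl (Or.inl (mem_Icc.2 ⟨hD4.1, h1⟩))
    by_cases h2 : w ≤ D.primeFactors.card
    · exact Or.inl (Or.inr (by rw [hW, mem_filter]; exact ⟨hD1, h2⟩))
    right
    have h3 : (X : ℝ) ^ ((3 : ℝ) / 4 + ε) < D := Nat.lt_of_floor_lt (not_le.1 h1)
    have h4 : (D.primeFactors.card : ℝ) < L / (4 * l) := by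
      rw [not_le, hw] at h2
      exact Nat.lt_ceil.1 h2
    have h4' : (D.primeFactors.card : ℝ) * (4 * l) ≤ L := by
      rw [lt_div_iff₀ (by positivity)] at h4
      exact h4.le
    have h5 : 2 * (D.primeFactors.card : ℝ) ≤ L := by
      have : (0 : ℝ) ≤ D.primeFactors.card := Nat.cast_nonneg _
      nlinarith
    rw [hB, mem_filter]
    refine ⟨hD1, ?_, ?_⟩
    · intro i hi p hp hj
      obtain ⟨hp1, hp2, hp3⟩ := hPc i hi p hp
      obtain ⟨g1, g2⟩ := split_of hp1 hj
      have h7 : 4 * p ^ (D.primeFactors.card + 2) ≤ D := by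
        have h8 : (4 : ℝ) * (p : ℝ) ^ (D.primeFactors.card + 2) ≤ D := by
          refine le_trans ?_ h3.le
          have h9 : (p : ℝ) ≤ Real.exp (3 * l) := by
            calc (p : ℝ) ≤ (y : ℝ) := by exact_mod_cast hp3
              _ ≤ Real.exp (3 * l) := hy1
          have h10 : (p : ℝ) ^ (D.primeFactors.card + 2) ≤ Real.exp (3 * L / 4 + 6 * l) := by
            calc (p : ℝ) ^ (D.primeFactors.card + 2) ≤ Real.exp (3 * l) ^ (D.primeFactors.card + 2) :=
                  pow_le_pow_left₀ (Nat.cast_nonneg _) h9 _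
              _ = Real.exp (((D.primeFactors.card + 2 : ℕ) : ℝ) * (3 * l)) := by rw [← Real.exp_nat_mul]
              _ ≤ Real.exp (3 * L / 4 + 6 * l) := by
                apply Real.exp_le_exp.2
                push_cast
                nlinarith
          have h12 : (4 : ℝ) ≤ Real.exp 2 := by
            have : Real.exp 2 = Real.exp 1 * Real.exp 1 := by rw [← Real.exp_add]; norm_num
            have h13 := Real.exp_one_gt_d9
            nlinarith
          calc (4 : ℝ) * (p : ℝ) ^ (D.primeFactors.card + 2) ≤ Real.exp 2 * Real.exp (3 * L / 4 + 6 * l) :=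
                mul_le_mul h12 h10 (by positivity) (by positivity)
            _ = Real.exp (2 + (3 * L / 4 + 6 * l)) := by rw [← Real.exp_add]
            _ ≤ Real.exp ((3 / 4 + ε) * L) := by
                apply Real.exp_le_exp.2
                linarith
            _ = (X : ℝ) ^ ((3 : ℝ) / 4 + ε) := hX9'.symm
        exact_mod_cast h8
      have h8 : 4 * p ^ (D.primeFactors.card + 2) ≤ (fundDisc (-(D : ℤ))).natAbs := by
        rcases disc_cases D with h | h
        · rw [h]; exact h7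
        · rw [h]; omega
      have h9 := hOno D p (D.primeFactors.card + 2) hD4.1 hp1 hp2 g1 g2 h8
      have h10 := omega_disc hD4.1
      rw [hD3] at h9
      omega
    · rw [hm]
      apply Nat.le_floor
      push_cast
      linarith
  have hcard := (card_le_card hsub).trans ((card_union_le _ _).trans (Nat.add_le_add_right (card_union_le _ _) _))
  have hcard' : (S.card : ℝ) ≤ ((Icc 1 ⌊(X : ℝ) ^ ((3 : ℝ) / 4 + ε)⌋₊).card : ℝ) + W.card + B.card := by
    exact_mod_cast hcard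
  -- first
  have k1 : ((Icc 1 ⌊(X : ℝ) ^ ((3 : ℝ) / 4 + ε)⌋₊).card : ℝ) ≤ (X : ℝ) ^ ((3 : ℝ) / 4 + ε) := by
    rw [Nat.card_Icc, Nat.add_sub_cancel]
    exact Nat.floor_le (by positivity)
  -- second
  have k2 : (W.card : ℝ) ≤ (X : ℝ) ^ ((3 : ℝ) / 4 + ε) := by
    have h1 := hOm X w (L / l ^ 2) (by positivity)
    rw [← hW] at h1
    have h2 := hP1 X a1
    rw [← hL, ← hl] at h2
    have hz1 : Real.exp (l - 2 * Real.log l) = L / l ^ 2 := by
      rw [Real.exp_sub, hexpl]
      congr 1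
      have : (2 : ℝ) * Real.log l = ((2 : ℕ) : ℝ) * Real.log l := by norm_num
      rw [this, Real.exp_nat_mul, Real.exp_log hl0]
    have hlogl : 0 ≤ l - 2 * Real.log l := by
      have q1 : 0 ≤ Real.log l := Real.log_nonneg (by linarith)
      nlinarith
    have h3 : Real.exp ((l - 2 * Real.log l) * (L / (4 * l))) ≤ (1 + L / l ^ 2) ^ w := by
      calc Real.exp ((l - 2 * Real.log l) * (L / (4 * l))) ≤ Real.exp ((w : ℝ) * (l - 2 * Real.log l)) := by
            apply Real.exp_le_exp.2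
            rw [mul_comm]
            exact mul_le_mul_of_nonneg_right hw1 hlogl
        _ = Real.exp (l - 2 * Real.log l) ^ w := by rw [← Real.exp_nat_mul]
        _ ≤ (1 + L / l ^ 2) ^ w := by
            rw [hz1]
            apply pow_le_pow_left₀ (by positivity)
            linarith
    have h4 : (X : ℝ) * Real.exp (L / l ^ 2 * ∑ p ∈ (Finset.Icc 1 X).filter Nat.Prime, (1 : ℝ) / p) ≤
        Real.exp (L + C * L / l) := by
      rw [Real.exp_add]
      apply mul_le_mul hXexp.le _ (Real.exp_pos _).le (Real.exp_pos _).le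
      apply Real.exp_le_exp.2
      calc L / l ^ 2 * ∑ p ∈ (Finset.Icc 1 X).filter Nat.Prime, (1 : ℝ) / p ≤ L / l ^ 2 * (C * l) :=
            mul_le_mul_of_nonneg_left h2 (by positivity)
        _ = C * L / l := by field_simp
    have h5 : (W.card : ℝ) * Real.exp ((l - 2 * Real.log l) * (L / (4 * l))) ≤ Real.exp (L + C * L / l) :=
      (mul_le_mul_of_nonneg_left h3 (Nat.cast_nonneg _)).trans (h1.trans h4)
    rw [← le_div_iff₀ (Real.exp_pos _), ← Real.exp_sub] at h5
    refine h5.trans ?_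
    rw [hX9']
    apply Real.exp_le_exp.2
    have h6 : (l - 2 * Real.log l) * (L / (4 * l)) = L / 4 - 1 / 2 * (L * (Real.log l / l)) := by
      field_simp
      ring
    have h7 : C * L / l = L * (C / l) := by ring
    rw [h6, h7]
    have h8 : C / l + 1 / 2 * (Real.log l / l) ≤ ε := by
      have : C / l + 1 / 2 * (Real.log l / l) = (C + 1 / 2 * Real.log l) / l := by field_simp
      rw [this, div_le_iff₀ hl0]
      exact a4
    nlinarith
  -- third
  have k3 : (B.card : ℝ) ≤ 2 * (X : ℝ) ^ ((3 : ℝ) / 4 + ε) := by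
    have h1 := hMom k m X y P hm4 (fun i hi => ⟨(hPa i hi).2, hPc i hi⟩) hPb
    rw [← hB] at h1
    have hm0 : (0 : ℝ) < m := by linarith
    have h2 : (B.card : ℝ) ≤ X * (4 / (m : ℝ)) ^ k + (2 * (y : ℝ)) ^ (2 * k) := by
      rw [← le_div_iff₀ (by positivity)] at h1
      refine h1.trans (le_of_eq ?_)
      rw [add_div]
      congr 1
      · rw [div_pow 4 (m : ℝ), div_pow (m : ℝ) 2, pow_mul, pow_mul (2 : ℝ)]
        have : ((m : ℝ) ^ 2) ^ k = (m : ℝ) ^ k * (m : ℝ) ^ k := by rw [← pow_mul, two_mul, pow_add]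
        rw [this]
        norm_num
        field_simp
      · rw [← div_pow]
        congr 1
        field_simp
    have h3 : (2 * (y : ℝ)) ^ (2 * k) ≤ (X : ℝ) ^ ((3 : ℝ) / 4 + ε) := by
      have h4 : 2 * (y : ℝ) ≤ Real.exp (1 + 3 * l) := by
        have q1 : (2 : ℝ) ≤ Real.exp 1 := by
          have := Real.exp_one_gt_d9
          linarith
        rw [Real.exp_add]
        exact mul_le_mul q1 hy1 (by positivity) (by positivity)
      rw [hX9']
      calc (2 * (y : ℝ)) ^ (2 * k) ≤ Real.exp (1 + 3 * l) ^ (2 * k) := pow_le_pow_left₀ (by positivity) h4 _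
        _ = Real.exp (((2 * k : ℕ) : ℝ) * (1 + 3 * l)) := by rw [← Real.exp_nat_mul]
        _ ≤ Real.exp ((3 / 4 + ε) * L) := by
            apply Real.exp_le_exp.2
            push_cast
            have h5 : (k : ℝ) * (8 * l) ≤ L := by
              rw [le_div_iff₀ (by positivity)] at hk1
              exact hk1
            have h6 : 2 * (k : ℝ) ≤ ε * L := by
              have h7 : (k : ℝ) * 4 ≤ k * (ε * l) := mul_le_mul_of_nonneg_left hεl hk0
              have h8 : (k : ℝ) * (ε * l) ≤ ε * L := by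
                have : ε * (k * (8 * l)) ≤ ε * L := mul_le_mul_of_nonneg_left h5 hε.le
                have h9 : 0 ≤ ε * (k * l) := by positivity
                nlinarith
              nlinarith
            nlinarith
    have h4 : (X : ℝ) * (4 / (m : ℝ)) ^ k ≤ (X : ℝ) ^ ((3 : ℝ) / 4 + ε) := by
      have h5 : 4 / (m : ℝ) ≤ Real.exp (3 - (2 - ε) * l) := by
        have h6 : Real.exp ((2 - ε) * l) / 2 ≤ m := by linarith
        have h8 : (8 : ℝ) ≤ Real.exp 3 := by
          have : Real.exp 3 = Real.exp 1 ^ 3 := by rw [← Real.exp_nat_mul]; norm_num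
          rw [this]
          have h11 := Real.exp_one_gt_d9
          calc (8 : ℝ) ≤ 2.7182818283 ^ 3 := by norm_num
            _ ≤ Real.exp 1 ^ 3 := pow_le_pow_left₀ (by norm_num) h11.le 3
        rw [Real.exp_sub, div_le_div_iff₀ hm0 (Real.exp_pos _)]
        have h9 : 8 * (m : ℝ) ≤ Real.exp 3 * m := mul_le_mul_of_nonneg_right h8 hm0.le
        linarith
      have h6 : (4 / (m : ℝ)) ^ k ≤ Real.exp (-(1 / 4 * L) + ε * L) := by
        calc (4 / (m : ℝ)) ^ k ≤ Real.exp (3 - (2 - ε) * l) ^ k := pow_le_pow_left₀ (by positivity) h5 _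
          _ = Real.exp ((k : ℝ) * (3 - (2 - ε) * l)) := by rw [← Real.exp_nat_mul]
          _ ≤ Real.exp (-(1 / 4 * L) + ε * L) := by
            apply Real.exp_le_exp.2
            have h7 : L < (k + 1) * (8 * l) := by
              rw [div_lt_iff₀ (by positivity)] at hk2
              exact hk2
            have h8 : (k : ℝ) * (8 * l) ≤ L := by
              rw [le_div_iff₀ (by positivity)] at hk1
              exact hk1
            have h9 : 4 * (k : ℝ) ≤ ε * (k * l) := by nlinarith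
            have h10 : ε * (k * l) ≤ ε * L / 8 := by nlinarith
            nlinarith
      calc (X : ℝ) * (4 / (m : ℝ)) ^ k ≤ Real.exp L * Real.exp (-(1 / 4 * L) + ε * L) :=
            mul_le_mul hXexp.le h6 (by positivity) (Real.exp_pos _).le
        _ = Real.exp ((3 / 4 + ε) * L) := by rw [← Real.exp_add]; ring_nf
        _ = (X : ℝ) ^ ((3 : ℝ) / 4 + ε) := hX9'.symm
    linarith
  have hX₀ : (0 : ℝ) ≤ X₀ := Nat.cast_nonneg _
  nlinarith

end Pool.Agent.OS.Asm275
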