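import Pool.Agent.OS.Stmts2

/-!
# Row ASM2: the choice of the parameters
-/

set_option autoImplicit false
set_option maxHeartbeats 2000000

namespace Pool.Agent.OS.Asm289

open Finset

/-- disjoint blocks -/
lemma blocks (S : Finset ℕ) (k m : ℕ) (h : k * m ≤ S.card) :
    ∃ P : ℕ → Finset ℕ, (∀ i < k, P i ⊆ S ∧ (P i).card = m) ∧ ∀ i < k, ∀ j < k, i ≠ j → Disjoint (P i) (P j) := by
  classical
  induction k generalizing S with
  | zero => exact ⟨fun _ => ∅, fun i hi => absurd hi (by omega), fun i hi => absurd hi (by omega)⟩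
  | succ k ih =>
    have h1 : m ≤ S.card := by nlinarith
    obtain ⟨B, hB1, hB2⟩ := exists_subset_card_eq h1
    have h2 : k * m ≤ (S \ B).card := by
      rw [card_sdiff_of_subset hB1, hB2]
      have : (k + 1) * m = k * m + m := by ring
      omega
    obtain ⟨P, hP1, hP2⟩ := ih (S \ B) h2
    refine ⟨fun i => if i = k then B else P i, ?_, ?_⟩
    · intro i hi
      by_cases hik : i = k
      · simp only [hik, if_true]
        exact ⟨hB1, hB2⟩
      · simp only [hik, if_false]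
        have := hP1 i (by omega)
        exact ⟨this.1.trans sdiff_subset, this.2⟩
    · intro i hi j hj hij
      by_cases hik : i = k
      · have hjk : j ≠ k := fun h => hij (hik.trans h.symm)
        simp only [hik, hjk, if_true, if_false]
        exact (disjoint_sdiff (s := B) (t := S)).mono_right (hP1 j (by omega)).1
      · by_cases hjk : j = k
        · simp only [hik, hjk, if_true, if_false]
          exact ((disjoint_sdiff (s := B) (t := S)).mono_right (hP1 i (by omega)).1).symm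
        · simp only [hik, hjk, if_false]
          exact hP2 i (by omega) j (by omega) hij

/-- the discriminant -/
lemma disc (D : ℕ) (hD : 1 ≤ D) : D ≤ (fundDisc (-(D : ℤ))).natAbs ∧
    (fundDisc (-(D : ℤ))).natAbs.primeFactors.card ≤ D.primeFactors.card + 1 := by
  unfold fundDisc
  split_ifs with h
  · rw [Int.natAbs_neg, Int.natAbs_natCast]
    omega
  · have e : (4 * -(D : ℤ)).natAbs = 4 * D := by
      rw [Int.natAbs_mul, Int.natAbs_neg, Int.natAbs_natCast]; rfl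
    rw [e]
    refine ⟨by omega, ?_⟩
    rw [Nat.primeFactors_mul (by norm_num) (by omega)]
    have : (4 : ℕ).primeFactors = {2} := by
      have h4 : (4 : ℕ) = 2 ^ 2 := by norm_num
      rw [h4, Nat.primeFactors_prime_pow (by norm_num) Nat.prime_two]
    rw [this]
    refine (card_union_le _ _).trans ?_
    simp [add_comm]

/-- no small prime splits -/
lemma nosplit (hO : Ono) (D q w : ℕ) (hD : 1 ≤ D) (hq : q.Prime) (hq2 : q ≠ 2)
    (hF : onoInvariant (fundDisc (-(D : ℤ))) = (fundDisc (-(D : ℤ))).natAbs.primeFactors.card)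
    (hw : D.primeFactors.card + 2 ≤ w) (hle : 4 * q ^ w ≤ D) : jacobiSym (-(D : ℤ)) q ≠ 1 := by
  intro hJ
  have : Fact q.Prime := ⟨hq⟩
  obtain ⟨h1, h2⟩ := disc D hD
  have hsq := ZMod.isSquare_of_jacobiSym_eq_one hJ
  have hnd : ¬ q ∣ D := by
    intro hd
    have hne : NeZero q := ⟨hq.ne_zero⟩
    have : jacobiSym (-(D : ℤ)) q = 0 := by
      rw [jacobiSym.eq_zero_iff_not_coprime, Int.neg_gcd, Int.gcd_natCast_natCast]
      intro hg
      have h5 : q ∣ Nat.gcd D q := Nat.dvd_gcd hd dvd_rfl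
      rw [hg] at h5
      exact hq.one_lt.ne' (Nat.dvd_one.mp h5)
    rw [this] at hJ
    norm_num at hJ
  obtain ⟨x, hx⟩ := hsq
  have hy : (q : ℤ) ∣ (x.val : ℤ) ^ 2 + D := by
    rw [← ZMod.intCast_zmod_eq_zero_iff_dvd]
    push_cast
    rw [ZMod.natCast_zmod_val]
    push_cast at hx
    have : ((D : ℕ) : ZMod q) = -(x * x) := by rw [← hx]; ring
    rw [this]; ring
  have h3 := hO D q ((fundDisc (-(D : ℤ))).natAbs.primeFactors.card + 1) hD hq hq2 hnd ⟨_, hy⟩ (by
    have h4 : q ^ ((fundDisc (-(D : ℤ))).natAbs.primeFactors.card + 1) ≤ q ^ w :=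
      Nat.pow_le_pow_right hq.pos (by omega)
    omega)
  omega

/-- large parameters -/
lemma large (ε C : ℝ) (hε : 0 < ε) (hC : 0 < C) (t₀ : ℕ) : ∃ L₀ : ℝ, ∀ L : ℝ, L₀ ≤ L →
    128 ≤ L ∧ 4 ≤ Real.log L ∧ 8 / ε ≤ Real.log L ∧ (t₀ : ℝ) + 3 ≤ L ∧ Real.log 4 + 6 * Real.log L ≤ ε * L ∧
      C * Real.log L ≤ ε / 2 * Real.exp (ε / 6 * Real.log L) := by
  have h1 : ∀ᶠ L : ℝ in Filter.atTop, ‖Real.log L‖ ≤ ε / 12 * ‖(id L : ℝ)‖ :=
    Real.isLittleO_log_id_atTop.def (by positivity)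
  have h2 : ∀ᶠ s : ℝ in Filter.atTop, 12 * C / ε / ε ≤ Real.exp s / s ^ 1 :=
    (Real.tendsto_exp_div_pow_atTop 1).eventually_ge_atTop _
  have h3 : Filter.Tendsto (fun L : ℝ => ε / 6 * Real.log L) Filter.atTop Filter.atTop :=
    Real.tendsto_log_atTop.const_mul_atTop (by positivity)
  have h4 := h3.eventually h2
  have h5 : ∀ᶠ L : ℝ in Filter.atTop, max 4 (8 / ε) ≤ Real.log L := Real.tendsto_log_atTop.eventually_ge_atTop _
  obtain ⟨L₀, hL₀⟩ := Filter.eventually_atTop.1 (h1.and (h4.and (h5.and ((Filter.eventually_ge_atTop (128 : ℝ)).and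
    ((Filter.eventually_ge_atTop ((t₀ : ℝ) + 3)).and (Filter.eventually_ge_atTop (4 / ε)))))))
  refine ⟨L₀, fun L hL => ?_⟩
  obtain ⟨a1, a2, a3, a4, a5, a7⟩ := hL₀ L hL
  have hLpos : 0 < L := by linarith
  have a3' : 4 ≤ Real.log L := (le_max_left _ _).trans a3
  have a3'' : 8 / ε ≤ Real.log L := (le_max_right _ _).trans a3
  rw [Real.norm_eq_abs, Real.norm_eq_abs, id, abs_of_pos hLpos, abs_of_pos (by linarith)] at a1
  have hl4 : Real.log 4 ≤ 2 := by
    have h6 : Real.log 4 = 2 * Real.log 2 := by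
      have : (4 : ℝ) = 2 ^ 2 := by norm_num
      rw [this, Real.log_pow]; norm_num
    have h7 := Real.log_two_lt_d9
    rw [h6]; linarith
  have a8 : 4 ≤ ε * L := by
    rw [div_le_iff₀ hε] at a7
    linarith
  refine ⟨a4, a3', a3'', a5, by linarith, ?_⟩
  have hs0 : 0 < ε / 6 * Real.log L := by positivity
  rw [pow_one, le_div_iff₀ hs0] at a2
  have e1 : 12 * C / ε / ε * (ε / 6 * Real.log L) = 2 / ε * (C * Real.log L) := by field_simp; norm_num
  rw [e1] at a2
  calc C * Real.log L = ε / 2 * (2 / ε * (C * Real.log L)) := by field_simp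
    _ ≤ ε / 2 * Real.exp (ε / 6 * Real.log L) := by gcongr

theorem big (hO : Ono) (hM : Mom) (hW : Om) {ε C : ℝ} (hε : 0 < ε) (hε1 : ε ≤ 1 / 4) (hC : 0 < C) {t₀ X : ℕ}
    (hP1 : ∑ p ∈ (Finset.Icc 1 X).filter Nat.Prime, (1 : ℝ) / p ≤ C * Real.log (Real.log X))
    (hP3 : ∀ y : ℕ, t₀ ≤ y → (y : ℝ) ^ (1 - ε / 6) ≤ (((Finset.Icc 1 y).filter (fun p => p.Prime ∧ p ≠ 2)).card : ℝ))
    (hX : 1 ≤ X) (a1 : 128 ≤ Real.log X) (a2 : 4 ≤ Real.log (Real.log X)) (a2' : 8 / ε ≤ Real.log (Real.log X))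
    (a3 : (t₀ : ℝ) + 3 ≤ Real.log X)
    (a4 : Real.log 4 + 6 * Real.log (Real.log X) ≤ ε * Real.log X)
    (a6 : C * Real.log (Real.log X) ≤ ε / 2 * Real.exp (ε / 6 * Real.log (Real.log X))) :
    (((Finset.Icc 1 X).filter (fun D : ℕ => Squarefree D ∧
      onoInvariant (fundDisc (-(D : ℤ))) = (fundDisc (-(D : ℤ))).natAbs.primeFactors.card)).card : ℝ) ≤
      4 * Real.exp ((3 / 4 + ε) * Real.log X) := by
  classical
  obtain ⟨L, hL⟩ : ∃ L : ℝ, L = Real.log X := ⟨_, rfl⟩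
  obtain ⟨l, hl⟩ : ∃ l : ℝ, l = Real.log L := ⟨_, rfl⟩
  rw [← hL] at hP1 a1 a2 a2' a3 a4 a6 ⊢
  rw [← hl] at hP1 a2 a2' a4 a6
  have hL0 : 0 < L := by linarith
  have hl0 : 0 < l := by linarith
  have hX0 : (0 : ℝ) < X := by exact_mod_cast hX
  have hXe : (X : ℝ) = Real.exp L := by rw [hL, Real.exp_log hX0]
  have hLe : L = Real.exp l := by rw [hl, Real.exp_log hL0]
  have hεl : 8 ≤ ε * l := by
    rw [div_le_iff₀ hε] at a2'
    linarith
  have hl4 : 0 ≤ Real.log 4 := Real.log_nonneg (by norm_num)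
  have hεL0 : 0 < ε * L := by positivity
  obtain ⟨t, ht⟩ : ∃ t : ℕ, t = Nat.floor L := ⟨_, rfl⟩
  obtain ⟨k, hk⟩ : ∃ k : ℕ, k = Nat.floor (L / (8 * l)) := ⟨_, rfl⟩
  obtain ⟨W, hWd⟩ : ∃ W : ℕ, W = Nat.ceil (L / (4 * l)) := ⟨_, rfl⟩
  obtain ⟨r, hr⟩ : ∃ r : ℝ, r = 2 - ε / 2 := ⟨_, rfl⟩
  have hr1 : 1 ≤ r := by rw [hr]; linarith
  have hr2 : r ≤ 2 := by rw [hr]; linarith
  obtain ⟨M, hMd⟩ : ∃ M : ℕ, M = Nat.floor ((t : ℝ) ^ r) := ⟨_, rfl⟩
  have htL : (t : ℝ) ≤ L := by rw [ht]; exact Nat.floor_le hL0.le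
  have htL' : L - 1 ≤ t := by
    have := Nat.lt_floor_add_one L
    rw [← ht] at this
    linarith
  have ht0 : t₀ ≤ t := by
    have : (t₀ : ℝ) ≤ t := by linarith
    exact_mod_cast this
  have ht2 : 2 ≤ t := by
    have : (2 : ℝ) ≤ t := by linarith
    exact_mod_cast this
  have htr : (0 : ℝ) < t := by
    have : 0 < t := by omega
    exact_mod_cast this
  have htr1 : (1 : ℝ) ≤ t := by
    have : 1 ≤ t := by omega
    exact_mod_cast this
  have hkt : k ≤ t := by
    rw [hk, ht]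
    apply Nat.floor_le_floor
    rw [div_le_iff₀ (by positivity)]
    nlinarith
  have hkL : (k : ℝ) ≤ L / (8 * l) := by rw [hk]; exact Nat.floor_le (by positivity)
  have hkL' : L / (8 * l) - 1 ≤ k := by
    have := Nat.lt_floor_add_one (L / (8 * l))
    rw [← hk] at this
    linarith
  have hWL : L / (4 * l) ≤ W := by rw [hWd]; exact Nat.le_ceil _
  have hWL' : (W : ℝ) ≤ L / (4 * l) + 1 := by
    rw [hWd]; exact (Nat.ceil_lt_add_one (by positivity)).le
  have hMr : (M : ℝ) ≤ (t : ℝ) ^ r := by rw [hMd]; exact Nat.floor_le (by positivity)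
  have hMr' : (t : ℝ) ^ r - 1 ≤ M := by
    have := Nat.lt_floor_add_one ((t : ℝ) ^ r)
    rw [← hMd] at this
    linarith
  have htM : t ≤ M := by
    rw [hMd]
    apply Nat.le_floor
    calc (t : ℝ) = (t : ℝ) ^ (1 : ℝ) := (Real.rpow_one _).symm
      _ ≤ (t : ℝ) ^ r := Real.rpow_le_rpow_of_exponent_le htr1 hr1
  have hLr : L ≤ L ^ r := by
    calc L = L ^ (1 : ℝ) := (Real.rpow_one _).symm
      _ ≤ L ^ r := Real.rpow_le_rpow_of_exponent_le (by linarith) hr1
  have hMlow : L ^ r / 8 ≤ M := by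
    have e1 : L ^ r / 4 ≤ (t : ℝ) ^ r := by
      have e2 : (L / 2) ^ r ≤ (t : ℝ) ^ r := Real.rpow_le_rpow (by positivity) (by linarith) (by linarith)
      have e3 : (L / 2) ^ r = L ^ r / 2 ^ r := Real.div_rpow hL0.le (by norm_num) r
      have e4 : (2 : ℝ) ^ r ≤ 4 := by
        calc (2 : ℝ) ^ r ≤ (2 : ℝ) ^ (2 : ℝ) := Real.rpow_le_rpow_of_exponent_le (by norm_num) hr2
          _ = 4 := by norm_num
      have e5 : L ^ r / 4 ≤ L ^ r / 2 ^ r := div_le_div_of_nonneg_left (by positivity) (by positivity) e4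
      linarith
    linarith
  -- the blocks
  obtain ⟨P, hPa, hPb⟩ := blocks ((Finset.Icc 1 (t ^ 3)).filter (fun p => p.Prime ∧ p ≠ 2)) k M (by
    have e1 := hP3 (t ^ 3) (ht0.trans (Nat.le_self_pow (by norm_num) t))
    have e2 : (((t ^ 3 : ℕ)) : ℝ) ^ (1 - ε / 6) = (t : ℝ) * (t : ℝ) ^ r := by
      have e3 : (((t ^ 3 : ℕ)) : ℝ) = (t : ℝ) ^ (3 : ℝ) := by
        push_cast
        rw [← Real.rpow_natCast]; norm_num
      rw [e3, ← Real.rpow_mul htr.le]
      have e4 : (t : ℝ) * (t : ℝ) ^ r = (t : ℝ) ^ (1 : ℝ) * (t : ℝ) ^ r := by rw [Real.rpow_one]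
      rw [e4, ← Real.rpow_add htr]
      congr 1
      rw [hr]; ring
    rw [e2] at e1
    have e5 : ((k * M : ℕ) : ℝ) ≤ (((Finset.Icc 1 (t ^ 3)).filter (fun p => p.Prime ∧ p ≠ 2)).card : ℝ) := by
      refine le_trans ?_ e1
      push_cast
      have e6 : (k : ℝ) ≤ t := by exact_mod_cast hkt
      exact mul_le_mul e6 hMr (Nat.cast_nonneg _) htr.le
    exact_mod_cast e5)
  have hPp : ∀ i < k, ∀ p ∈ P i, p.Prime ∧ p ≠ 2 ∧ p ≤ t ^ 3 := by
    intro i hi p hp
    have h1 := (hPa i hi).1 hp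
    rw [mem_filter, mem_Icc] at h1
    exact ⟨h1.2.1, h1.2.2, h1.1.2⟩
  -- part B
  obtain ⟨SB, hSB⟩ : ∃ SB, SB = (Finset.Icc 1 X).filter (fun n : ℕ => W ≤ n.primeFactors.card) := ⟨_, rfl⟩
  have hB : (SB.card : ℝ) ≤ Real.exp ((3 / 4 + ε) * L) := by
    obtain ⟨z, hz⟩ : ∃ z : ℝ, z = Real.exp ((1 - ε / 6) * l) := ⟨_, rfl⟩
    have hz0 : 0 < z := by rw [hz]; exact Real.exp_pos _
    have h1 := hW X W z hz0.le
    rw [← hSB] at h1
    have h2 : z ^ W ≤ (1 + z) ^ W := pow_le_pow_left₀ hz0.le (by linarith) W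
    have h3 : z ^ W = Real.exp (W * ((1 - ε / 6) * l)) := by rw [hz, ← Real.exp_nat_mul]
    have h4 : (SB.card : ℝ) * Real.exp (W * ((1 - ε / 6) * l)) ≤ Real.exp L * Real.exp (z * (C * l)) := by
      rw [← h3]
      calc (SB.card : ℝ) * z ^ W ≤ (SB.card : ℝ) * (1 + z) ^ W :=
            mul_le_mul_of_nonneg_left h2 (Nat.cast_nonneg _)
        _ ≤ X * Real.exp (z * ∑ p ∈ (Finset.Icc 1 X).filter Nat.Prime, (1 : ℝ) / p) := h1
        _ ≤ Real.exp L * Real.exp (z * (C * l)) := by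
            rw [hXe]
            apply mul_le_mul_of_nonneg_left _ (Real.exp_pos _).le
            exact Real.exp_le_exp.2 (mul_le_mul_of_nonneg_left hP1 hz0.le)
    have h5 : z * (C * l) ≤ ε / 2 * L := by
      calc z * (C * l) ≤ z * (ε / 2 * Real.exp (ε / 6 * l)) := mul_le_mul_of_nonneg_left a6 hz0.le
        _ = ε / 2 * (Real.exp ((1 - ε / 6) * l) * Real.exp (ε / 6 * l)) := by rw [hz]; ring
        _ = ε / 2 * L := by
            rw [← Real.exp_add, hLe]
            congr 2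
            ring
    have h6 : L / 4 ≤ W * l := by
      have h7 : L / (4 * l) * l ≤ W * l := mul_le_mul_of_nonneg_right hWL hl0.le
      have h8 : L / (4 * l) * l = L / 4 := by field_simp
      linarith
    rw [← Real.exp_add] at h4
    have h9 : (SB.card : ℝ) ≤ Real.exp (L + z * (C * l) - W * ((1 - ε / 6) * l)) := by
      rw [Real.exp_sub, le_div_iff₀ (Real.exp_pos _)]
      exact h4
    refine h9.trans (Real.exp_le_exp.2 ?_)
    have h10 : (1 - ε / 6) * (L / 4) ≤ (1 - ε / 6) * (W * l) := mul_le_mul_of_nonneg_left h6 (by linarith)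
    have h11 : W * ((1 - ε / 6) * l) = (1 - ε / 6) * (W * l) := by ring
    rw [h11]
    nlinarith
  -- part C
  obtain ⟨SC, hSC⟩ : ∃ SC, SC = (Finset.Icc 1 X).filter (fun n : ℕ => (∀ i < k, ∀ p ∈ P i, jacobiSym (-(n : ℤ)) p ≠ 1) ∧
    2 * n.primeFactors.card ≤ M) := ⟨_, rfl⟩
  have hCC : (SC.card : ℝ) ≤ 2 * Real.exp ((3 / 4 + ε) * L) := by
    have h1 := hM k M X (t ^ 3) P (by omega)
      (fun i hi => ⟨(hPa i hi).2, hPp i hi⟩) hPb
    rw [← hSC] at h1
    obtain ⟨m, hm⟩ : ∃ m : ℝ, m = ((M : ℕ) : ℝ) := ⟨_, rfl⟩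
    obtain ⟨y, hy⟩ : ∃ y : ℝ, y = ((t ^ 3 : ℕ) : ℝ) := ⟨_, rfl⟩
    rw [← hm, ← hy] at h1
    rw [← hm] at hMlow
    have hLr0 : 0 < L ^ r := by positivity
    have hm0 : 0 < m := by linarith
    have hy0 : 0 ≤ y := by rw [hy]; positivity
    have h2 : (SC.card : ℝ) ≤ X * (4 / m) ^ k + (2 * y) ^ (2 * k) := by
      have e1 : (m ^ k * X + (m * y) ^ (2 * k)) = (X * (4 / m) ^ k + (2 * y) ^ (2 * k)) * (m / 2) ^ (2 * k) := by
        have e2 : (4 / m) ^ k * (m / 2) ^ (2 * k) = m ^ k := by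
          rw [pow_mul, ← mul_pow]
          congr 1
          field_simp; norm_num
        have e3 : (2 * y) ^ (2 * k) * (m / 2) ^ (2 * k) = (m * y) ^ (2 * k) := by
          rw [← mul_pow]
          congr 1
          ring
        rw [add_mul, e3, mul_assoc, e2]; ring
      rw [e1] at h1
      exact le_of_mul_le_mul_right h1 (by positivity)
    have h3 : (4 / m) ^ k ≤ Real.exp (-((1 / 4 - ε) * L)) := by
      have e1 : 4 / m ≤ Real.exp (-((2 - ε) * l)) := by
        have e2 : L ^ r = Real.exp (r * l) := by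
          rw [Real.rpow_def_of_pos hL0, ← hl, mul_comm]
        have e3 : 4 / m ≤ 32 / L ^ r := by
          rw [div_le_div_iff₀ hm0 hLr0]
          linarith
        have e4 : (32 : ℝ) ≤ Real.exp (ε / 2 * l) := by
          have e5 : (32 : ℝ) ≤ Real.exp 4 := by
            have e6 := Real.exp_one_gt_d9
            have e7 : Real.exp 4 = Real.exp 1 ^ 4 := by rw [← Real.exp_nat_mul]; norm_num
            rw [e7]
            calc (32 : ℝ) ≤ (2.7 : ℝ) ^ 4 := by norm_num
              _ ≤ Real.exp 1 ^ 4 := pow_le_pow_left₀ (by norm_num) (by linarith) 4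
          refine e5.trans (Real.exp_le_exp.2 (by linarith))
        calc 4 / m ≤ 32 / L ^ r := e3
          _ ≤ Real.exp (ε / 2 * l) / L ^ r := div_le_div_of_nonneg_right e4 hLr0.le
          _ = Real.exp (-((2 - ε) * l)) := by
              rw [e2, ← Real.exp_sub]
              congr 1
              rw [hr]; ring
      calc (4 / m) ^ k ≤ Real.exp (-((2 - ε) * l)) ^ k := pow_le_pow_left₀ (by positivity) e1 k
        _ = Real.exp (k * (-((2 - ε) * l))) := by rw [← Real.exp_nat_mul]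
        _ ≤ Real.exp (-((1 / 4 - ε) * L)) := by
            apply Real.exp_le_exp.2
            have e3 : (L / (8 * l) - 1) * l ≤ k * l := mul_le_mul_of_nonneg_right hkL' hl0.le
            have e4 : (L / (8 * l) - 1) * l = L / 8 - l := by field_simp
            rw [e4] at e3
            have e5 : (2 - ε) * (L / 8 - l) ≤ (2 - ε) * (k * l) := mul_le_mul_of_nonneg_left e3 (by linarith)
            have e6 : (k : ℝ) * (-((2 - ε) * l)) = -((2 - ε) * (k * l)) := by ring
            rw [e6]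
            have e7 : 0 < ε * l := by positivity
            nlinarith
    have h4 : (2 * y) ^ (2 * k) ≤ Real.exp ((3 / 4 + ε) * L) := by
      have e1 : 2 * y ≤ Real.exp (3 * l + Real.log 2) := by
        rw [Real.exp_add, Real.exp_log (by norm_num)]
        have e2 : Real.exp (3 * l) = L ^ 3 := by
          rw [hLe, ← Real.exp_nat_mul]; norm_num
        rw [e2, hy]
        push_cast
        have e4 : (t : ℝ) ^ 3 ≤ L ^ 3 := pow_le_pow_left₀ htr.le htL 3
        linarith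
      calc (2 * y) ^ (2 * k) ≤ Real.exp (3 * l + Real.log 2) ^ (2 * k) := pow_le_pow_left₀ (by positivity) e1 _
        _ = Real.exp (((2 * k : ℕ) : ℝ) * (3 * l + Real.log 2)) := by rw [← Real.exp_nat_mul]
        _ ≤ Real.exp ((3 / 4 + ε) * L) := by
            apply Real.exp_le_exp.2
            push_cast
            have e3 : (k : ℝ) * l ≤ L / 8 := by
              have : (k : ℝ) * l ≤ L / (8 * l) * l := mul_le_mul_of_nonneg_right hkL hl0.le
              have e4 : L / (8 * l) * l = L / 8 := by field_simp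
              linarith
            have e5 : (k : ℝ) ≤ ε * L / 8 := by
              refine hkL.trans ?_
              rw [div_le_iff₀ (by positivity)]
              have : 8 * L ≤ ε * l * L := mul_le_mul_of_nonneg_right hεl hL0.le
              nlinarith
            have e6 := Real.log_two_lt_d9
            have h0 : 0 ≤ Real.log 2 := Real.log_nonneg (by norm_num)
            have e7 : (k : ℝ) * Real.log 2 ≤ ε * L / 8 * 1 := by
              have : Real.log 2 ≤ 1 := by linarith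
              exact mul_le_mul e5 this h0 (by positivity)
            nlinarith
    have h5 : (X : ℝ) * (4 / m) ^ k ≤ Real.exp ((3 / 4 + ε) * L) := by
      calc (X : ℝ) * (4 / m) ^ k ≤ Real.exp L * Real.exp (-((1 / 4 - ε) * L)) := by
            rw [hXe]; exact mul_le_mul_of_nonneg_left h3 (Real.exp_pos _).le
        _ = Real.exp ((3 / 4 + ε) * L) := by rw [← Real.exp_add]; congr 1; ring
    linarith
  -- part A
  obtain ⟨Y, hY⟩ : ∃ Y : ℕ, Y = Nat.floor (Real.exp ((3 / 4 + ε) * L)) := ⟨_, rfl⟩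
  have hYe : (Y : ℝ) ≤ Real.exp ((3 / 4 + ε) * L) := by rw [hY]; exact Nat.floor_le (Real.exp_pos _).le
  have hsub : (Finset.Icc 1 X).filter (fun D : ℕ => Squarefree D ∧
      onoInvariant (fundDisc (-(D : ℤ))) = (fundDisc (-(D : ℤ))).natAbs.primeFactors.card) ⊆
      (Icc 1 Y ∪ SB) ∪ SC := by
    intro D hD
    rw [mem_filter] at hD
    obtain ⟨hD1, -, hF⟩ := hD
    have hD2 := mem_Icc.mp hD1
    rw [mem_union, mem_union]
    by_cases hA : D ≤ Y
    · exact Or.inl (Or.inl (mem_Icc.mpr ⟨hD2.1, hA⟩))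
    by_cases hBB : W ≤ D.primeFactors.card
    · exact Or.inl (Or.inr (by rw [hSB]; exact mem_filter.mpr ⟨hD1, hBB⟩))
    right
    rw [hSC, mem_filter]
    have hDbig : Real.exp ((3 / 4 + ε) * L) < D := by
      have h1 : Nat.floor (Real.exp ((3 / 4 + ε) * L)) < D := by rw [← hY]; omega
      exact (Nat.floor_lt (Real.exp_pos _).le).mp h1
    refine ⟨hD1, ?_, ?_⟩
    · intro i hi p hp
      obtain ⟨hp1, hp2, hp3⟩ := hPp i hi p hp
      apply nosplit hO D p (W + 1) hD2.1 hp1 hp2 hF (by omega)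
      have h2 : (4 : ℝ) * (p : ℝ) ^ (W + 1) ≤ D := by
        refine le_trans ?_ hDbig.le
        have hpr : (p : ℝ) ≤ Real.exp (3 * l) := by
          have e2 : Real.exp (3 * l) = L ^ 3 := by
            rw [hLe, ← Real.exp_nat_mul]; norm_num
          rw [e2]
          have e3 : (p : ℝ) ≤ ((t ^ 3 : ℕ) : ℝ) := by exact_mod_cast hp3
          push_cast at e3
          have e4 : (t : ℝ) ^ 3 ≤ L ^ 3 := pow_le_pow_left₀ (by positivity) htL 3
          linarith
        calc (4 : ℝ) * (p : ℝ) ^ (W + 1) ≤ 4 * Real.exp (3 * l) ^ (W + 1) := by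
              apply mul_le_mul_of_nonneg_left _ (by norm_num)
              exact pow_le_pow_left₀ (Nat.cast_nonneg _) hpr _
          _ = Real.exp (Real.log 4) * Real.exp (((W + 1 : ℕ) : ℝ) * (3 * l)) := by
              rw [Real.exp_log (by norm_num), ← Real.exp_nat_mul]
          _ = Real.exp (Real.log 4 + ((W + 1 : ℕ) : ℝ) * (3 * l)) := by rw [Real.exp_add]
          _ ≤ Real.exp ((3 / 4 + ε) * L) := by
              apply Real.exp_le_exp.2
              push_cast
              have e5 : (W : ℝ) * l ≤ (L / (4 * l) + 1) * l := mul_le_mul_of_nonneg_right hWL' hl0.le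
              have e6 : (L / (4 * l) + 1) * l = L / 4 + l := by field_simp
              rw [e6] at e5
              nlinarith
      exact_mod_cast h2
    · have h3 : D.primeFactors.card ≤ W := by omega
      have h4 : (D.primeFactors.card : ℝ) ≤ W := by exact_mod_cast h3
      have h5 : (W : ℝ) ≤ L / 16 + 1 := by
        refine hWL'.trans ?_
        have e7 : L / (4 * l) ≤ L / 16 := by
          apply div_le_div_of_nonneg_left hL0.le (by norm_num)
          linarith
        linarith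
      have h6 : (2 * D.primeFactors.card : ℝ) ≤ t := by linarith
      have h7 : 2 * D.primeFactors.card ≤ t := by exact_mod_cast h6
      exact h7.trans htM
  have hcard := (card_le_card hsub).trans ((card_union_le _ _).trans (Nat.add_le_add_right (card_union_le _ _) _))
  rw [Nat.card_Icc, Nat.add_sub_cancel] at hcard
  have hcard' : (((Finset.Icc 1 X).filter (fun D : ℕ => Squarefree D ∧
      onoInvariant (fundDisc (-(D : ℤ))) = (fundDisc (-(D : ℤ))).natAbs.primeFactors.card)).card : ℝ) ≤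
      Y + SB.card + SC.card := by exact_mod_cast hcard
  linarith

theorem asm289 : Asm2 := by
  classical
  intro hO hM hW hP1 hP3 ε' hε'
  obtain ⟨ε, hε⟩ : ∃ ε : ℝ, ε = min ε' (1 / 4) := ⟨_, rfl⟩
  have hε0 : 0 < ε := by rw [hε]; exact lt_min hε' (by norm_num)
  have hε1 : ε ≤ 1 / 4 := by rw [hε]; exact min_le_right _ _
  have hεε : ε ≤ ε' := by rw [hε]; exact min_le_left _ _
  obtain ⟨C, hC, hP1⟩ := hP1
  obtain ⟨t₀, hP3⟩ := hP3 (ε / 6) (by positivity)
  obtain ⟨L₀, hL₀⟩ := large ε C hε0 hC t₀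
  obtain ⟨X₀, hX₀⟩ : ∃ X₀ : ℕ, 16 ≤ X₀ ∧ ∀ X : ℕ, X₀ ≤ X → L₀ ≤ Real.log X := by
    have h1 : Filter.Tendsto (fun X : ℕ => Real.log (X : ℝ)) Filter.atTop Filter.atTop :=
      Real.tendsto_log_atTop.comp tendsto_natCast_atTop_atTop
    obtain ⟨X₁, hX₁⟩ := Filter.eventually_atTop.1 (h1.eventually_ge_atTop L₀)
    exact ⟨max X₁ 16, le_max_right _ _, fun X hX => hX₁ X ((le_max_left _ _).trans hX)⟩
  refine ⟨max 4 X₀, fun X hX => ?_⟩
  have hXr : (1 : ℝ) ≤ X := by exact_mod_cast hX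
  have hXp : 1 ≤ (X : ℝ) ^ ((3 : ℝ) / 4 + ε') := Real.one_le_rpow hXr (by linarith)
  have h4 : (0 : ℝ) ≤ max 4 (X₀ : ℝ) := le_trans (by norm_num) (le_max_left _ _)
  rcases Nat.lt_or_ge X X₀ with h | h
  · have h1 : (((Finset.Icc 1 X).filter (fun D : ℕ => Squarefree D ∧
      onoInvariant (fundDisc (-(D : ℤ))) = (fundDisc (-(D : ℤ))).natAbs.primeFactors.card)).card : ℝ) ≤ X := by
      have h5 := card_filter_le (Icc 1 X) (fun D : ℕ => Squarefree D ∧
        onoInvariant (fundDisc (-(D : ℤ))) = (fundDisc (-(D : ℤ))).natAbs.primeFactors.card)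
      rw [Nat.card_Icc, Nat.add_sub_cancel] at h5
      exact_mod_cast h5
    have h2 : (X : ℝ) ≤ X₀ := by exact_mod_cast h.le
    have h3 : (X₀ : ℝ) ≤ max 4 (X₀ : ℝ) := le_max_right _ _
    calc _ ≤ (X : ℝ) := h1
      _ ≤ max 4 (X₀ : ℝ) * 1 := by linarith
      _ ≤ max 4 (X₀ : ℝ) * (X : ℝ) ^ ((3 : ℝ) / 4 + ε') := mul_le_mul_of_nonneg_left hXp h4
  · obtain ⟨a1, a2, a2', a3, a4, a6⟩ := hL₀ (Real.log X) (hX₀.2 X h)
    have h1 := big hO hM hW hε0 hε1 hC (hP1 X (hX₀.1.trans h)) hP3 hX a1 a2 a2' a3 a4 a6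
    have h2 : (X : ℝ) ^ ((3 : ℝ) / 4 + ε) = Real.exp ((3 / 4 + ε) * Real.log X) := by
      rw [Real.rpow_def_of_pos (by linarith), mul_comm]
    rw [← h2] at h1
    have h3 : (X : ℝ) ^ ((3 : ℝ) / 4 + ε) ≤ (X : ℝ) ^ ((3 : ℝ) / 4 + ε') :=
      Real.rpow_le_rpow_of_exponent_le hXr (by linarith)
    refine h1.trans ?_
    exact mul_le_mul (le_max_left _ _) h3 (by positivity) h4

end Pool.Agent.OS.Asm289
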