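import Pool.Agent.OS.Stmts

/-! # Row ASM: assembly -/

namespace Pool.Agent.OS.A73

open Finset Pool.Agent.OS

theorem params (C : ℝ) (hC : 0 < C) (t₀ : ℕ) : ∃ X₀ : ℕ, ∀ X : ℕ, X₀ ≤ X →
    16 ≤ X ∧ (t₀ : ℝ) ≤ Real.log X ∧ 1200 ≤ Real.log (Real.log X) ∧
    Real.exp (Real.log (Real.log X)) = Real.log X ∧
    Real.log (Real.log X) ^ 2 / 2 ≤ Real.log X ∧
    Real.exp (0.9 * Real.log (Real.log X)) * (C * Real.log (Real.log X)) ≤ 0.0125 * Real.log X := by
  set l₀ : ℝ := 1200 + t₀ + 32000 * C with hl₀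
  refine ⟨⌈Real.exp (Real.exp l₀)⌉₊, fun X hX => ?_⟩
  have hX1 : Real.exp (Real.exp l₀) ≤ X := (Nat.le_ceil _).trans (by exact_mod_cast hX)
  have hX0 : (0 : ℝ) < X := (Real.exp_pos _).trans_le hX1
  have hL : Real.exp l₀ ≤ Real.log X := by
    rw [← Real.log_exp (Real.exp l₀)]
    exact Real.log_le_log (Real.exp_pos _) hX1
  have hLpos : 0 < Real.log X := (Real.exp_pos _).trans_le hL
  have hl : l₀ ≤ Real.log (Real.log X) := by
    rw [← Real.log_exp l₀]
    exact Real.log_le_log (Real.exp_pos _) hL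
  have hexp : Real.exp (Real.log (Real.log X)) = Real.log X := Real.exp_log hLpos
  set l := Real.log (Real.log X) with hldef
  have ht0 : (0 : ℝ) ≤ t₀ := Nat.cast_nonneg _
  have hl1200 : 1200 ≤ l := by
    have : 0 ≤ 32000 * C := by positivity
    linarith
  have hlC : 32000 * C ≤ l := by linarith
  have hlt : (t₀ : ℝ) ≤ l := by
    have : 0 ≤ 32000 * C := by positivity
    linarith
  have hq := Real.quadratic_le_exp_of_nonneg (show (0 : ℝ) ≤ l by linarith)
  rw [hexp] at hq
  have hLl : l ≤ Real.log X := by nlinarith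
  have hLX : Real.log X ≤ X := by
    have := Real.add_one_le_exp (Real.log X)
    rw [Real.exp_log hX0] at this
    linarith
  refine ⟨?_, hlt.trans hLl, hl1200, hexp, by nlinarith, ?_⟩
  · have : (16 : ℝ) ≤ X := by linarith
    exact_mod_cast this
  · have h1 : Real.exp (0.1 * l) * Real.exp (0.9 * l) = Real.log X := by
      rw [← Real.exp_add, ← hexp]; congr 1; ring
    have h2 := Real.quadratic_le_exp_of_nonneg (show (0 : ℝ) ≤ 0.1 * l by linarith)
    have h3 : C * l ≤ 0.0125 * Real.exp (0.1 * l) := by nlinarith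
    have h4 : 0 < Real.exp (0.9 * l) := Real.exp_pos _
    calc Real.exp (0.9 * l) * (C * l) ≤ Real.exp (0.9 * l) * (0.0125 * Real.exp (0.1 * l)) :=
          mul_le_mul_of_nonneg_left h3 h4.le
      _ = 0.0125 * (Real.exp (0.1 * l) * Real.exp (0.9 * l)) := by ring
      _ = 0.0125 * Real.log X := by rw [h1]

theorem blocks (m : ℕ) : ∀ (k : ℕ) (Q : Finset ℕ), k * m ≤ Q.card → ∃ P : ℕ → Finset ℕ,
    (∀ i < k, P i ⊆ Q ∧ (P i).card = m) ∧ ∀ i < k, ∀ j < k, i ≠ j → Disjoint (P i) (P j) := by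
  intro k
  induction k with
  | zero => intro Q _; exact ⟨fun _ => ∅, by simp, by simp⟩
  | succ k ih =>
    intro Q hQ
    have hm : m ≤ Q.card := by nlinarith
    obtain ⟨A, hA, hAm⟩ := exists_subset_card_eq hm
    have hc : k * m ≤ (Q \ A).card := by
      have := card_sdiff_add_card_eq_card hA
      have h2 : (k + 1) * m = k * m + m := by ring
      omega
    obtain ⟨P, hP1, hP2⟩ := ih (Q \ A) hc
    refine ⟨fun i => if i = k then A else P i, ?_, ?_⟩
    · intro i hi
      by_cases h : i = k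
      · simp only [h, if_true]; exact ⟨hA, hAm⟩
      · simp only [h, if_false]
        have := hP1 i (by omega)
        exact ⟨this.1.trans sdiff_subset, this.2⟩
    · intro i hi j hj hij
      by_cases h : i = k
      · have hj' : j ≠ k := fun h' => hij (h.trans h'.symm)
        simp only [h, if_true, hj', if_false]
        exact (disjoint_of_subset_left (hP1 j (by omega)).1 sdiff_disjoint).symm
      · by_cases h' : j = k
        · simp only [h, if_false, h', if_true]
          exact disjoint_of_subset_left (hP1 i (by omega)).1 sdiff_disjoint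
        · simp only [h, h', if_false]
          exact hP2 i (by omega) j (by omega) hij

theorem disc_bounds (D : ℕ) (hD : 1 ≤ D) : D ≤ (fundDisc (-(D : ℤ))).natAbs ∧
    (fundDisc (-(D : ℤ))).natAbs.primeFactors.card ≤ D.primeFactors.card + 1 := by
  unfold fundDisc
  split_ifs with h
  · rw [Int.natAbs_neg, Int.natAbs_natCast]
    exact ⟨le_rfl, Nat.le_succ _⟩
  · have e : (4 * (-(D : ℤ))).natAbs = 4 * D := by
      rw [Int.natAbs_mul, Int.natAbs_neg, Int.natAbs_natCast]; rfl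
    rw [e]
    refine ⟨by omega, ?_⟩
    have h4 : Nat.primeFactors (4 * D) ⊆ insert 2 D.primeFactors := by
      intro p hp
      rw [Nat.mem_primeFactors] at hp
      obtain ⟨hp1, hp2, -⟩ := hp
      rw [mem_insert, Nat.mem_primeFactors]
      rcases (Nat.Prime.dvd_mul hp1).1 hp2 with h | h
      · left
        have : p ∣ 2 ^ 2 := by norm_num; exact h
        exact (Nat.prime_dvd_prime_iff_eq hp1 Nat.prime_two).1 (hp1.dvd_of_dvd_pow this)
      · right; exact ⟨hp1, h, by omega⟩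
    exact (card_le_card h4).trans (card_insert_le _ _)

theorem split_of_jacobi (D q : ℕ) (hq : q.Prime) (h : jacobiSym (-(D : ℤ)) q = 1) :
    ¬ q ∣ D ∧ ∃ y : ℤ, (q : ℤ) ∣ y ^ 2 + D := by
  have : Fact q.Prime := ⟨hq⟩
  rw [← jacobiSym.legendreSym.to_jacobiSym] at h
  have hne : ((-(D : ℤ) : ℤ) : ZMod q) ≠ 0 := by
    intro h0
    rw [(legendreSym.eq_zero_iff q (-(D : ℤ))).2 h0] at h
    norm_num at h
  constructor
  · intro hd
    apply hne
    push_cast
    rw [(ZMod.natCast_eq_zero_iff D q).2 hd, neg_zero]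
  · obtain ⟨r, hr⟩ := (legendreSym.eq_one_iff q hne).1 h
    refine ⟨(r.val : ℤ), ?_⟩
    rw [← ZMod.intCast_zmod_eq_zero_iff_dvd]
    push_cast
    rw [ZMod.natCast_zmod_val, sq, ← hr]
    push_cast
    ring

theorem asm73 : Asm := by
  classical
  intro hOno hMom hOm hP1 hP2
  obtain ⟨C, hC, hS⟩ := hP1
  obtain ⟨t₀, ht₀⟩ := hP2
  obtain ⟨X₀, hX₀⟩ := params C hC t₀
  refine ⟨4 + X₀, fun X hX1 => ?_⟩
  have hXpos : (0 : ℝ) < X := by exact_mod_cast hX1
  have hX1' : (1 : ℝ) ≤ X := by exact_mod_cast hX1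
  have hpow1 : (1 : ℝ) ≤ (X : ℝ) ^ ((9 : ℝ) / 10) := Real.one_le_rpow hX1' (by norm_num)
  rcases Nat.lt_or_ge X X₀ with hlt | hge
  · have h1 : (((Finset.Icc 1 X).filter (fun D : ℕ => Squarefree D ∧
        onoInvariant (fundDisc (-(D : ℤ))) = (fundDisc (-(D : ℤ))).natAbs.primeFactors.card)).card : ℝ)
        ≤ X := by
      have := card_filter_le (Finset.Icc 1 X) (fun D : ℕ => Squarefree D ∧
        onoInvariant (fundDisc (-(D : ℤ))) = (fundDisc (-(D : ℤ))).natAbs.primeFactors.card)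
      rw [Nat.card_Icc, Nat.add_sub_cancel] at this
      exact_mod_cast this
    have h2 : (X : ℝ) ≤ X₀ := by exact_mod_cast hlt.le
    have h3 : (0 : ℝ) ≤ X₀ := Nat.cast_nonneg _
    nlinarith
  obtain ⟨h16, htt, h1200, hexp, hq, hz⟩ := hX₀ X hge
  have hS' := hS X h16
  set L := Real.log X with hL
  set l := Real.log L with hl
  have hlpos : 0 < l := by linarith
  have hLbig : 720000 ≤ L := by nlinarith
  have hLpos : 0 < L := by linarith
  have hXexp : (X : ℝ) = Real.exp L := (Real.exp_log hXpos).symm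
  have hX9 : (X : ℝ) ^ ((9 : ℝ) / 10) = Real.exp (0.9 * L) := by
    rw [Real.rpow_def_of_pos hXpos]; congr 1; rw [← hL]; ring
  set t := ⌊L⌋₊ with ht
  have ht1 : (t : ℝ) ≤ L := Nat.floor_le hLpos.le
  have ht2 : L < t + 1 := Nat.lt_floor_add_one L
  have ht3 : L / 2 ≤ t := by linarith
  set k := ⌊L / (16 * l)⌋₊ with hk
  have hk1 : (k : ℝ) ≤ L / (16 * l) := Nat.floor_le (by positivity)
  have hk2 : L / (16 * l) < k + 1 := Nat.lt_floor_add_one _
  set W := ⌈L / (8 * l)⌉₊ with hW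
  have hW1 : L / (8 * l) ≤ W := Nat.le_ceil _
  have hW2 : (W : ℝ) < L / (8 * l) + 1 := Nat.ceil_lt_add_one (by positivity)
  have hkl : (k : ℝ) * l ≤ L / 16 := by
    calc (k : ℝ) * l ≤ L / (16 * l) * l := mul_le_mul_of_nonneg_right hk1 hlpos.le
      _ = L / 16 := by field_simp
  have hkl2 : L / 16 - l ≤ (k : ℝ) * l := by
    have : L / (16 * l) * l ≤ (k + 1) * l := mul_le_mul_of_nonneg_right hk2.le hlpos.le
    have e : L / (16 * l) * l = L / 16 := by field_simp
    rw [e] at this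
    linarith
  have hWl : L / 8 ≤ (W : ℝ) * l := by
    have : L / (8 * l) * l ≤ W * l := mul_le_mul_of_nonneg_right hW1 hlpos.le
    have e : L / (8 * l) * l = L / 8 := by field_simp
    rwa [e] at this
  have hWl2 : (W : ℝ) * l ≤ L / 8 + l := by
    have : (W : ℝ) * l ≤ (L / (8 * l) + 1) * l := mul_le_mul_of_nonneg_right hW2.le hlpos.le
    have e : (L / (8 * l) + 1) * l = L / 8 + l := by field_simp
    rwa [e] at this
  have htpos : (0 : ℝ) < t := by linarith
  have ht4 : t₀ ≤ t := Nat.le_floor htt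
  have hkt : k ≤ t := by
    apply Nat.floor_le_floor
    rw [div_le_iff₀ (by positivity)]
    nlinarith
  have hlogt : Real.log t ≤ l := Real.log_le_log htpos ht1
  -- the primes
  obtain ⟨P, hP1, hP2⟩ := blocks (t ^ 5) k ((Finset.Icc 1 (t ^ 7)).filter (fun p => p.Prime ∧ p ≠ 2))
    ((Nat.mul_le_mul_right _ hkt).trans (by
      have := ht₀ t ht4
      calc t * t ^ 5 = t ^ 6 := by ring
        _ ≤ _ := this))
  have hPp : ∀ i < k, ∀ p ∈ P i, p.Prime ∧ p ≠ 2 ∧ p ≤ t ^ 7 := by
    intro i hi p hp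
    have := mem_filter.1 ((hP1 i hi).1 hp)
    exact ⟨this.2.1, this.2.2, (mem_Icc.1 this.1).2⟩
  have ht1' : 1 ≤ t := by exact_mod_cast (by linarith : (1 : ℝ) ≤ t)
  -- three sets
  set A1 := (Finset.Icc 1 X).filter (fun D : ℕ => (D : ℝ) ≤ Real.exp (0.9 * L)) with hA1
  set A2 := (Finset.Icc 1 X).filter (fun n : ℕ => W ≤ n.primeFactors.card) with hA2
  set A3 := (Finset.Icc 1 X).filter (fun n : ℕ => (∀ i < k, ∀ p ∈ P i, jacobiSym (-(n : ℤ)) p ≠ 1) ∧
    2 * n.primeFactors.card ≤ t ^ 5) with hA3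
  have hsub : (Finset.Icc 1 X).filter (fun D : ℕ => Squarefree D ∧
      onoInvariant (fundDisc (-(D : ℤ))) = (fundDisc (-(D : ℤ))).natAbs.primeFactors.card)
      ⊆ A1 ∪ A2 ∪ A3 := by
    intro D hD
    obtain ⟨hDI, hsq, hF⟩ := mem_filter.1 hD
    by_cases c1 : (D : ℝ) ≤ Real.exp (0.9 * L)
    · exact mem_union_left _ (mem_union_left _ (mem_filter.2 ⟨hDI, c1⟩))
    by_cases c2 : W ≤ D.primeFactors.card
    · exact mem_union_left _ (mem_union_right _ (mem_filter.2 ⟨hDI, c2⟩))
    refine mem_union_right _ (mem_filter.2 ⟨hDI, ?_, ?_⟩)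
    · intro i hi p hp hj
      obtain ⟨hpp, hp2, hpy⟩ := hPp i hi p hp
      obtain ⟨hnd, hy⟩ := split_of_jacobi D p hpp hj
      have hD1 : 1 ≤ D := (mem_Icc.1 hDI).1
      obtain ⟨hd1, hd2⟩ := disc_bounds D hD1
      have hbig : 4 * p ^ (D.primeFactors.card + 2) ≤ (fundDisc (-(D : ℤ))).natAbs := by
        refine le_trans ?_ hd1
        have e1 : p ^ (D.primeFactors.card + 2) ≤ (t ^ 7) ^ (W + 1) := by
          calc p ^ (D.primeFactors.card + 2) ≤ (t ^ 7) ^ (D.primeFactors.card + 2) :=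
                Nat.pow_le_pow_left hpy _
            _ ≤ (t ^ 7) ^ (W + 1) :=
                Nat.pow_le_pow_right (Nat.pos_of_ne_zero (by positivity)) (by omega)
        have e2 : (4 : ℝ) * ((t : ℝ) ^ 7) ^ (W + 1) ≤ Real.exp (0.9 * L) := by
          have e3 : (t : ℝ) ≤ Real.exp l := by rw [hexp]; exact ht1
          have e4 : ((t : ℝ) ^ 7) ^ (W + 1) ≤ Real.exp (7 * (W + 1) * l) := by
            rw [← pow_mul]
            calc (t : ℝ) ^ (7 * (W + 1)) ≤ (Real.exp l) ^ (7 * (W + 1)) :=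
                  pow_le_pow_left₀ htpos.le e3 _
              _ = Real.exp (7 * (W + 1) * l) := by
                  rw [← Real.exp_nat_mul]; congr 1; push_cast; ring
          have e5 : (4 : ℝ) ≤ Real.exp l := by
            have := Real.add_one_le_exp l
            linarith
          calc (4 : ℝ) * ((t : ℝ) ^ 7) ^ (W + 1) ≤ Real.exp l * Real.exp (7 * (W + 1) * l) :=
                mul_le_mul e5 e4 (by positivity) (Real.exp_pos _).le
            _ = Real.exp (l + 7 * (W + 1) * l) := (Real.exp_add _ _).symm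
            _ ≤ Real.exp (0.9 * L) := by
                apply Real.exp_le_exp.2
                nlinarith
        have e6 : (4 : ℝ) * (p : ℝ) ^ (D.primeFactors.card + 2) ≤ D := by
          have : ((p ^ (D.primeFactors.card + 2) : ℕ) : ℝ) ≤ (((t ^ 7) ^ (W + 1) : ℕ) : ℝ) := by
            exact_mod_cast e1
          push_cast at this
          linarith
        exact_mod_cast e6
      have := hOno D p (D.primeFactors.card + 2) hD1 hpp hp2 hnd hy hbig
      rw [hF] at this
      omega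
    · have h5 : 2 * D.primeFactors.card ≤ 2 * W := by omega
      refine h5.trans ?_
      have h6 : (2 : ℝ) * W ≤ (t : ℝ) ^ 5 := by
        have h7 : (W : ℝ) ≤ t := by
          have : (W : ℝ) * l ≤ t * l := by nlinarith
          exact le_of_mul_le_mul_right this hlpos
        have h8 : (t : ℝ) * 2 ≤ t * t ^ 4 := by
          apply mul_le_mul_of_nonneg_left _ htpos.le
          have h9 : (2 : ℝ) ≤ t := by linarith
          calc (2 : ℝ) ≤ 2 ^ 4 := by norm_num
            _ ≤ (t : ℝ) ^ 4 := pow_le_pow_left₀ (by norm_num) h9 4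
        calc (2 : ℝ) * W ≤ t * 2 := by linarith
          _ ≤ t * t ^ 4 := h8
          _ = (t : ℝ) ^ 5 := by ring
      exact_mod_cast h6
  -- bound 1
  have hb1 : (A1.card : ℝ) ≤ Real.exp (0.9 * L) := by
    have h1 : A1 ⊆ Finset.Icc 1 ⌊Real.exp (0.9 * L)⌋₊ := by
      intro D hD
      obtain ⟨hDI, hDe⟩ := mem_filter.1 hD
      exact mem_Icc.2 ⟨(mem_Icc.1 hDI).1, Nat.le_floor hDe⟩
    have h2 := card_le_card h1
    rw [Nat.card_Icc, Nat.add_sub_cancel] at h2
    calc (A1.card : ℝ) ≤ (⌊Real.exp (0.9 * L)⌋₊ : ℝ) := by exact_mod_cast h2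
      _ ≤ _ := Nat.floor_le (Real.exp_pos _).le
  -- bound 2
  have hb2 : (A2.card : ℝ) ≤ Real.exp (0.9 * L) := by
    have h1 := hOm X W (Real.exp (0.9 * l)) (Real.exp_pos _).le
    have h2 : (X : ℝ) * Real.exp (Real.exp (0.9 * l) *
        ∑ p ∈ (Finset.Icc 1 X).filter Nat.Prime, (1 : ℝ) / p) ≤ Real.exp (1.0125 * L) := by
      rw [hXexp, ← Real.exp_add]
      apply Real.exp_le_exp.2
      have : Real.exp (0.9 * l) * ∑ p ∈ (Finset.Icc 1 X).filter Nat.Prime, (1 : ℝ) / p
          ≤ Real.exp (0.9 * l) * (C * l) := mul_le_mul_of_nonneg_left hS' (Real.exp_pos _).le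
      linarith
    have h3 : Real.exp (0.1125 * L) ≤ (1 + Real.exp (0.9 * l)) ^ W := by
      calc Real.exp (0.1125 * L) ≤ Real.exp (W * (0.9 * l)) := by
            apply Real.exp_le_exp.2; nlinarith
        _ = (Real.exp (0.9 * l)) ^ W := Real.exp_nat_mul _ _
        _ ≤ _ := pow_le_pow_left₀ (Real.exp_pos _).le (by linarith [Real.exp_pos (0.9 * l)]) _
    have h4 : (A2.card : ℝ) * Real.exp (0.1125 * L) ≤ Real.exp (0.9 * L) * Real.exp (0.1125 * L) := by
      calc (A2.card : ℝ) * Real.exp (0.1125 * L) ≤ A2.card * (1 + Real.exp (0.9 * l)) ^ W :=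
            mul_le_mul_of_nonneg_left h3 (Nat.cast_nonneg _)
        _ ≤ _ := h1
        _ ≤ Real.exp (1.0125 * L) := h2
        _ = _ := by rw [← Real.exp_add]; congr 1; ring
    exact le_of_mul_le_mul_right h4 (Real.exp_pos _)
  -- bound 3
  have hb3 : (A3.card : ℝ) ≤ 2 * Real.exp (0.9 * L) := by
    have h1 := hMom k (t ^ 5) X (t ^ 7) P (Nat.one_le_pow _ _ ht1')
      (fun i hi => ⟨(hP1 i hi).2, hPp i hi⟩) hP2
    have hmpos : (0 : ℝ) < ((t ^ 5 : ℕ) : ℝ) := by push_cast; positivity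
    set mm : ℝ := ((t ^ 5 : ℕ) : ℝ) with hmm
    have hB : 0 < (mm / 2) ^ (2 * k) := by positivity
    have h2 : mm ^ k * X ≤ Real.exp (0.9 * L) * (mm / 2) ^ (2 * k) := by
      have e1 : (mm / 2) ^ (2 * k) = mm ^ k * (mm / 4) ^ k := by
        rw [pow_mul, ← mul_pow]; congr 1; ring
      rw [e1, hXexp]
      have e2 : Real.exp (4 * l) ≤ mm / 4 := by
        have e3 : Real.exp (4 * l) = L ^ 4 := by
          rw [← hexp, ← Real.exp_nat_mul]; congr 1
        rw [e3, hmm]
        push_cast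
        have e4 : (L / 2) ^ 5 ≤ (t : ℝ) ^ 5 := pow_le_pow_left₀ (by positivity) ht3 5
        have e5 : L ^ 4 * 128 ≤ L ^ 4 * L := mul_le_mul_of_nonneg_left (by linarith) (by positivity)
        have e6 : (L / 2) ^ 5 = L ^ 4 * L / 32 := by ring
        rw [e6] at e4
        linarith
      have e7 : Real.exp (0.1 * L) ≤ (mm / 4) ^ k := by
        calc Real.exp (0.1 * L) ≤ Real.exp (k * (4 * l)) := by
              apply Real.exp_le_exp.2; nlinarith
          _ = (Real.exp (4 * l)) ^ k := Real.exp_nat_mul _ _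
          _ ≤ _ := pow_le_pow_left₀ (Real.exp_pos _).le e2 _
      calc mm ^ k * Real.exp L = mm ^ k * (Real.exp (0.9 * L) * Real.exp (0.1 * L)) := by
            rw [← Real.exp_add]; congr 2; ring
        _ ≤ mm ^ k * (Real.exp (0.9 * L) * (mm / 4) ^ k) := by
            apply mul_le_mul_of_nonneg_left _ (by positivity)
            exact mul_le_mul_of_nonneg_left e7 (Real.exp_pos _).le
        _ = Real.exp (0.9 * L) * (mm ^ k * (mm / 4) ^ k) := by ring
    have h3 : (mm * ((t ^ 7 : ℕ) : ℝ)) ^ (2 * k) ≤ Real.exp (0.9 * L) * (mm / 2) ^ (2 * k) := by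
      have e1 : (mm * ((t ^ 7 : ℕ) : ℝ)) ^ (2 * k)
          = (2 * (t : ℝ) ^ 7) ^ (2 * k) * (mm / 2) ^ (2 * k) := by
        rw [← mul_pow]; congr 1; push_cast; ring
      rw [e1]
      apply mul_le_mul_of_nonneg_right _ hB.le
      have e2 : 2 * (t : ℝ) ^ 7 ≤ Real.exp (7.1 * l) := by
        have e3 : (t : ℝ) ^ 7 ≤ Real.exp (7 * l) := by
          calc (t : ℝ) ^ 7 ≤ (Real.exp l) ^ 7 := pow_le_pow_left₀ htpos.le (by rw [hexp]; exact ht1) 7
            _ = Real.exp (7 * l) := by rw [← Real.exp_nat_mul]; congr 1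
        have e4 : (2 : ℝ) ≤ Real.exp (0.1 * l) := by
          have := Real.add_one_le_exp (0.1 * l)
          linarith
        calc 2 * (t : ℝ) ^ 7 ≤ Real.exp (0.1 * l) * Real.exp (7 * l) :=
              mul_le_mul e4 e3 (by positivity) (Real.exp_pos _).le
          _ = Real.exp (7.1 * l) := by rw [← Real.exp_add]; congr 1; ring
      calc (2 * (t : ℝ) ^ 7) ^ (2 * k) ≤ (Real.exp (7.1 * l)) ^ (2 * k) :=
            pow_le_pow_left₀ (by positivity) e2 _
        _ = Real.exp ((2 * k : ℕ) * (7.1 * l)) := (Real.exp_nat_mul _ _).symm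
        _ ≤ Real.exp (0.9 * L) := by
            apply Real.exp_le_exp.2; push_cast; nlinarith
    have h4 : (A3.card : ℝ) * (mm / 2) ^ (2 * k) ≤ 2 * Real.exp (0.9 * L) * (mm / 2) ^ (2 * k) := by
      linarith [h1]
    exact le_of_mul_le_mul_right h4 hB
  have hcard : (((Finset.Icc 1 X).filter (fun D : ℕ => Squarefree D ∧
      onoInvariant (fundDisc (-(D : ℤ))) = (fundDisc (-(D : ℤ))).natAbs.primeFactors.card)).card : ℝ)
      ≤ A1.card + A2.card + A3.card := by
    have h1 := card_le_card hsub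
    have h2 := card_union_le (A1 ∪ A2) A3
    have h3 := card_union_le A1 A2
    exact_mod_cast (by omega : _ ≤ A1.card + A2.card + A3.card)
  rw [hX9] at hpow1 ⊢
  have h0 : (0 : ℝ) ≤ X₀ := Nat.cast_nonneg _
  nlinarith

end Pool.Agent.OS.A73
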