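import Pool.Agent.OS.Stmts2
import Pool.Agent.OS.Asm73

/-! # Row ASM2: assembly with the exponent `3 / 4 + ε` -/

namespace Pool.Agent.OS.A73

open Finset Pool.Agent.OS

theorem params2 (C e : ℝ) (hC : 0 < C) (he : 0 < e) (t₀ : ℕ) : ∃ X₀ : ℕ, ∀ X : ℕ, X₀ ≤ X →
    16 ≤ X ∧ (t₀ : ℝ) ≤ Real.log X ∧ 1200 ≤ Real.log (Real.log X) ∧
    14 ≤ e * Real.log (Real.log X) ∧
    Real.exp (Real.log (Real.log X)) = Real.log X ∧
    Real.log (Real.log X) ^ 2 / 2 ≤ Real.log X ∧
    Real.exp ((1 - e) * Real.log (Real.log X)) * (C * Real.log (Real.log X)) ≤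
      e / 2 * Real.log X := by
  set l₀ : ℝ := 1200 + t₀ + 14 / e + 4 * C / e ^ 3 with hl₀
  refine ⟨⌈Real.exp (Real.exp l₀)⌉₊, fun X hX => ?_⟩
  have hX1 : Real.exp (Real.exp l₀) ≤ X := (Nat.le_ceil _).trans (by exact_mod_cast hX)
  have hX0 : (0 : ℝ) < X := (Real.exp_pos _).trans_le hX1
  have hL : Real.exp l₀ ≤ Real.log X := by
    rw [← Real.log_exp (Real.exp l₀)]
    exact Real.log_le_log (Real.exp_pos _) hX1
  have hLpos : 0 < Real.log X := (Real.exp_pos _).trans_le hL
  have hl : l₀ ≤ Real.log (Real.log X) := by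
    rw [← Real.log_exp l₀]
    exact Real.log_le_log (Real.exp_pos _) hL
  have hexp : Real.exp (Real.log (Real.log X)) = Real.log X := Real.exp_log hLpos
  set l := Real.log (Real.log X) with hldef
  have ht0 : (0 : ℝ) ≤ t₀ := Nat.cast_nonneg _
  have h14 : 0 ≤ 14 / e := by positivity
  have hCe : 0 ≤ 4 * C / e ^ 3 := by positivity
  have hl1200 : 1200 ≤ l := by linarith
  have hlC : 4 * C / e ^ 3 ≤ l := by linarith
  have hl14 : 14 / e ≤ l := by linarith
  have hlt : (t₀ : ℝ) ≤ l := by linarith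
  have hq := Real.quadratic_le_exp_of_nonneg (show (0 : ℝ) ≤ l by linarith)
  rw [hexp] at hq
  have hLl : l ≤ Real.log X := by nlinarith
  have hLX : Real.log X ≤ X := by
    have := Real.add_one_le_exp (Real.log X)
    rw [Real.exp_log hX0] at this
    linarith
  refine ⟨?_, hlt.trans hLl, hl1200, ?_, hexp, by nlinarith, ?_⟩
  · have : (16 : ℝ) ≤ X := by linarith
    exact_mod_cast this
  · rw [div_le_iff₀ he] at hl14
    linarith
  · have h1 : Real.exp (e * l) * Real.exp ((1 - e) * l) = Real.log X := by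
      rw [← Real.exp_add, ← hexp]; congr 1; ring
    have h2 := Real.quadratic_le_exp_of_nonneg (show (0 : ℝ) ≤ e * l by positivity)
    have h3 : C * l ≤ e / 2 * Real.exp (e * l) := by
      rw [div_le_iff₀ (by positivity)] at hlC
      have h5 : C * l ≤ e / 2 * ((e * l) ^ 2 / 2) := by
        have : C * l * 4 ≤ l * e ^ 3 * l := by
          have := mul_le_mul_of_nonneg_right hlC (show (0 : ℝ) ≤ l by linarith)
          linarith
        nlinarith
      have h6 : (e * l) ^ 2 / 2 ≤ Real.exp (e * l) := by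
        have : 0 ≤ e * l := by positivity
        linarith
      have := mul_le_mul_of_nonneg_left h6 (show (0 : ℝ) ≤ e / 2 by positivity)
      linarith
    have h4 : 0 < Real.exp ((1 - e) * l) := Real.exp_pos _
    calc Real.exp ((1 - e) * l) * (C * l) ≤ Real.exp ((1 - e) * l) * (e / 2 * Real.exp (e * l)) :=
          mul_le_mul_of_nonneg_left h3 h4.le
      _ = e / 2 * (Real.exp (e * l) * Real.exp ((1 - e) * l)) := by ring
      _ = e / 2 * Real.log X := by rw [h1]

theorem asm2_small (hOno : Ono) (hMom : Mom) (hOm : Om) (hP1 : Pri1) (hP3 : Pri3) (e : ℝ)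
    (he : 0 < e) (he4 : e ≤ 1 / 4) : ∃ C : ℝ, 0 ≤ C ∧ ∀ X : ℕ, 1 ≤ X →
  (((Finset.Icc 1 X).filter (fun D : ℕ => Squarefree D ∧
    onoInvariant (fundDisc (-(D : ℤ))) = (fundDisc (-(D : ℤ))).natAbs.primeFactors.card)).card : ℝ) ≤
      C * (X : ℝ) ^ ((3 : ℝ) / 4 + e) := by
  classical
  obtain ⟨C, hC, hS⟩ := hP1
  obtain ⟨t₀, ht₀⟩ := hP3 (e / 6) (by positivity)
  obtain ⟨X₀, hX₀⟩ := params2 C e hC he t₀
  refine ⟨4 + X₀, by positivity, fun X hX1 => ?_⟩
  have hXpos : (0 : ℝ) < X := by exact_mod_cast hX1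
  have hX1' : (1 : ℝ) ≤ X := by exact_mod_cast hX1
  have hpow1 : (1 : ℝ) ≤ (X : ℝ) ^ ((3 : ℝ) / 4 + e) := Real.one_le_rpow hX1' (by positivity)
  rcases Nat.lt_or_ge X X₀ with hlt | hge
  · have h1 : (((Finset.Icc 1 X).filter (fun D : ℕ => Squarefree D ∧
        onoInvariant (fundDisc (-(D : ℤ))) = (fundDisc (-(D : ℤ))).natAbs.primeFactors.card)).card : ℝ)
        ≤ X := by
      have := card_filter_le (Finset.Icc 1 X) (fun D : ℕ => Squarefree D ∧
        onoInvariant (fundDisc (-(D : ℤ))) = (fundDisc (-(D : ℤ))).natAbs.primeFactors.card)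
      rw [Nat.card_Icc, Nat.add_sub_cancel] at this
      exact_mod_cast this
    have h2 : (X : ℝ) ≤ X₀ := by exact_mod_cast hlt.le
    have h3 : (0 : ℝ) ≤ X₀ := Nat.cast_nonneg _
    nlinarith
  obtain ⟨h16, htt, h1200, h14, hexp, hq, hz⟩ := hX₀ X hge
  have hS' := hS X h16
  set L := Real.log X with hL
  set l := Real.log L with hl
  have hlpos : 0 < l := by linarith
  have hLbig : 720000 ≤ L := by nlinarith
  have hLpos : 0 < L := by linarith
  have heL : 7 * l ≤ e * L := by nlinarith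
  have hXexp : (X : ℝ) = Real.exp L := (Real.exp_log hXpos).symm
  set θ : ℝ := (3 : ℝ) / 4 + e with hθ
  have hX9 : (X : ℝ) ^ θ = Real.exp (θ * L) := by
    rw [Real.rpow_def_of_pos hXpos]; congr 1; rw [← hL]; ring
  set t := ⌊L⌋₊ with ht
  have ht1 : (t : ℝ) ≤ L := Nat.floor_le hLpos.le
  have ht2 : L < t + 1 := Nat.lt_floor_add_one L
  have ht3 : L / 2 ≤ t := by linarith
  set k := ⌊L / (8 * l)⌋₊ with hk
  have hk1 : (k : ℝ) ≤ L / (8 * l) := Nat.floor_le (by positivity)
  have hk2 : L / (8 * l) < k + 1 := Nat.lt_floor_add_one _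
  set W := ⌈L / (4 * l)⌉₊ with hW
  have hW1 : L / (4 * l) ≤ W := Nat.le_ceil _
  have hW2 : (W : ℝ) < L / (4 * l) + 1 := Nat.ceil_lt_add_one (by positivity)
  have hkl : (k : ℝ) * l ≤ L / 8 := by
    calc (k : ℝ) * l ≤ L / (8 * l) * l := mul_le_mul_of_nonneg_right hk1 hlpos.le
      _ = L / 8 := by field_simp
  have hkl2 : L / 8 - l ≤ (k : ℝ) * l := by
    have : L / (8 * l) * l ≤ (k + 1) * l := mul_le_mul_of_nonneg_right hk2.le hlpos.le
    have e : L / (8 * l) * l = L / 8 := by field_simp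
    rw [e] at this
    linarith
  have hWl : L / 4 ≤ (W : ℝ) * l := by
    have : L / (4 * l) * l ≤ W * l := mul_le_mul_of_nonneg_right hW1 hlpos.le
    have e : L / (4 * l) * l = L / 4 := by field_simp
    rwa [e] at this
  have hWl2 : (W : ℝ) * l ≤ L / 4 + l := by
    have : (W : ℝ) * l ≤ (L / (4 * l) + 1) * l := mul_le_mul_of_nonneg_right hW2.le hlpos.le
    have e : (L / (4 * l) + 1) * l = L / 4 + l := by field_simp
    rwa [e] at this
  have htpos : (0 : ℝ) < t := by linarith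
  have ht4 : t₀ ≤ t := Nat.le_floor htt
  have ht1' : 1 ≤ t := by exact_mod_cast (by linarith : (1 : ℝ) ≤ t)
  have htexp : (t : ℝ) ≤ Real.exp l := by rw [hexp]; exact ht1
  have hkL : (k : ℝ) ≤ Real.exp l := by
    rw [hexp]
    refine hk1.trans ?_
    rw [div_le_iff₀ (by positivity)]
    nlinarith
  -- the block size
  set m := ⌊Real.exp ((2 - e) * l)⌋₊ with hm
  have hm1 : (m : ℝ) ≤ Real.exp ((2 - e) * l) := Nat.floor_le (Real.exp_pos _).le
  have hm2 : Real.exp ((2 - e) * l) < m + 1 := Nat.lt_floor_add_one _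
  have hmL : L + 1 ≤ Real.exp ((2 - e) * l) := by
    have h1 : Real.exp ((2 - e) * l) = Real.exp l * Real.exp ((1 - e) * l) := by
      rw [← Real.exp_add]; congr 1; ring
    rw [h1, hexp]
    have h2 := Real.add_one_le_exp ((1 - e) * l)
    have h3 : (2 : ℝ) ≤ Real.exp ((1 - e) * l) := by nlinarith
    nlinarith
  have hmL' : L ≤ m := by linarith
  have hm1' : 1 ≤ m := by exact_mod_cast (by linarith : (1 : ℝ) ≤ m)
  -- the primes
  have hkm : k * m ≤ ((Finset.Icc 1 (t ^ 3)).filter (fun p => p.Prime ∧ p ≠ 2)).card := by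
    have h1 := ht₀ (t ^ 3) (ht4.trans (Nat.le_self_pow (by norm_num) t))
    have h2 : (k : ℝ) * m ≤ Real.exp ((3 - e) * l) := by
      calc (k : ℝ) * m ≤ Real.exp l * Real.exp ((2 - e) * l) :=
            mul_le_mul hkL hm1 (Nat.cast_nonneg _) (Real.exp_pos _).le
        _ = Real.exp ((3 - e) * l) := by rw [← Real.exp_add]; congr 1; ring
    have h3 : Real.exp ((3 - e) * l) ≤ ((t ^ 3 : ℕ) : ℝ) ^ (1 - e / 6) := by
      have hlog : l - 1 ≤ Real.log t := by
        have h4 : Real.exp (l - 1) ≤ t := by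
          rw [Real.exp_sub, hexp]
          refine le_trans ?_ ht3
          have h5 : (2 : ℝ) ≤ Real.exp 1 := by
            have := Real.add_one_le_exp (1 : ℝ)
            linarith
          exact div_le_div_of_nonneg_left hLpos.le (by norm_num) h5
        calc l - 1 = Real.log (Real.exp (l - 1)) := (Real.log_exp _).symm
          _ ≤ Real.log t := Real.log_le_log (Real.exp_pos _) h4
      rw [Real.rpow_def_of_pos (by push_cast; positivity)]
      apply Real.exp_le_exp.2
      push_cast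
      rw [Real.log_pow]
      push_cast
      have h6 : 3 * (l - 1) * (1 - e / 6) ≤ 3 * Real.log t * (1 - e / 6) := by
        apply mul_le_mul_of_nonneg_right _ (by linarith)
        linarith
      nlinarith
    exact_mod_cast h2.trans (h3.trans h1)
  obtain ⟨P, hP1, hP2⟩ := blocks m k _ hkm
  have hPp : ∀ i < k, ∀ p ∈ P i, p.Prime ∧ p ≠ 2 ∧ p ≤ t ^ 3 := by
    intro i hi p hp
    have := mem_filter.1 ((hP1 i hi).1 hp)
    exact ⟨this.2.1, this.2.2, (mem_Icc.1 this.1).2⟩
  -- three sets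
  set A1 := (Finset.Icc 1 X).filter (fun D : ℕ => (D : ℝ) ≤ Real.exp (θ * L)) with hA1
  set A2 := (Finset.Icc 1 X).filter (fun n : ℕ => W ≤ n.primeFactors.card) with hA2
  set A3 := (Finset.Icc 1 X).filter (fun n : ℕ => (∀ i < k, ∀ p ∈ P i, jacobiSym (-(n : ℤ)) p ≠ 1) ∧
    2 * n.primeFactors.card ≤ m) with hA3
  have hsub : (Finset.Icc 1 X).filter (fun D : ℕ => Squarefree D ∧
      onoInvariant (fundDisc (-(D : ℤ))) = (fundDisc (-(D : ℤ))).natAbs.primeFactors.card)
      ⊆ A1 ∪ A2 ∪ A3 := by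
    intro D hD
    obtain ⟨hDI, hsq, hF⟩ := mem_filter.1 hD
    by_cases c1 : (D : ℝ) ≤ Real.exp (θ * L)
    · exact mem_union_left _ (mem_union_left _ (mem_filter.2 ⟨hDI, c1⟩))
    by_cases c2 : W ≤ D.primeFactors.card
    · exact mem_union_left _ (mem_union_right _ (mem_filter.2 ⟨hDI, c2⟩))
    refine mem_union_right _ (mem_filter.2 ⟨hDI, ?_, ?_⟩)
    · intro i hi p hp hj
      obtain ⟨hpp, hp2, hpy⟩ := hPp i hi p hp
      obtain ⟨hnd, hy⟩ := split_of_jacobi D p hpp hj
      have hD1 : 1 ≤ D := (mem_Icc.1 hDI).1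
      obtain ⟨hd1, hd2⟩ := disc_bounds D hD1
      have hbig : 4 * p ^ (D.primeFactors.card + 2) ≤ (fundDisc (-(D : ℤ))).natAbs := by
        refine le_trans ?_ hd1
        have e1 : p ^ (D.primeFactors.card + 2) ≤ (t ^ 3) ^ (W + 1) := by
          calc p ^ (D.primeFactors.card + 2) ≤ (t ^ 3) ^ (D.primeFactors.card + 2) :=
                Nat.pow_le_pow_left hpy _
            _ ≤ (t ^ 3) ^ (W + 1) :=
                Nat.pow_le_pow_right (Nat.pos_of_ne_zero (by positivity)) (by omega)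
        have e2 : (4 : ℝ) * ((t : ℝ) ^ 3) ^ (W + 1) ≤ Real.exp (θ * L) := by
          have e4 : ((t : ℝ) ^ 3) ^ (W + 1) ≤ Real.exp (3 * (W + 1) * l) := by
            rw [← pow_mul]
            calc (t : ℝ) ^ (3 * (W + 1)) ≤ (Real.exp l) ^ (3 * (W + 1)) :=
                  pow_le_pow_left₀ htpos.le htexp _
              _ = Real.exp (3 * (W + 1) * l) := by
                  rw [← Real.exp_nat_mul]; congr 1; push_cast; ring
          have e5 : (4 : ℝ) ≤ Real.exp l := by
            have := Real.add_one_le_exp l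
            linarith
          calc (4 : ℝ) * ((t : ℝ) ^ 3) ^ (W + 1) ≤ Real.exp l * Real.exp (3 * (W + 1) * l) :=
                mul_le_mul e5 e4 (by positivity) (Real.exp_pos _).le
            _ = Real.exp (l + 3 * (W + 1) * l) := (Real.exp_add _ _).symm
            _ ≤ Real.exp (θ * L) := by
                apply Real.exp_le_exp.2
                rw [hθ]
                nlinarith
        have e6 : (4 : ℝ) * (p : ℝ) ^ (D.primeFactors.card + 2) ≤ D := by
          have : ((p ^ (D.primeFactors.card + 2) : ℕ) : ℝ) ≤ (((t ^ 3) ^ (W + 1) : ℕ) : ℝ) := by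
            exact_mod_cast e1
          push_cast at this
          linarith
        exact_mod_cast e6
      have := hOno D p (D.primeFactors.card + 2) hD1 hpp hp2 hnd hy hbig
      rw [hF] at this
      omega
    · have h5 : 2 * D.primeFactors.card ≤ 2 * W := by omega
      refine h5.trans ?_
      have h6 : (2 : ℝ) * W ≤ m := by
        refine le_trans ?_ hmL'
        have : (2 * (W : ℝ)) * l ≤ L * l := by nlinarith
        exact le_of_mul_le_mul_right this hlpos
      exact_mod_cast h6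
  -- bound 1
  have hb1 : (A1.card : ℝ) ≤ Real.exp (θ * L) := by
    have h1 : A1 ⊆ Finset.Icc 1 ⌊Real.exp (θ * L)⌋₊ := by
      intro D hD
      obtain ⟨hDI, hDe⟩ := mem_filter.1 hD
      exact mem_Icc.2 ⟨(mem_Icc.1 hDI).1, Nat.le_floor hDe⟩
    have h2 := card_le_card h1
    rw [Nat.card_Icc, Nat.add_sub_cancel] at h2
    calc (A1.card : ℝ) ≤ (⌊Real.exp (θ * L)⌋₊ : ℝ) := by exact_mod_cast h2
      _ ≤ _ := Nat.floor_le (Real.exp_pos _).le
  -- bound 2
  have hb2 : (A2.card : ℝ) ≤ Real.exp (θ * L) := by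
    have h1 := hOm X W (Real.exp ((1 - e) * l)) (Real.exp_pos _).le
    have h2 : (X : ℝ) * Real.exp (Real.exp ((1 - e) * l) *
        ∑ p ∈ (Finset.Icc 1 X).filter Nat.Prime, (1 : ℝ) / p) ≤ Real.exp ((1 + e / 2) * L) := by
      rw [hXexp, ← Real.exp_add]
      apply Real.exp_le_exp.2
      have : Real.exp ((1 - e) * l) * ∑ p ∈ (Finset.Icc 1 X).filter Nat.Prime, (1 : ℝ) / p
          ≤ Real.exp ((1 - e) * l) * (C * l) := mul_le_mul_of_nonneg_left hS' (Real.exp_pos _).le
      linarith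
    have h3 : Real.exp ((1 - e) / 4 * L) ≤ (1 + Real.exp ((1 - e) * l)) ^ W := by
      calc Real.exp ((1 - e) / 4 * L) ≤ Real.exp (W * ((1 - e) * l)) := by
            apply Real.exp_le_exp.2
            have := mul_le_mul_of_nonneg_left hWl (show (0 : ℝ) ≤ 1 - e by linarith)
            linarith
        _ = (Real.exp ((1 - e) * l)) ^ W := Real.exp_nat_mul _ _
        _ ≤ _ := pow_le_pow_left₀ (Real.exp_pos _).le (by linarith [Real.exp_pos ((1 - e) * l)]) _
    have h4 : (A2.card : ℝ) * Real.exp ((1 - e) / 4 * L) ≤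
        Real.exp (θ * L) * Real.exp ((1 - e) / 4 * L) := by
      calc (A2.card : ℝ) * Real.exp ((1 - e) / 4 * L) ≤
            A2.card * (1 + Real.exp ((1 - e) * l)) ^ W :=
            mul_le_mul_of_nonneg_left h3 (Nat.cast_nonneg _)
        _ ≤ _ := h1
        _ ≤ Real.exp ((1 + e / 2) * L) := h2
        _ ≤ _ := by
            rw [← Real.exp_add]
            apply Real.exp_le_exp.2
            rw [hθ]
            nlinarith [mul_pos he hLpos]
    exact le_of_mul_le_mul_right h4 (Real.exp_pos _)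
  -- bound 3
  have hb3 : (A3.card : ℝ) ≤ 2 * Real.exp (θ * L) := by
    have h1 := hMom k m X (t ^ 3) P hm1' (fun i hi => ⟨(hP1 i hi).2, hPp i hi⟩) hP2
    have hmpos : (0 : ℝ) < (m : ℝ) := by linarith
    have hB : 0 < ((m : ℝ) / 2) ^ (2 * k) := by positivity
    have h8e : (8 : ℝ) ≤ Real.exp (e * l) := by
      have := Real.add_one_le_exp (e * l)
      linarith
    have h2 : (m : ℝ) ^ k * X ≤ Real.exp (θ * L) * ((m : ℝ) / 2) ^ (2 * k) := by
      have e1 : ((m : ℝ) / 2) ^ (2 * k) = (m : ℝ) ^ k * ((m : ℝ) / 4) ^ k := by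
        rw [pow_mul, ← mul_pow]; congr 1; ring
      rw [e1, hXexp]
      have e2 : Real.exp ((2 - 2 * e) * l) ≤ (m : ℝ) / 4 := by
        have e3 : Real.exp ((2 - e) * l) ≤ 2 * m := by linarith
        have e4 : Real.exp ((2 - 2 * e) * l) * Real.exp (e * l) = Real.exp ((2 - e) * l) := by
          rw [← Real.exp_add]; congr 1; ring
        have e5 : Real.exp ((2 - 2 * e) * l) * 8 ≤ Real.exp ((2 - 2 * e) * l) * Real.exp (e * l) :=
          mul_le_mul_of_nonneg_left h8e (Real.exp_pos _).le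
        rw [e4] at e5
        linarith
      have e7 : Real.exp ((1 / 4 - e) * L) ≤ ((m : ℝ) / 4) ^ k := by
        calc Real.exp ((1 / 4 - e) * L) ≤ Real.exp (k * ((2 - 2 * e) * l)) := by
              apply Real.exp_le_exp.2
              have := mul_le_mul_of_nonneg_left hkl2 (show (0 : ℝ) ≤ 2 - 2 * e by linarith)
              nlinarith
          _ = (Real.exp ((2 - 2 * e) * l)) ^ k := Real.exp_nat_mul _ _
          _ ≤ _ := pow_le_pow_left₀ (Real.exp_pos _).le e2 _
      calc (m : ℝ) ^ k * Real.exp L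
          = (m : ℝ) ^ k * (Real.exp (θ * L) * Real.exp ((1 / 4 - e) * L)) := by
            rw [← Real.exp_add]; congr 2; rw [hθ]; ring
        _ ≤ (m : ℝ) ^ k * (Real.exp (θ * L) * ((m : ℝ) / 4) ^ k) := by
            apply mul_le_mul_of_nonneg_left _ (by positivity)
            exact mul_le_mul_of_nonneg_left e7 (Real.exp_pos _).le
        _ = Real.exp (θ * L) * ((m : ℝ) ^ k * ((m : ℝ) / 4) ^ k) := by ring
    have h3 : ((m : ℝ) * ((t ^ 3 : ℕ) : ℝ)) ^ (2 * k) ≤
        Real.exp (θ * L) * ((m : ℝ) / 2) ^ (2 * k) := by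
      have e1 : ((m : ℝ) * ((t ^ 3 : ℕ) : ℝ)) ^ (2 * k)
          = (2 * (t : ℝ) ^ 3) ^ (2 * k) * ((m : ℝ) / 2) ^ (2 * k) := by
        rw [← mul_pow]; congr 1; push_cast; ring
      rw [e1]
      apply mul_le_mul_of_nonneg_right _ hB.le
      have e2 : 2 * (t : ℝ) ^ 3 ≤ Real.exp ((3 + e) * l) := by
        have e3 : (t : ℝ) ^ 3 ≤ Real.exp (3 * l) := by
          calc (t : ℝ) ^ 3 ≤ (Real.exp l) ^ 3 := pow_le_pow_left₀ htpos.le htexp 3
            _ = Real.exp (3 * l) := by rw [← Real.exp_nat_mul]; congr 1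
        calc 2 * (t : ℝ) ^ 3 ≤ Real.exp (e * l) * Real.exp (3 * l) :=
              mul_le_mul (by linarith) e3 (by positivity) (Real.exp_pos _).le
          _ = Real.exp ((3 + e) * l) := by rw [← Real.exp_add]; congr 1; ring
      calc (2 * (t : ℝ) ^ 3) ^ (2 * k) ≤ (Real.exp ((3 + e) * l)) ^ (2 * k) :=
            pow_le_pow_left₀ (by positivity) e2 _
        _ = Real.exp ((2 * k : ℕ) * ((3 + e) * l)) := (Real.exp_nat_mul _ _).symm
        _ ≤ Real.exp (θ * L) := by
            apply Real.exp_le_exp.2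
            push_cast
            rw [hθ]
            have := mul_le_mul_of_nonneg_left hkl (show (0 : ℝ) ≤ 2 * (3 + e) by linarith)
            nlinarith [mul_pos he hLpos]
    have h4 : (A3.card : ℝ) * ((m : ℝ) / 2) ^ (2 * k) ≤
        2 * Real.exp (θ * L) * ((m : ℝ) / 2) ^ (2 * k) := by
      linarith [h1]
    exact le_of_mul_le_mul_right h4 hB
  have hcard : (((Finset.Icc 1 X).filter (fun D : ℕ => Squarefree D ∧
      onoInvariant (fundDisc (-(D : ℤ))) = (fundDisc (-(D : ℤ))).natAbs.primeFactors.card)).card : ℝ)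
      ≤ A1.card + A2.card + A3.card := by
    have h1 := card_le_card hsub
    have h2 := card_union_le (A1 ∪ A2) A3
    have h3 := card_union_le A1 A2
    exact_mod_cast (by omega : _ ≤ A1.card + A2.card + A3.card)
  rw [hX9] at hpow1 ⊢
  have h0 : (0 : ℝ) ≤ X₀ := Nat.cast_nonneg _
  nlinarith

theorem asm2_73 : Asm2 := by
  intro hOno hMom hOm hP1 hP3 e he
  obtain ⟨C, hC, h⟩ := asm2_small hOno hMom hOm hP1 hP3 (min e (1 / 4)) (lt_min he (by norm_num))
    (min_le_right _ _)
  refine ⟨C, fun X hX => (h X hX).trans ?_⟩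
  apply mul_le_mul_of_nonneg_left _ hC
  apply Real.rpow_le_rpow_of_exponent_le (by exact_mod_cast hX)
  have := min_le_left e (1 / 4)
  linarith

end Pool.Agent.OS.A73
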