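import Pool.Agent.OS.Stmts3
import Pool.Agent.OS.Asm289

/-!
# Row ASM3: the choice of the parameters, dyadic
-/

set_option autoImplicit false
set_option maxHeartbeats 2000000

namespace Pool.Agent.OS.Asm389

open Finset Asm289

/-- the parameters are large -/
lemma large3 (C : ℝ) (hC : 0 < C) (t₀ : ℕ) : ∃ L₀ : ℝ, ∀ L : ℝ, L₀ ≤ L →
    1 ≤ L ∧ 1000 ≤ Real.log L ∧ (t₀ : ℝ) + 3 ≤ L ∧ 100000 * Real.log L ≤ L ∧
      C * Real.log L ≤ 1 / 1000 * Real.exp (1 / 1000 * Real.log L) := by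
  have h1 : ∀ᶠ L : ℝ in Filter.atTop, ‖Real.log L‖ ≤ 1 / 100000 * ‖(id L : ℝ)‖ :=
    Real.isLittleO_log_id_atTop.def (by positivity)
  have h2 : ∀ᶠ s : ℝ in Filter.atTop, 1000000 * C ≤ Real.exp s / s ^ 1 :=
    (Real.tendsto_exp_div_pow_atTop 1).eventually_ge_atTop _
  have h3 : Filter.Tendsto (fun L : ℝ => 1 / 1000 * Real.log L) Filter.atTop Filter.atTop :=
    Real.tendsto_log_atTop.const_mul_atTop (by positivity)
  have h4 := h3.eventually h2
  have h5 : ∀ᶠ L : ℝ in Filter.atTop, 1000 ≤ Real.log L := Real.tendsto_log_atTop.eventually_ge_atTop _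
  obtain ⟨L₀, hL₀⟩ := Filter.eventually_atTop.1 (h1.and (h4.and (h5.and ((Filter.eventually_ge_atTop (1 : ℝ)).and
    (Filter.eventually_ge_atTop ((t₀ : ℝ) + 3))))))
  refine ⟨L₀, fun L hL => ?_⟩
  obtain ⟨a1, a2, a3, a4, a5⟩ := hL₀ L hL
  have hLpos : 0 < L := by linarith
  rw [Real.norm_eq_abs, Real.norm_eq_abs, id, abs_of_pos hLpos, abs_of_pos (by linarith)] at a1
  refine ⟨a4, a3, a5, by linarith, ?_⟩
  have hs0 : 0 < 1 / 1000 * Real.log L := by linarith
  rw [pow_one, le_div_iff₀ hs0] at a2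
  linarith

theorem big3 (hO : Ono) (hM : Mom3) (hW : Om) {C : ℝ} (hC : 0 < C) {t₀ X : ℕ}
    (hP1 : ∑ p ∈ (Finset.Icc 1 X).filter Nat.Prime, (1 : ℝ) / p ≤ C * Real.log (Real.log X))
    (hP3 : ∀ y : ℕ, t₀ ≤ y → (y : ℝ) ^ (1 - (3 : ℝ) / 1000) ≤
      (((Finset.Icc 1 y).filter (fun p => p.Prime ∧ p ≠ 2)).card : ℝ))
    (hX : 1 ≤ X) (a1 : 1 ≤ Real.log X) (a2 : 1000 ≤ Real.log (Real.log X))
    (a3 : (t₀ : ℝ) + 3 ≤ Real.log X)
    (a4 : 100000 * Real.log (Real.log X) ≤ Real.log X)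
    (a6 : C * Real.log (Real.log X) ≤ 1 / 1000 * Real.exp (1 / 1000 * Real.log (Real.log X))) :
    (((Finset.Icc (X / 2 + 1) X).filter (fun D : ℕ => Squarefree D ∧
      onoInvariant (fundDisc (-(D : ℤ))) = (fundDisc (-(D : ℤ))).natAbs.primeFactors.card)).card : ℝ) ≤
      3 * Real.exp (5 / 8 * Real.log X) := by
  classical
  obtain ⟨L, hL⟩ : ∃ L : ℝ, L = Real.log X := ⟨_, rfl⟩
  obtain ⟨l, hl⟩ : ∃ l : ℝ, l = Real.log L := ⟨_, rfl⟩
  rw [← hL] at hP1 a1 a2 a3 a4 a6 ⊢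
  rw [← hl] at hP1 a2 a4 a6
  have hL0 : 0 < L := by linarith
  have hl0 : 0 < l := by linarith
  have hX0 : (0 : ℝ) < X := by exact_mod_cast hX
  have hXe : (X : ℝ) = Real.exp L := by rw [hL, Real.exp_log hX0]
  have hLe : L = Real.exp l := by rw [hl, Real.exp_log hL0]
  have hten : (8 : ℝ) ≤ Real.exp (1 / 100 * l) := by
    have h1 := Real.add_one_le_exp (1 / 100 * l)
    linarith
  have hgap : ∀ a b : ℝ, a + 1 / 100 ≤ b → 8 * Real.exp (a * l) ≤ Real.exp (b * l) := by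
    intro a b hab
    calc 8 * Real.exp (a * l) ≤ Real.exp (1 / 100 * l) * Real.exp (a * l) :=
          mul_le_mul_of_nonneg_right hten (Real.exp_pos _).le
      _ = Real.exp ((a + 1 / 100) * l) := by rw [← Real.exp_add]; congr 1; ring
      _ ≤ Real.exp (b * l) := Real.exp_le_exp.2 (mul_le_mul_of_nonneg_right hab hl0.le)
  obtain ⟨y, hy⟩ : ∃ y : ℕ, y = Nat.floor (Real.exp (2.64 * l)) := ⟨_, rfl⟩
  obtain ⟨m, hm⟩ : ∃ m : ℕ, m = Nat.floor (Real.exp (1.62 * l)) := ⟨_, rfl⟩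
  obtain ⟨k, hk⟩ : ∃ k : ℕ, k = Nat.floor (0.235 * L / l) := ⟨_, rfl⟩
  obtain ⟨W, hWd⟩ : ∃ W : ℕ, W = Nat.ceil (0.378 * L / l) := ⟨_, rfl⟩
  have hyU : (y : ℝ) ≤ Real.exp (2.64 * l) := by rw [hy]; exact Nat.floor_le (Real.exp_pos _).le
  have hyL : Real.exp (2.63 * l) ≤ y := by
    have h1 := Nat.lt_floor_add_one (Real.exp (2.64 * l))
    rw [← hy] at h1
    have h2 := hgap 2.63 2.64 (by norm_num)
    have h3 : 1 ≤ Real.exp (2.63 * l) := Real.one_le_exp (by linarith)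
    linarith
  have hmU : (m : ℝ) ≤ Real.exp (1.62 * l) := by rw [hm]; exact Nat.floor_le (Real.exp_pos _).le
  have hmL : 4 * Real.exp (1.61 * l) ≤ m := by
    have h1 := Nat.lt_floor_add_one (Real.exp (1.62 * l))
    rw [← hm] at h1
    have h2 := hgap 1.61 1.62 (by norm_num)
    have h3 : 1 ≤ Real.exp (1.61 * l) := Real.one_le_exp (by linarith)
    linarith
  have hkU : (k : ℝ) ≤ 0.235 * L / l := by rw [hk]; exact Nat.floor_le (by positivity)
  have hkl : (k : ℝ) * l ≤ 0.235 * L := by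
    rw [le_div_iff₀ hl0] at hkU
    exact hkU
  have hkl' : 0.235 * L - l ≤ k * l := by
    have h1 := Nat.lt_floor_add_one (0.235 * L / l)
    rw [← hk] at h1
    have h2 : 0.235 * L / l * l ≤ (k + 1) * l := mul_le_mul_of_nonneg_right h1.le hl0.le
    have h3 : 0.235 * L / l * l = 0.235 * L := by field_simp
    linarith
  have hkL : (k : ℝ) ≤ 0.235 / 1000 * L := by
    have h1 : (k : ℝ) * 1000 ≤ k * l := mul_le_mul_of_nonneg_left a2 (Nat.cast_nonneg _)
    linarith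
  have hWl : 0.378 * L ≤ W * l := by
    have h1 : 0.378 * L / l ≤ W := by rw [hWd]; exact Nat.le_ceil _
    rw [div_le_iff₀ hl0] at h1
    exact h1
  have hWl' : (W : ℝ) * l ≤ 0.378 * L + l := by
    have h1 : (W : ℝ) ≤ 0.378 * L / l + 1 := by rw [hWd]; exact (Nat.ceil_lt_add_one (by positivity)).le
    have h2 : (W : ℝ) * l ≤ (0.378 * L / l + 1) * l := mul_le_mul_of_nonneg_right h1 hl0.le
    have h3 : (0.378 * L / l + 1) * l = 0.378 * L + l := by field_simp
    linarith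
  have hWL : (W : ℝ) ≤ L := by
    have h1 : (W : ℝ) * 1000 ≤ W * l := mul_le_mul_of_nonneg_left a2 (Nat.cast_nonneg _)
    linarith
  have hm1 : 1 ≤ m := by
    have h3 : 1 ≤ Real.exp (1.61 * l) := Real.one_le_exp (by linarith)
    have : (1 : ℝ) ≤ m := by linarith
    exact_mod_cast this
  have hy1 : 1 ≤ y := by
    have h3 : 1 ≤ Real.exp (2.63 * l) := Real.one_le_exp (by linarith)
    have : (1 : ℝ) ≤ y := by linarith
    exact_mod_cast this
  -- the blocks
  obtain ⟨P, hPa, hPb⟩ := blocks ((Finset.Icc 1 y).filter (fun p => p.Prime ∧ p ≠ 2)) k m (by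
    have h0 : L ≤ Real.exp (2.63 * l) := by
      rw [hLe, Real.log_exp] at hl
      rw [hLe]
      exact Real.exp_le_exp.2 (by linarith)
    have e1 := hP3 y (by
      have : (t₀ : ℝ) ≤ y := by linarith
      exact_mod_cast this)
    have e2 : Real.exp (2.62 * l) ≤ (y : ℝ) ^ (1 - (3 : ℝ) / 1000) := by
      calc Real.exp (2.62 * l) ≤ Real.exp (2.63 * l) ^ (1 - (3 : ℝ) / 1000) := by
            rw [← Real.exp_mul]
            apply Real.exp_le_exp.2
            nlinarith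
        _ ≤ (y : ℝ) ^ (1 - (3 : ℝ) / 1000) := Real.rpow_le_rpow (Real.exp_pos _).le hyL (by norm_num)
    have e5 : ((k * m : ℕ) : ℝ) ≤ (((Finset.Icc 1 y).filter (fun p => p.Prime ∧ p ≠ 2)).card : ℝ) := by
      refine le_trans ?_ (e2.trans e1)
      push_cast
      calc (k : ℝ) * m ≤ Real.exp l * Real.exp (1.62 * l) := by
            apply mul_le_mul _ hmU (Nat.cast_nonneg _) (Real.exp_pos _).le
            rw [← hLe]
            linarith
        _ = Real.exp (2.62 * l) := by rw [← Real.exp_add]; congr 1; ring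
    exact_mod_cast e5)
  have hPp : ∀ i < k, ∀ p ∈ P i, p.Prime ∧ p ≠ 2 ∧ p ≤ y := by
    intro i hi p hp
    have h1 := (hPa i hi).1 hp
    rw [mem_filter, mem_Icc] at h1
    exact ⟨h1.2.1, h1.2.2, h1.1.2⟩
  -- part B
  obtain ⟨SB, hSB⟩ : ∃ SB, SB = (Finset.Icc 1 X).filter (fun n : ℕ => W ≤ n.primeFactors.card) := ⟨_, rfl⟩
  have hB : (SB.card : ℝ) ≤ Real.exp (5 / 8 * L) := by
    obtain ⟨z, hz⟩ : ∃ z : ℝ, z = Real.exp ((1 - 1 / 1000) * l) := ⟨_, rfl⟩
    have hz0 : 0 < z := by rw [hz]; exact Real.exp_pos _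
    have h1 := hW X W z hz0.le
    rw [← hSB] at h1
    have h2 : z ^ W ≤ (1 + z) ^ W := pow_le_pow_left₀ hz0.le (by linarith) W
    have h3 : z ^ W = Real.exp (W * ((1 - 1 / 1000) * l)) := by rw [hz, ← Real.exp_nat_mul]
    have h4 : (SB.card : ℝ) * Real.exp (W * ((1 - 1 / 1000) * l)) ≤ Real.exp L * Real.exp (z * (C * l)) := by
      rw [← h3]
      calc (SB.card : ℝ) * z ^ W ≤ (SB.card : ℝ) * (1 + z) ^ W :=
            mul_le_mul_of_nonneg_left h2 (Nat.cast_nonneg _)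
        _ ≤ X * Real.exp (z * ∑ p ∈ (Finset.Icc 1 X).filter Nat.Prime, (1 : ℝ) / p) := h1
        _ ≤ Real.exp L * Real.exp (z * (C * l)) := by
            rw [hXe]
            apply mul_le_mul_of_nonneg_left _ (Real.exp_pos _).le
            exact Real.exp_le_exp.2 (mul_le_mul_of_nonneg_left hP1 hz0.le)
    have h5 : z * (C * l) ≤ 1 / 1000 * L := by
      calc z * (C * l) ≤ z * (1 / 1000 * Real.exp (1 / 1000 * l)) := mul_le_mul_of_nonneg_left a6 hz0.le
        _ = 1 / 1000 * (Real.exp ((1 - 1 / 1000) * l) * Real.exp (1 / 1000 * l)) := by rw [hz]; ring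
        _ = 1 / 1000 * L := by
            rw [← Real.exp_add, hLe]
            congr 2
            ring
    rw [← Real.exp_add] at h4
    have h9 : (SB.card : ℝ) ≤ Real.exp (L + z * (C * l) - W * ((1 - 1 / 1000) * l)) := by
      rw [Real.exp_sub, le_div_iff₀ (Real.exp_pos _)]
      exact h4
    refine h9.trans (Real.exp_le_exp.2 ?_)
    have h11 : (W : ℝ) * ((1 - 1 / 1000) * l) = (1 - 1 / 1000) * (W * l) := by ring
    rw [h11]
    linarith
  -- part C
  obtain ⟨SC, hSC⟩ : ∃ SC, SC = (Finset.Icc 1 X).filter (fun n : ℕ => (∀ i < k, ∀ p ∈ P i, jacobiSym (-(n : ℤ)) p ≠ 1) ∧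
    2 * n.primeFactors.card ≤ m) := ⟨_, rfl⟩
  have hCC : (SC.card : ℝ) ≤ 2 * Real.exp (5 / 8 * L) := by
    have h1 := hM k m X y P hm1 hy1 (fun i hi => ⟨(hPa i hi).2, hPp i hi⟩) hPb
    rw [← hSC] at h1
    obtain ⟨u, hu⟩ : ∃ u : ℝ, u = (m : ℝ) := ⟨_, rfl⟩
    obtain ⟨v, hv⟩ : ∃ v : ℝ, v = (y : ℝ) := ⟨_, rfl⟩
    rw [← hu, ← hv] at h1
    rw [← hu] at hmL hmU
    rw [← hv] at hyL hyU
    have hu0 : 0 < u := by
      have := Real.exp_pos (1.61 * l)
      linarith
    have hv1 : 1 ≤ v := by rw [hv]; exact_mod_cast hy1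
    have hlv0 : 0 ≤ Real.log v := Real.log_nonneg hv1
    have h2 : (SC.card : ℝ) ≤ X * (4 / u) ^ k + (8 * v) ^ k * (1 + 2 * k * Real.log v) := by
      have e1 : (u ^ k * X + u ^ (2 * k) * (2 * v) ^ k * (1 + 2 * k * Real.log v)) =
          (X * (4 / u) ^ k + (8 * v) ^ k * (1 + 2 * k * Real.log v)) * (u / 2) ^ (2 * k) := by
        have e2 : (4 / u) ^ k * (u / 2) ^ (2 * k) = u ^ k := by
          rw [pow_mul, ← mul_pow]
          congr 1
          field_simp; norm_num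
        have e3 : (8 * v) ^ k * (u / 2) ^ (2 * k) = u ^ (2 * k) * (2 * v) ^ k := by
          rw [pow_mul, pow_mul, ← mul_pow, ← mul_pow]
          congr 1
          ring
        calc u ^ k * X + u ^ (2 * k) * (2 * v) ^ k * (1 + 2 * k * Real.log v)
            = (4 / u) ^ k * (u / 2) ^ (2 * k) * X +
              (8 * v) ^ k * (u / 2) ^ (2 * k) * (1 + 2 * k * Real.log v) := by rw [e2, e3]
          _ = _ := by ring
      rw [e1] at h1
      exact le_of_mul_le_mul_right h1 (by positivity)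
    have h3 : (4 / u) ^ k ≤ Real.exp (-(0.376 * L)) := by
      have e1 : 4 / u ≤ Real.exp (-(1.61 * l)) := by
        rw [Real.exp_neg, ← one_div, div_le_div_iff₀ hu0 (Real.exp_pos _)]
        linarith
      calc (4 / u) ^ k ≤ Real.exp (-(1.61 * l)) ^ k := pow_le_pow_left₀ (by positivity) e1 k
        _ = Real.exp (k * (-(1.61 * l))) := by rw [← Real.exp_nat_mul]
        _ ≤ Real.exp (-(0.376 * L)) := by
            apply Real.exp_le_exp.2
            have e6 : (k : ℝ) * (-(1.61 * l)) = -(1.61 * (k * l)) := by ring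
            rw [e6]
            linarith
    have h4 : (8 * v) ^ k ≤ Real.exp (0.622 * L) := by
      have e0 : Real.log 8 ≤ 3 := by
        have : (8 : ℝ) = 2 ^ 3 := by norm_num
        rw [this, Real.log_pow]
        have := Real.log_two_lt_d9
        push_cast
        linarith
      have e1 : 8 * v ≤ Real.exp (2.64 * l + 3) := by
        have e2 : (8 : ℝ) ≤ Real.exp 3 := by
          rw [← Real.log_le_iff_le_exp (by norm_num)]
          exact e0
        rw [Real.exp_add, mul_comm]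
        exact mul_le_mul hyU e2 (by norm_num) (Real.exp_pos _).le
      calc (8 * v) ^ k ≤ Real.exp (2.64 * l + 3) ^ k := pow_le_pow_left₀ (by positivity) e1 _
        _ = Real.exp (k * (2.64 * l + 3)) := by rw [← Real.exp_nat_mul]
        _ ≤ Real.exp (0.622 * L) := by
            apply Real.exp_le_exp.2
            have e6 : (k : ℝ) * (2.64 * l + 3) = 2.64 * (k * l) + 3 * k := by ring
            rw [e6]
            linarith
    have h6 : 1 + 2 * k * Real.log v ≤ Real.exp (0.001 * L) := by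
      have e1 : Real.log v ≤ 2.64 * l := by
        have := Real.log_le_log (by linarith) hyU
        rwa [Real.log_exp] at this
      have e2 : 2 * k * Real.log v ≤ 2 * (0.235 * L) * 2.64 := by
        calc 2 * k * Real.log v ≤ 2 * k * (2.64 * l) := mul_le_mul_of_nonneg_left e1 (by positivity)
          _ = 2 * (k * l) * 2.64 := by ring
          _ ≤ 2 * (0.235 * L) * 2.64 := by linarith
      have e3 : 1 + 2 * L ≤ Real.exp (2 * l) := by
        have e4 : Real.exp (2 * l) = L * L := by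
          rw [two_mul, Real.exp_add, ← hLe]
        rw [e4]
        have e5 : 1000 ≤ L := by linarith
        nlinarith
      refine le_trans ?_ (e3.trans (Real.exp_le_exp.2 (by linarith)))
      linarith
    have h5 : (X : ℝ) * (4 / u) ^ k ≤ Real.exp (5 / 8 * L) := by
      calc (X : ℝ) * (4 / u) ^ k ≤ Real.exp L * Real.exp (-(0.376 * L)) := by
            rw [hXe]; exact mul_le_mul_of_nonneg_left h3 (Real.exp_pos _).le
        _ = Real.exp (0.624 * L) := by rw [← Real.exp_add]; congr 1; ring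
        _ ≤ Real.exp (5 / 8 * L) := Real.exp_le_exp.2 (by linarith)
    have h7 : (8 * v) ^ k * (1 + 2 * k * Real.log v) ≤ Real.exp (5 / 8 * L) := by
      calc (8 * v) ^ k * (1 + 2 * k * Real.log v) ≤ Real.exp (0.622 * L) * Real.exp (0.001 * L) :=
            mul_le_mul h4 h6 (by positivity) (Real.exp_pos _).le
        _ = Real.exp (0.623 * L) := by rw [← Real.exp_add]; congr 1; ring
        _ ≤ Real.exp (5 / 8 * L) := Real.exp_le_exp.2 (by linarith)
    linarith
  have hsub : (Finset.Icc (X / 2 + 1) X).filter (fun D : ℕ => Squarefree D ∧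
      onoInvariant (fundDisc (-(D : ℤ))) = (fundDisc (-(D : ℤ))).natAbs.primeFactors.card) ⊆ SB ∪ SC := by
    intro D hD
    rw [mem_filter] at hD
    obtain ⟨hD1, -, hF⟩ := hD
    have hD2 := mem_Icc.mp hD1
    have hD3 : D ∈ Icc 1 X := mem_Icc.mpr ⟨by omega, hD2.2⟩
    have hD4 : Real.exp L ≤ 2 * (D : ℝ) := by
      rw [← hXe]
      have : X ≤ 2 * D := by omega
      exact_mod_cast this
    rw [mem_union]
    by_cases hBB : W ≤ D.primeFactors.card
    · exact Or.inl (by rw [hSB]; exact mem_filter.mpr ⟨hD3, hBB⟩)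
    right
    rw [hSC, mem_filter]
    refine ⟨hD3, ?_, ?_⟩
    · intro i hi p hp
      obtain ⟨hp1, hp2, hp3⟩ := hPp i hi p hp
      apply nosplit hO D p (W + 1) (by omega) hp1 hp2 hF (by omega)
      have h2 : (4 : ℝ) * (p : ℝ) ^ (W + 1) ≤ D := by
        have hpr : (p : ℝ) ≤ Real.exp (2.64 * l) := by
          have e3 : (p : ℝ) ≤ (y : ℝ) := by exact_mod_cast hp3
          linarith
        have e0 : (8 : ℝ) ≤ Real.exp l := by rw [← hLe]; linarith
        have h3 : (8 : ℝ) * (p : ℝ) ^ (W + 1) ≤ Real.exp L := by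
          calc (8 : ℝ) * (p : ℝ) ^ (W + 1) ≤ Real.exp l * Real.exp (2.64 * l) ^ (W + 1) := by
                apply mul_le_mul e0 _ (by positivity) (Real.exp_pos _).le
                exact pow_le_pow_left₀ (Nat.cast_nonneg _) hpr _
            _ = Real.exp (l + ((W + 1 : ℕ) : ℝ) * (2.64 * l)) := by
                rw [← Real.exp_nat_mul, Real.exp_add]
            _ ≤ Real.exp L := by
                apply Real.exp_le_exp.2
                push_cast
                have e6 : l + ((W : ℝ) + 1) * (2.64 * l) = 3.64 * l + 2.64 * (W * l) := by ring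
                rw [e6]
                linarith
        linarith
      exact_mod_cast h2
    · have h3 : D.primeFactors.card ≤ W := by omega
      have h4 : (D.primeFactors.card : ℝ) ≤ W := by exact_mod_cast h3
      have h5 : L ≤ Real.exp (1.61 * l) := by
        have e1 : Real.exp l ≤ Real.exp (1.61 * l) := Real.exp_le_exp.2 (by linarith)
        rw [← hLe] at e1
        exact e1
      have h6 : (2 * D.primeFactors.card : ℝ) ≤ m := by linarith
      exact_mod_cast h6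
  have hcard := (card_le_card hsub).trans (card_union_le _ _)
  have hcard' : (((Finset.Icc (X / 2 + 1) X).filter (fun D : ℕ => Squarefree D ∧
      onoInvariant (fundDisc (-(D : ℤ))) = (fundDisc (-(D : ℤ))).natAbs.primeFactors.card)).card : ℝ) ≤
      SB.card + SC.card := by exact_mod_cast hcard
  linarith

theorem asm389 : Asm3 := by
  classical
  intro hO hM hW hP1 hP3
  obtain ⟨C, hC, hP1⟩ := hP1
  obtain ⟨t₀, hP3⟩ := hP3 (3 / 1000) (by positivity)
  obtain ⟨L₀, hL₀⟩ := large3 C hC t₀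
  obtain ⟨X₀, hX₀⟩ : ∃ X₀ : ℕ, 16 ≤ X₀ ∧ ∀ X : ℕ, X₀ ≤ X → L₀ ≤ Real.log X := by
    have h1 : Filter.Tendsto (fun X : ℕ => Real.log (X : ℝ)) Filter.atTop Filter.atTop :=
      Real.tendsto_log_atTop.comp tendsto_natCast_atTop_atTop
    obtain ⟨X₁, hX₁⟩ := Filter.eventually_atTop.1 (h1.eventually_ge_atTop L₀)
    exact ⟨max X₁ 16, le_max_right _ _, fun X hX => hX₁ X ((le_max_left _ _).trans hX)⟩
  refine ⟨max 12 X₀, fun X hX => ?_⟩
  have h12 : (12 : ℝ) ≤ max 12 (X₀ : ℝ) := le_max_left _ _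
  induction X using Nat.strong_induction_on with
  | _ X ih =>
  have hXr : (1 : ℝ) ≤ X := by exact_mod_cast hX
  have hXp : 1 ≤ (X : ℝ) ^ ((5 : ℝ) / 8) := Real.one_le_rpow hXr (by norm_num)
  rcases Nat.lt_or_ge X X₀ with h | h
  · have h1 : (((Finset.Icc 1 X).filter (fun D : ℕ => Squarefree D ∧
      onoInvariant (fundDisc (-(D : ℤ))) = (fundDisc (-(D : ℤ))).natAbs.primeFactors.card)).card : ℝ) ≤ X := by
      have h5 := card_filter_le (Icc 1 X) (fun D : ℕ => Squarefree D ∧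
        onoInvariant (fundDisc (-(D : ℤ))) = (fundDisc (-(D : ℤ))).natAbs.primeFactors.card)
      rw [Nat.card_Icc, Nat.add_sub_cancel] at h5
      exact_mod_cast h5
    have h2 : (X : ℝ) ≤ X₀ := by exact_mod_cast h.le
    have h3 : (X₀ : ℝ) ≤ max 12 (X₀ : ℝ) := le_max_right _ _
    calc _ ≤ (X : ℝ) := h1
      _ ≤ max 12 (X₀ : ℝ) * 1 := by linarith
      _ ≤ max 12 (X₀ : ℝ) * (X : ℝ) ^ ((5 : ℝ) / 8) := mul_le_mul_of_nonneg_left hXp (by linarith)
  · have hX16 : 16 ≤ X := hX₀.1.trans h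
    obtain ⟨a1, a2, a3, a4, a6⟩ := hL₀ (Real.log X) (hX₀.2 X h)
    have h1 := big3 hO hM hW hC (hP1 X hX16) hP3 hX a1 a2 a3 a4 a6
    have h2 : (X : ℝ) ^ ((5 : ℝ) / 8) = Real.exp (5 / 8 * Real.log X) := by
      rw [Real.rpow_def_of_pos (by linarith), mul_comm]
    rw [← h2] at h1
    have h3 := ih (X / 2) (by omega) (by omega)
    have hsplit : (Finset.Icc 1 X).filter (fun D : ℕ => Squarefree D ∧
        onoInvariant (fundDisc (-(D : ℤ))) = (fundDisc (-(D : ℤ))).natAbs.primeFactors.card) ⊆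
      ((Finset.Icc 1 (X / 2)).filter (fun D : ℕ => Squarefree D ∧
        onoInvariant (fundDisc (-(D : ℤ))) = (fundDisc (-(D : ℤ))).natAbs.primeFactors.card)) ∪
      ((Finset.Icc (X / 2 + 1) X).filter (fun D : ℕ => Squarefree D ∧
        onoInvariant (fundDisc (-(D : ℤ))) = (fundDisc (-(D : ℤ))).natAbs.primeFactors.card)) := by
      intro D hD
      rw [mem_union, mem_filter, mem_filter, mem_Icc, mem_Icc]
      rw [mem_filter, mem_Icc] at hD
      rcases Nat.lt_or_ge (X / 2) D with h5 | h5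
      · exact Or.inr ⟨⟨h5, hD.1.2⟩, hD.2⟩
      · exact Or.inl ⟨⟨hD.1.1, h5⟩, hD.2⟩
    have hc := (card_le_card hsplit).trans (card_union_le _ _)
    have hc' : (((Finset.Icc 1 X).filter (fun D : ℕ => Squarefree D ∧
        onoInvariant (fundDisc (-(D : ℤ))) = (fundDisc (-(D : ℤ))).natAbs.primeFactors.card)).card : ℝ) ≤
      (((Finset.Icc 1 (X / 2)).filter (fun D : ℕ => Squarefree D ∧
        onoInvariant (fundDisc (-(D : ℤ))) = (fundDisc (-(D : ℤ))).natAbs.primeFactors.card)).card : ℝ) +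
      (((Finset.Icc (X / 2 + 1) X).filter (fun D : ℕ => Squarefree D ∧
        onoInvariant (fundDisc (-(D : ℤ))) = (fundDisc (-(D : ℤ))).natAbs.primeFactors.card)).card : ℝ) := by
      exact_mod_cast hc
    have h6 : (((X / 2 : ℕ)) : ℝ) ^ ((5 : ℝ) / 8) ≤ 3 / 4 * (X : ℝ) ^ ((5 : ℝ) / 8) := by
      have e1 : (((X / 2 : ℕ)) : ℝ) ≤ (X : ℝ) / 2 := Nat.cast_div_le
      have e2 : (((X / 2 : ℕ)) : ℝ) ^ ((5 : ℝ) / 8) ≤ ((X : ℝ) / 2) ^ ((5 : ℝ) / 8) :=
        Real.rpow_le_rpow (Nat.cast_nonneg _) e1 (by norm_num)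
      have e3 : ((X : ℝ) / 2) ^ ((5 : ℝ) / 8) = (X : ℝ) ^ ((5 : ℝ) / 8) * (1 / 2) ^ ((5 : ℝ) / 8) := by
        rw [← Real.mul_rpow (by linarith) (by norm_num)]
        congr 1
        ring
      have e4 : ((1 : ℝ) / 2) ^ ((5 : ℝ) / 8) ≤ 3 / 4 := by
        have e5 : ((1 : ℝ) / 2) ^ ((5 : ℝ) / 8) ≤ ((1 : ℝ) / 2) ^ ((1 : ℝ) / 2) :=
          Real.rpow_le_rpow_of_exponent_ge (by norm_num) (by norm_num) (by norm_num)
        refine e5.trans ?_
        rw [← Real.sqrt_eq_rpow]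
        rw [Real.sqrt_le_left (by norm_num)]
        norm_num
      rw [e3] at e2
      have e6 : (X : ℝ) ^ ((5 : ℝ) / 8) * (1 / 2) ^ ((5 : ℝ) / 8) ≤ (X : ℝ) ^ ((5 : ℝ) / 8) * (3 / 4) :=
        mul_le_mul_of_nonneg_left e4 (by linarith)
      linarith
    have h7 : max 12 (X₀ : ℝ) * (((X / 2 : ℕ)) : ℝ) ^ ((5 : ℝ) / 8) ≤
        max 12 (X₀ : ℝ) * (3 / 4 * (X : ℝ) ^ ((5 : ℝ) / 8)) := mul_le_mul_of_nonneg_left h6 (by linarith)
    have h8 : 12 * (X : ℝ) ^ ((5 : ℝ) / 8) ≤ max 12 (X₀ : ℝ) * (X : ℝ) ^ ((5 : ℝ) / 8) :=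
      mul_le_mul_of_nonneg_right h12 (by linarith)
    linarith

end Pool.Agent.OS.Asm389
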