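import Pool.Agent.OS.Stmts3
import Pool.Agent.OS.Asm73

/-! # Row ASM3: assembly with the exponent `5 / 8`, dyadic blocks -/

namespace Pool.Agent.OS.A73

open Finset Pool.Agent.OS

theorem params3 (C : ℝ) (hC : 0 < C) (t₀ : ℕ) : ∃ X₀ : ℕ, ∀ X : ℕ, X₀ ≤ X →
    16 ≤ X ∧ (t₀ : ℝ) ≤ Real.log X ∧ 1000000 ≤ Real.log (Real.log X) ∧
    Real.exp (Real.log (Real.log X)) = Real.log X ∧
    Real.log (Real.log X) ^ 2 / 2 ≤ Real.log X ∧
    Real.exp (0.995 * Real.log (Real.log X)) * (C * Real.log (Real.log X)) ≤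
      0.0005 * Real.log X := by
  set l₀ : ℝ := 1000000 + t₀ + 160000000 * C with hl₀
  refine ⟨⌈Real.exp (Real.exp l₀)⌉₊, fun X hX => ?_⟩
  have hX1 : Real.exp (Real.exp l₀) ≤ X := (Nat.le_ceil _).trans (by exact_mod_cast hX)
  have hX0 : (0 : ℝ) < X := (Real.exp_pos _).trans_le hX1
  have hL : Real.exp l₀ ≤ Real.log X := by
    rw [← Real.log_exp (Real.exp l₀)]
    exact Real.log_le_log (Real.exp_pos _) hX1
  have hLpos : 0 < Real.log X := (Real.exp_pos _).trans_le hL
  have hl : l₀ ≤ Real.log (Real.log X) := by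
    rw [← Real.log_exp l₀]
    exact Real.log_le_log (Real.exp_pos _) hL
  have hexp : Real.exp (Real.log (Real.log X)) = Real.log X := Real.exp_log hLpos
  set l := Real.log (Real.log X) with hldef
  have ht0 : (0 : ℝ) ≤ t₀ := Nat.cast_nonneg _
  have hCe : 0 ≤ 160000000 * C := by positivity
  have hl1200 : 1000000 ≤ l := by linarith
  have hlC : 160000000 * C ≤ l := by linarith
  have hlt : (t₀ : ℝ) ≤ l := by linarith
  have hq := Real.quadratic_le_exp_of_nonneg (show (0 : ℝ) ≤ l by linarith)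
  rw [hexp] at hq
  have hLl : l ≤ Real.log X := by nlinarith
  have hLX : Real.log X ≤ X := by
    have := Real.add_one_le_exp (Real.log X)
    rw [Real.exp_log hX0] at this
    linarith
  refine ⟨?_, hlt.trans hLl, hl1200, hexp, by nlinarith, ?_⟩
  · have : (16 : ℝ) ≤ X := by linarith
    exact_mod_cast this
  · have h1 : Real.exp (0.005 * l) * Real.exp (0.995 * l) = Real.log X := by
      rw [← Real.exp_add, ← hexp]; congr 1; ring
    have h2 := Real.quadratic_le_exp_of_nonneg (show (0 : ℝ) ≤ 0.005 * l by linarith)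
    have h3 : C * l ≤ 0.0005 * Real.exp (0.005 * l) := by
      have h5 : C * l ≤ 0.0005 * ((0.005 * l) ^ 2 / 2) := by nlinarith
      linarith
    have h4 : 0 < Real.exp (0.995 * l) := Real.exp_pos _
    calc Real.exp (0.995 * l) * (C * l) ≤ Real.exp (0.995 * l) * (0.0005 * Real.exp (0.005 * l)) :=
          mul_le_mul_of_nonneg_left h3 h4.le
      _ = 0.0005 * (Real.exp (0.005 * l) * Real.exp (0.995 * l)) := by ring
      _ = 0.0005 * Real.log X := by rw [h1]

/-- the number of solutions up to `X` -/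
noncomputable def cnt (X : ℕ) : ℕ := ((Finset.Icc 1 X).filter (fun D : ℕ => Squarefree D ∧
    onoInvariant (fundDisc (-(D : ℤ))) = (fundDisc (-(D : ℤ))).natAbs.primeFactors.card)).card

theorem dyadic (hOno : Ono) (hMom : Mom3) (hOm : Om) (hP1 : Pri1) (hP3 : Pri3) :
    ∃ X₀ : ℕ, ∀ X : ℕ, X₀ ≤ X → 1 ≤ X →
      (cnt X : ℝ) ≤ cnt (X / 2) + 4 * (X : ℝ) ^ ((5 : ℝ) / 8) := by
  classical
  obtain ⟨C, hC, hS⟩ := hP1
  obtain ⟨t₀, ht₀⟩ := hP3 0.005 (by norm_num)
  obtain ⟨X₀, hX₀⟩ := params3 C hC t₀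
  refine ⟨X₀, fun X hge hX1 => ?_⟩
  have hXpos : (0 : ℝ) < X := by exact_mod_cast hX1
  obtain ⟨h16, htt, h1200, hexp, hq, hz⟩ := hX₀ X hge
  have hS' := hS X h16
  set L := Real.log X with hL
  set l := Real.log L with hl
  have hlpos : 0 < l := by linarith
  have hLl2 : 500000 * l ≤ L := by nlinarith
  have hLbig : 720000 ≤ L := by nlinarith
  have hLpos : 0 < L := by linarith
  have hXexp : (X : ℝ) = Real.exp L := (Real.exp_log hXpos).symm
  have hX9 : (X : ℝ) ^ ((5 : ℝ) / 8) = Real.exp (0.625 * L) := by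
    rw [Real.rpow_def_of_pos hXpos]; congr 1; rw [← hL]; ring
  set k := ⌊0.234 * L / l⌋₊ with hk
  have hk1 : (k : ℝ) ≤ 0.234 * L / l := Nat.floor_le (by positivity)
  have hk2 : 0.234 * L / l < k + 1 := Nat.lt_floor_add_one _
  set W := ⌈0.378 * L / l⌉₊ with hW
  have hW1 : 0.378 * L / l ≤ W := Nat.le_ceil _
  have hW2 : (W : ℝ) < 0.378 * L / l + 1 := Nat.ceil_lt_add_one (by positivity)
  have hkl : (k : ℝ) * l ≤ 0.234 * L := by
    rwa [le_div_iff₀ hlpos] at hk1
  have hkl2 : 0.234 * L - l ≤ (k : ℝ) * l := by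
    rw [div_lt_iff₀ hlpos] at hk2
    linarith
  have hWl : 0.378 * L ≤ (W : ℝ) * l := by
    rwa [div_le_iff₀ hlpos] at hW1
  have hWl2 : (W : ℝ) * l ≤ 0.378 * L + l := by
    have : (W : ℝ) * l ≤ (0.378 * L / l + 1) * l := mul_le_mul_of_nonneg_right hW2.le hlpos.le
    have e : (0.378 * L / l + 1) * l = 0.378 * L + l := by field_simp
    rwa [e] at this
  have hkL : (k : ℝ) ≤ Real.exp l := by
    rw [hexp]
    refine hk1.trans ?_
    rw [div_le_iff₀ hlpos]
    nlinarith
  -- the bound for the primes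
  set y := ⌊Real.exp (2.64 * l)⌋₊ with hy
  have hy1 : (y : ℝ) ≤ Real.exp (2.64 * l) := Nat.floor_le (Real.exp_pos _).le
  have hy2 : Real.exp (2.64 * l) < y + 1 := Nat.lt_floor_add_one _
  have hyL : L + 1 ≤ Real.exp (2.64 * l) := by
    have h1 : Real.exp (2.64 * l) = Real.exp l * Real.exp (1.64 * l) := by
      rw [← Real.exp_add]; congr 1; ring
    rw [h1, hexp]
    have h2 := Real.add_one_le_exp (1.64 * l)
    have h3 : (2 : ℝ) ≤ Real.exp (1.64 * l) := by linarith
    nlinarith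
  have hyL' : L ≤ y := by linarith
  have hypos : (0 : ℝ) < y := by linarith
  have hy1' : 1 ≤ y := by exact_mod_cast (by linarith : (1 : ℝ) ≤ y)
  have ht4 : t₀ ≤ y := by exact_mod_cast htt.trans hyL'
  -- the block size
  set m := ⌊Real.exp (1.62 * l)⌋₊ with hm
  have hm1 : (m : ℝ) ≤ Real.exp (1.62 * l) := Nat.floor_le (Real.exp_pos _).le
  have hm2 : Real.exp (1.62 * l) < m + 1 := Nat.lt_floor_add_one _
  have hmL : L + 1 ≤ Real.exp (1.62 * l) := by
    have h1 : Real.exp (1.62 * l) = Real.exp l * Real.exp (0.62 * l) := by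
      rw [← Real.exp_add]; congr 1; ring
    rw [h1, hexp]
    have h2 := Real.add_one_le_exp (0.62 * l)
    have h3 : (2 : ℝ) ≤ Real.exp (0.62 * l) := by linarith
    nlinarith
  have hmL' : L ≤ m := by linarith
  have hm1' : 1 ≤ m := by exact_mod_cast (by linarith : (1 : ℝ) ≤ m)
  -- the primes
  have hkm : k * m ≤ ((Finset.Icc 1 y).filter (fun p => p.Prime ∧ p ≠ 2)).card := by
    have h1 := ht₀ y ht4
    have h2 : (k : ℝ) * m ≤ Real.exp (2.62 * l) := by
      calc (k : ℝ) * m ≤ Real.exp l * Real.exp (1.62 * l) :=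
            mul_le_mul hkL hm1 (Nat.cast_nonneg _) (Real.exp_pos _).le
        _ = Real.exp (2.62 * l) := by rw [← Real.exp_add]; congr 1; ring
    have h3 : Real.exp (2.62 * l) ≤ (y : ℝ) ^ ((1 : ℝ) - 0.005) := by
      have hlog : 2.64 * l - 1 ≤ Real.log y := by
        have h4 : Real.exp (2.64 * l - 1) ≤ y := by
          have h5 : Real.exp (2.64 * l) = Real.exp (2.64 * l - 1) * Real.exp 1 := by
            rw [← Real.exp_add]; congr 1; ring
          have h6 : (2 : ℝ) ≤ Real.exp 1 := by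
            have := Real.add_one_le_exp (1 : ℝ)
            linarith
          have h7 : Real.exp (2.64 * l - 1) * 2 ≤ Real.exp (2.64 * l - 1) * Real.exp 1 :=
            mul_le_mul_of_nonneg_left h6 (Real.exp_pos _).le
          rw [← h5] at h7
          linarith
        calc 2.64 * l - 1 = Real.log (Real.exp (2.64 * l - 1)) := (Real.log_exp _).symm
          _ ≤ Real.log y := Real.log_le_log (Real.exp_pos _) h4
      rw [Real.rpow_def_of_pos hypos]
      apply Real.exp_le_exp.2
      nlinarith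
    exact_mod_cast h2.trans (h3.trans h1)
  obtain ⟨P, hP1, hP2⟩ := blocks m k _ hkm
  have hPp : ∀ i < k, ∀ p ∈ P i, p.Prime ∧ p ≠ 2 ∧ p ≤ y := by
    intro i hi p hp
    have := mem_filter.1 ((hP1 i hi).1 hp)
    exact ⟨this.2.1, this.2.2, (mem_Icc.1 this.1).2⟩
  -- three sets
  set T1 := (Finset.Icc 1 (X / 2)).filter (fun D : ℕ => Squarefree D ∧
    onoInvariant (fundDisc (-(D : ℤ))) = (fundDisc (-(D : ℤ))).natAbs.primeFactors.card) with hT1
  set A2 := (Finset.Icc 1 X).filter (fun n : ℕ => W ≤ n.primeFactors.card) with hA2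
  set A3 := (Finset.Icc 1 X).filter (fun n : ℕ => (∀ i < k, ∀ p ∈ P i, jacobiSym (-(n : ℤ)) p ≠ 1) ∧
    2 * n.primeFactors.card ≤ m) with hA3
  have hsub : (Finset.Icc 1 X).filter (fun D : ℕ => Squarefree D ∧
      onoInvariant (fundDisc (-(D : ℤ))) = (fundDisc (-(D : ℤ))).natAbs.primeFactors.card)
      ⊆ T1 ∪ A2 ∪ A3 := by
    intro D hD
    obtain ⟨hDI, hsq, hF⟩ := mem_filter.1 hD
    by_cases c1 : D ≤ X / 2
    · exact mem_union_left _ (mem_union_left _ (mem_filter.2
        ⟨mem_Icc.2 ⟨(mem_Icc.1 hDI).1, c1⟩, hsq, hF⟩))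
    by_cases c2 : W ≤ D.primeFactors.card
    · exact mem_union_left _ (mem_union_right _ (mem_filter.2 ⟨hDI, c2⟩))
    refine mem_union_right _ (mem_filter.2 ⟨hDI, ?_, ?_⟩)
    · intro i hi p hp hj
      obtain ⟨hpp, hp2, hpy⟩ := hPp i hi p hp
      obtain ⟨hnd, hy⟩ := split_of_jacobi D p hpp hj
      have hD1 : 1 ≤ D := (mem_Icc.1 hDI).1
      obtain ⟨hd1, hd2⟩ := disc_bounds D hD1
      have hbig : 4 * p ^ (D.primeFactors.card + 2) ≤ (fundDisc (-(D : ℤ))).natAbs := by
        refine le_trans ?_ hd1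
        have e1 : p ^ (D.primeFactors.card + 2) ≤ y ^ (W + 1) := by
          calc p ^ (D.primeFactors.card + 2) ≤ y ^ (D.primeFactors.card + 2) :=
                Nat.pow_le_pow_left hpy _
            _ ≤ y ^ (W + 1) := Nat.pow_le_pow_right hy1' (by omega)
        have e2 : (8 : ℝ) * (y : ℝ) ^ (W + 1) ≤ X := by
          have e4 : (y : ℝ) ^ (W + 1) ≤ Real.exp (2.64 * (W + 1) * l) := by
            calc (y : ℝ) ^ (W + 1) ≤ (Real.exp (2.64 * l)) ^ (W + 1) :=
                  pow_le_pow_left₀ hypos.le hy1 _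
              _ = Real.exp (2.64 * (W + 1) * l) := by
                  rw [← Real.exp_nat_mul]; congr 1; push_cast; ring
          have e5 : (8 : ℝ) ≤ Real.exp l := by
            have := Real.add_one_le_exp l
            linarith
          calc (8 : ℝ) * (y : ℝ) ^ (W + 1) ≤ Real.exp l * Real.exp (2.64 * (W + 1) * l) :=
                mul_le_mul e5 e4 (by positivity) (Real.exp_pos _).le
            _ = Real.exp (l + 2.64 * (W + 1) * l) := (Real.exp_add _ _).symm
            _ ≤ X := by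
                rw [hXexp]
                apply Real.exp_le_exp.2
                nlinarith
        have e6 : 8 * p ^ (D.primeFactors.card + 2) ≤ X := by
          have : ((p ^ (D.primeFactors.card + 2) : ℕ) : ℝ) ≤ ((y ^ (W + 1) : ℕ) : ℝ) := by
            exact_mod_cast e1
          push_cast at this
          have h9 : (8 : ℝ) * (p : ℝ) ^ (D.primeFactors.card + 2) ≤ X := by linarith
          exact_mod_cast h9
        omega
      have := hOno D p (D.primeFactors.card + 2) hD1 hpp hp2 hnd hy hbig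
      rw [hF] at this
      omega
    · have h5 : 2 * D.primeFactors.card ≤ 2 * W := by omega
      refine h5.trans ?_
      have h6 : (2 : ℝ) * W ≤ m := by
        refine le_trans ?_ hmL'
        have : (2 * (W : ℝ)) * l ≤ L * l := by nlinarith
        exact le_of_mul_le_mul_right this hlpos
      exact_mod_cast h6
  -- bound 2
  have hb2 : (A2.card : ℝ) ≤ Real.exp (0.625 * L) := by
    have h1 := hOm X W (Real.exp (0.995 * l)) (Real.exp_pos _).le
    have h2 : (X : ℝ) * Real.exp (Real.exp (0.995 * l) *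
        ∑ p ∈ (Finset.Icc 1 X).filter Nat.Prime, (1 : ℝ) / p) ≤ Real.exp (1.0005 * L) := by
      rw [hXexp, ← Real.exp_add]
      apply Real.exp_le_exp.2
      have : Real.exp (0.995 * l) * ∑ p ∈ (Finset.Icc 1 X).filter Nat.Prime, (1 : ℝ) / p
          ≤ Real.exp (0.995 * l) * (C * l) := mul_le_mul_of_nonneg_left hS' (Real.exp_pos _).le
      linarith
    have h3 : Real.exp (0.376 * L) ≤ (1 + Real.exp (0.995 * l)) ^ W := by
      calc Real.exp (0.376 * L) ≤ Real.exp (W * (0.995 * l)) := by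
            apply Real.exp_le_exp.2
            linarith
        _ = (Real.exp (0.995 * l)) ^ W := Real.exp_nat_mul _ _
        _ ≤ _ := pow_le_pow_left₀ (Real.exp_pos _).le (by linarith [Real.exp_pos (0.995 * l)]) _
    have h4 : (A2.card : ℝ) * Real.exp (0.376 * L) ≤
        Real.exp (0.625 * L) * Real.exp (0.376 * L) := by
      calc (A2.card : ℝ) * Real.exp (0.376 * L) ≤
            A2.card * (1 + Real.exp (0.995 * l)) ^ W :=
            mul_le_mul_of_nonneg_left h3 (Nat.cast_nonneg _)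
        _ ≤ _ := h1
        _ ≤ Real.exp (1.0005 * L) := h2
        _ ≤ _ := by
            rw [← Real.exp_add]
            apply Real.exp_le_exp.2
            linarith
    exact le_of_mul_le_mul_right h4 (Real.exp_pos _)
  -- bound 3
  have hb3 : (A3.card : ℝ) ≤ 2 * Real.exp (0.625 * L) := by
    have h1 := hMom k m X y P hm1' hy1' (fun i hi => ⟨(hP1 i hi).2, hPp i hi⟩) hP2
    have hmpos : (0 : ℝ) < (m : ℝ) := by linarith
    have hB : 0 < ((m : ℝ) / 2) ^ (2 * k) := by positivity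
    have h2 : (m : ℝ) ^ k * X ≤ Real.exp (0.625 * L) * ((m : ℝ) / 2) ^ (2 * k) := by
      have e1 : ((m : ℝ) / 2) ^ (2 * k) = (m : ℝ) ^ k * ((m : ℝ) / 4) ^ k := by
        rw [pow_mul, ← mul_pow]; congr 1; ring
      rw [e1, hXexp]
      have e2 : Real.exp (1.615 * l) ≤ (m : ℝ) / 4 := by
        have e3 : Real.exp (1.62 * l) ≤ 2 * m := by linarith
        have h8e : (8 : ℝ) ≤ Real.exp (0.005 * l) := by
          have := Real.add_one_le_exp (0.005 * l)
          linarith
        have e4 : Real.exp (1.615 * l) * Real.exp (0.005 * l) = Real.exp (1.62 * l) := by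
          rw [← Real.exp_add]; congr 1; ring
        have e5 : Real.exp (1.615 * l) * 8 ≤ Real.exp (1.615 * l) * Real.exp (0.005 * l) :=
          mul_le_mul_of_nonneg_left h8e (Real.exp_pos _).le
        rw [e4] at e5
        linarith
      have e7 : Real.exp (0.375 * L) ≤ ((m : ℝ) / 4) ^ k := by
        calc Real.exp (0.375 * L) ≤ Real.exp (k * (1.615 * l)) := by
              apply Real.exp_le_exp.2
              linarith
          _ = (Real.exp (1.615 * l)) ^ k := Real.exp_nat_mul _ _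
          _ ≤ _ := pow_le_pow_left₀ (Real.exp_pos _).le e2 _
      calc (m : ℝ) ^ k * Real.exp L
          = (m : ℝ) ^ k * (Real.exp (0.625 * L) * Real.exp (0.375 * L)) := by
            rw [← Real.exp_add]; congr 2; ring
        _ ≤ (m : ℝ) ^ k * (Real.exp (0.625 * L) * ((m : ℝ) / 4) ^ k) := by
            apply mul_le_mul_of_nonneg_left _ (by positivity)
            exact mul_le_mul_of_nonneg_left e7 (Real.exp_pos _).le
        _ = Real.exp (0.625 * L) * ((m : ℝ) ^ k * ((m : ℝ) / 4) ^ k) := by ring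
    have h3 : (m : ℝ) ^ (2 * k) * (2 * (y : ℝ)) ^ k * (1 + 2 * k * Real.log y) ≤
        Real.exp (0.625 * L) * ((m : ℝ) / 2) ^ (2 * k) := by
      have e1 : (m : ℝ) ^ (2 * k) = 4 ^ k * ((m : ℝ) / 2) ^ (2 * k) := by
        have : (4 : ℝ) ^ k = 2 ^ (2 * k) := by rw [pow_mul]; norm_num
        rw [this, ← mul_pow]; congr 1; ring
      have e2 : 8 * (y : ℝ) ≤ Real.exp (2.641 * l) := by
        have e4 : (8 : ℝ) ≤ Real.exp (0.001 * l) := by
          have := Real.add_one_le_exp (0.001 * l)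
          linarith
        calc 8 * (y : ℝ) ≤ Real.exp (0.001 * l) * Real.exp (2.64 * l) :=
              mul_le_mul e4 hy1 hypos.le (Real.exp_pos _).le
          _ = Real.exp (2.641 * l) := by rw [← Real.exp_add]; congr 1; ring
      have e3 : (8 * (y : ℝ)) ^ k ≤ Real.exp (0.62 * L) := by
        calc (8 * (y : ℝ)) ^ k ≤ (Real.exp (2.641 * l)) ^ k :=
              pow_le_pow_left₀ (by positivity) e2 _
          _ = Real.exp (k * (2.641 * l)) := (Real.exp_nat_mul _ _).symm
          _ ≤ Real.exp (0.62 * L) := by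
              apply Real.exp_le_exp.2
              linarith
      have e5 : 1 + 2 * (k : ℝ) * Real.log y ≤ Real.exp (0.005 * L) := by
        have e6 : Real.log y ≤ 2.64 * l := by
          rw [← Real.log_exp (2.64 * l)]
          exact Real.log_le_log hypos hy1
        have e7 : 2 * (k : ℝ) * Real.log y ≤ 2 * (k : ℝ) * (2.64 * l) :=
          mul_le_mul_of_nonneg_left e6 (by positivity)
        have e8 := Real.quadratic_le_exp_of_nonneg (show (0 : ℝ) ≤ 0.005 * L by positivity)
        nlinarith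
      have e9 : 0 ≤ 1 + 2 * (k : ℝ) * Real.log y := by
        have : 0 ≤ Real.log (y : ℝ) := Real.log_nonneg (by exact_mod_cast hy1')
        positivity
      calc (m : ℝ) ^ (2 * k) * (2 * (y : ℝ)) ^ k * (1 + 2 * k * Real.log y)
          = ((8 * (y : ℝ)) ^ k * (1 + 2 * k * Real.log y)) * ((m : ℝ) / 2) ^ (2 * k) := by
            rw [e1, show (8 : ℝ) * y = 4 * (2 * y) by ring, mul_pow 4 (2 * (y : ℝ))]; ring
        _ ≤ (Real.exp (0.62 * L) * Real.exp (0.005 * L)) * ((m : ℝ) / 2) ^ (2 * k) := by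
            apply mul_le_mul_of_nonneg_right _ hB.le
            exact mul_le_mul e3 e5 e9 (Real.exp_pos _).le
        _ = Real.exp (0.625 * L) * ((m : ℝ) / 2) ^ (2 * k) := by
            rw [← Real.exp_add]; congr 2; ring
    have h4 : (A3.card : ℝ) * ((m : ℝ) / 2) ^ (2 * k) ≤
        2 * Real.exp (0.625 * L) * ((m : ℝ) / 2) ^ (2 * k) := by
      linarith [h1]
    exact le_of_mul_le_mul_right h4 hB
  have hcard : (cnt X : ℝ) ≤ cnt (X / 2) + A2.card + A3.card := by
    have h1 := card_le_card hsub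
    have h2 := card_union_le (T1 ∪ A2) A3
    have h3 := card_union_le T1 A2
    unfold cnt
    exact_mod_cast (by omega : _ ≤ T1.card + A2.card + A3.card)
  rw [hX9]
  have h0 := Real.exp_pos (0.625 * L)
  linarith

theorem asm3_73 : Asm3 := by
  intro hOno hMom hOm hP1 hP3
  obtain ⟨X₀, hX₀⟩ := dyadic hOno hMom hOm hP1 hP3
  refine ⟨16 + X₀, ?_⟩
  have key : ∀ X : ℕ, 1 ≤ X → (cnt X : ℝ) ≤ (16 + X₀) * (X : ℝ) ^ ((5 : ℝ) / 8) := by
    intro X
    induction X using Nat.strong_induction_on with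
    | _ X ih =>
      intro hX1
      have hXpos : (0 : ℝ) < X := by exact_mod_cast hX1
      have hX1' : (1 : ℝ) ≤ X := by exact_mod_cast hX1
      have hpow1 : (1 : ℝ) ≤ (X : ℝ) ^ ((5 : ℝ) / 8) := Real.one_le_rpow hX1' (by norm_num)
      have hX0 : (0 : ℝ) ≤ X₀ := Nat.cast_nonneg _
      have htriv : (cnt X : ℝ) ≤ X := by
        have h := card_filter_le (Finset.Icc 1 X) (fun D : ℕ => Squarefree D ∧
          onoInvariant (fundDisc (-(D : ℤ))) = (fundDisc (-(D : ℤ))).natAbs.primeFactors.card)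
        rw [Nat.card_Icc, Nat.add_sub_cancel] at h
        exact_mod_cast h
      rcases Nat.lt_or_ge X (X₀ + 2) with hlt | hge
      · have h2 : (X : ℝ) ≤ X₀ + 2 := by exact_mod_cast hlt.le
        nlinarith
      · have h1 := hX₀ X (by omega) hX1
        have h2 := ih (X / 2) (by omega) (by omega)
        have h3 : ((X / 2 : ℕ) : ℝ) ^ ((5 : ℝ) / 8) ≤ 3 / 4 * (X : ℝ) ^ ((5 : ℝ) / 8) := by
          have h4 : ((X / 2 : ℕ) : ℝ) ≤ (1 / 2) * (X : ℝ) := by
            have : ((X / 2 : ℕ) : ℝ) ≤ (X : ℝ) / 2 := Nat.cast_div_le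
            linarith
          have h5 : (((1 : ℝ) / 2)) ^ ((5 : ℝ) / 8) ≤ 3 / 4 := by
            have h6 : (((1 : ℝ) / 2)) ^ ((5 : ℝ) / 8) ≤ (((1 : ℝ) / 2)) ^ ((1 : ℝ) / 2) :=
              Real.rpow_le_rpow_of_exponent_ge (by norm_num) (by norm_num) (by norm_num)
            rw [← Real.sqrt_eq_rpow] at h6
            refine h6.trans (Real.sqrt_le_iff.2 ⟨by norm_num, by norm_num⟩)
          calc ((X / 2 : ℕ) : ℝ) ^ ((5 : ℝ) / 8) ≤ ((1 / 2) * (X : ℝ)) ^ ((5 : ℝ) / 8) :=
                Real.rpow_le_rpow (Nat.cast_nonneg _) h4 (by norm_num)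
            _ = ((1 : ℝ) / 2) ^ ((5 : ℝ) / 8) * (X : ℝ) ^ ((5 : ℝ) / 8) :=
                Real.mul_rpow (by norm_num) hXpos.le
            _ ≤ _ := mul_le_mul_of_nonneg_right h5 (by positivity)
        have h7 : (16 + (X₀ : ℝ)) * ((X / 2 : ℕ) : ℝ) ^ ((5 : ℝ) / 8) ≤
            (16 + (X₀ : ℝ)) * (3 / 4 * (X : ℝ) ^ ((5 : ℝ) / 8)) :=
          mul_le_mul_of_nonneg_left h3 (by positivity)
        nlinarith
  intro X hX
  exact key X hX

end Pool.Agent.OS.A73
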