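import Pool.Agent.OS.Stmts

/-!
# Row CHAR: sums of Jacobi symbols
-/

set_option autoImplicit false

namespace Pool.Agent.OS.Char89

open Finset

/-- an odd exponent -/
lemma odd_exp (M : ℕ) (hM : Odd M) (hs : ¬ IsSquare M) :
    ∃ p e M' : ℕ, p.Prime ∧ p ≠ 2 ∧ Odd e ∧ M = p ^ e * M' ∧ p.Coprime M' := by
  have hM0 : M ≠ 0 := by rintro rfl; simp at hM
  obtain ⟨a, b, hab, ha⟩ := Nat.sq_mul_squarefree M
  have hb0 : b ≠ 0 := by rintro rfl; simp at hab; exact hM0 hab.symm
  have ha0 : a ≠ 0 := by rintro rfl; simp at hab; exact hM0 hab.symm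
  have ha1 : a ≠ 1 := by
    rintro rfl
    apply hs
    exact ⟨b, by rw [← hab]; ring⟩
  obtain ⟨p, hp, hpa⟩ := Nat.exists_prime_and_dvd ha1
  have hpM : p ∣ M := by rw [← hab]; exact hpa.mul_left _
  refine ⟨p, M.factorization p, M / p ^ M.factorization p, hp, ?_, ?_, ?_, ?_⟩
  · rintro rfl
    rw [Nat.odd_iff] at hM
    omega
  · have h1 : M.factorization p = 2 * b.factorization p + a.factorization p := by
      rw [← hab, Nat.factorization_mul (pow_ne_zero 2 hb0) ha0, Nat.factorization_pow]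
      simp
    have h2 : a.factorization p ≤ 1 := ha.natFactorization_le_one p
    have h3 : 1 ≤ a.factorization p := (hp.dvd_iff_one_le_factorization ha0).mp hpa
    rw [h1]
    exact ⟨b.factorization p, by omega⟩
  · exact (Nat.ordProj_mul_ordCompl_eq_self M p).symm
  · exact Nat.coprime_ordCompl hp hM0

lemma exists_u (M : ℕ) (hM : Odd M) (hs : ¬ IsSquare M) : ∃ u : ℕ, jacobiSym (u : ℤ) M = -1 := by
  obtain ⟨p, e, M', hp, hp2, he, hMe, hcop⟩ := odd_exp M hM hs
  have : Fact p.Prime := ⟨hp⟩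
  have hM0 : M ≠ 0 := by rintro rfl; simp at hM
  have hM'0 : M' ≠ 0 := by rintro rfl; simp at hMe; exact hM0 hMe
  obtain ⟨g, hg⟩ := FiniteField.exists_nonsquare (F := ZMod p) (by rw [ZMod.ringChar_zmod_n]; exact hp2)
  obtain ⟨u, hu1, hu2⟩ := Nat.chineseRemainder hcop g.val 1
  refine ⟨u, ?_⟩
  have : NeZero (p ^ e) := ⟨pow_ne_zero e hp.ne_zero⟩
  have : NeZero M' := ⟨hM'0⟩
  rw [hMe, jacobiSym.mul_right, jacobiSym.pow_right]
  have h1 : jacobiSym (u : ℤ) p = -1 := by
    rw [← jacobiSym.legendreSym.to_jacobiSym, legendreSym.eq_neg_one_iff]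
    have : ((u : ℤ) : ZMod p) = g := by
      have h2 : ((u : ℕ) : ZMod p) = ((g.val : ℕ) : ZMod p) := (ZMod.natCast_eq_natCast_iff _ _ _).mpr hu1
      rw [ZMod.natCast_zmod_val] at h2
      exact_mod_cast h2
    rw [this]
    exact hg
  have h2 : jacobiSym (u : ℤ) M' = 1 := by
    have h3 : (u : ℤ) % M' = (1 : ℤ) % M' := by
      have : (u : ℤ) ≡ ((1 : ℕ) : ℤ) [ZMOD M'] := Int.natCast_modEq_iff.mpr hu2
      exact_mod_cast this
    rw [jacobiSym.mod_left, h3, ← jacobiSym.mod_left, jacobiSym.one_left]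
  rw [h1, h2, he.neg_one_pow]
  norm_num

theorem char89 : Char := by
  intro M X hM hs
  obtain ⟨u, hu⟩ := exists_u M hM hs
  have hM0 : M ≠ 0 := by rintro rfl; simp at hM
  have hM1 : M ≠ 1 := by rintro rfl; exact hs ⟨1, rfl⟩
  have : NeZero M := ⟨hM0⟩
  set f : ℕ → ℤ := fun n => jacobiSym (-(n : ℤ)) M with hf
  have hper : ∀ n, f (n + M) = f n := by
    intro n
    simp only [hf]
    rw [jacobiSym.mod_left, jacobiSym.mod_left (-(n : ℤ))]
    congr 1
    push_cast
    have : (-((n : ℤ) + M)) = -(n : ℤ) + (-1) * M := by ring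
    rw [this, Int.add_mul_emod_self_right]
  have hmodf : ∀ n, f (n % M) = f n := fun n => by
    have : Function.Periodic f M := hper
    exact this.map_mod_nat n
  -- the sum over a period
  have hzero : ∑ n ∈ range M, f n = 0 := by
    have hcop : u.Coprime M := by
      by_contra hcon
      have : jacobiSym (u : ℤ) M = 0 := by
        rw [jacobiSym.eq_zero_iff_not_coprime]
        simpa [Int.gcd_natCast_natCast] using hcon
      rw [this] at hu
      norm_num at hu
    have h1 : ∑ n ∈ range M, f n = ∑ n ∈ range M, f (u * n) := by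
      symm
      have h2 : ∑ n ∈ range M, f (u * n) = ∑ n ∈ range M, f (u * n % M) :=
        sum_congr rfl (fun n _ => (hmodf (u * n)).symm)
      rw [h2]
      apply sum_bij (fun n _ => u * n % M)
      · intro n _
        exact mem_range.mpr (Nat.mod_lt _ (Nat.pos_of_ne_zero hM0))
      · intro a ha b hb hab
        have h3 : u * a ≡ u * b [MOD M] := hab
        have h4 : a ≡ b [MOD M] := Nat.ModEq.cancel_left_of_coprime (by rwa [Nat.Coprime, Nat.gcd_comm] at hcop) h3
        exact Nat.ModEq.eq_of_lt_of_lt h4 (mem_range.mp ha) (mem_range.mp hb)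
      · intro b hb
        obtain ⟨v, -, hv⟩ := Nat.exists_mul_mod_eq_one_of_coprime hcop (by omega : 1 < M)
        refine ⟨v * b % M, mem_range.mpr (Nat.mod_lt _ (Nat.pos_of_ne_zero hM0)), ?_⟩
        have h3 : u * (v * b % M) ≡ b [MOD M] := by
          have h5 : u * (v * b % M) ≡ u * (v * b) [MOD M] := Nat.ModEq.mul_left u (Nat.mod_modEq _ _)
          have h6 : u * (v * b) = (u * v) * b := by ring
          have h7 : u * v ≡ 1 [MOD M] := by
            rw [Nat.ModEq, hv, Nat.mod_eq_of_lt (by omega)]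
          have h8 : (u * v) * b ≡ 1 * b [MOD M] := Nat.ModEq.mul_right b h7
          rw [h6] at h5
          rw [one_mul] at h8
          exact h5.trans h8
        have h4 : u * (v * b % M) % M = b % M := h3
        rw [h4, Nat.mod_eq_of_lt (mem_range.mp hb)]
      · intro a _
        rfl
    have h2 : ∑ n ∈ range M, f (u * n) = - ∑ n ∈ range M, f n := by
      rw [← sum_neg_distrib]
      apply sum_congr rfl
      intro n _
      simp only [hf]
      have : (-((u * n : ℕ) : ℤ)) = (u : ℤ) * (-(n : ℤ)) := by push_cast; ring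
      rw [this, jacobiSym.mul_left, hu]
      ring
    rw [h2] at h1
    linarith
  -- the partial sums are periodic
  set G : ℕ → ℤ := fun N => ∑ n ∈ range N, f n with hG
  have hGper : Function.Periodic G M := by
    intro N
    simp only [hG]
    rw [add_comm N M, sum_range_add, hzero, zero_add]
    apply sum_congr rfl
    intro n _
    rw [add_comm, hper]
  have hGle : ∀ N, |G N| ≤ N := by
    intro N
    simp only [hG]
    calc |∑ n ∈ range N, f n| ≤ ∑ n ∈ range N, |f n| := abs_sum_le_sum_abs _ _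
      _ ≤ ∑ n ∈ range N, (1 : ℤ) := by
          apply sum_le_sum
          intro n _
          simp only [hf]
          rcases jacobiSym.trichotomy (-(n : ℤ)) M with h | h | h <;> rw [h] <;> norm_num
      _ = N := by simp
  have hG1 : |G (X + 1)| ≤ M := by
    rw [← hGper.map_mod_nat (X + 1)]
    refine (hGle _).trans ?_
    exact_mod_cast (Nat.mod_lt _ (Nat.pos_of_ne_zero hM0)).le
  have hf0 : f 0 = 0 := by
    simp only [hf]
    rw [Nat.cast_zero, neg_zero, jacobiSym.zero_left (by omega)]
  have hsum : ∑ n ∈ Icc 1 X, f n = G (X + 1) := by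
    simp only [hG]
    rw [sum_range_succ', hf0, add_zero]
    rw [Finset.range_eq_Ico, Finset.sum_Ico_add' (fun n => f n) 0 X 1]
    rfl
  rw [show ∑ n ∈ Icc 1 X, jacobiSym (-(n : ℤ)) M = ∑ n ∈ Icc 1 X, f n from rfl, hsum]
  exact hG1

end Pool.Agent.OS.Char89
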