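import Pool.Agent.OS.Stmts

/-!
# Row MOM: the moment of products over blocks
-/

set_option autoImplicit false

namespace Pool.Agent.OS.Mom77

open Finset

lemma notsq {p R : ℕ} (hp : p.Prime) (h : ¬ p ∣ R) : ¬ IsSquare (p * R) := by
  rintro ⟨r, hr⟩
  have h1 : p ∣ r * r := ⟨R, hr.symm⟩
  have h2 : p ∣ r := (hp.dvd_mul.1 h1).elim id id
  obtain ⟨s, rfl⟩ := h2
  apply h
  have h3 : p * R = p * (s * (p * s)) := by rw [hr]; ring
  have h4 := Nat.eq_of_mul_eq_mul_left hp.pos h3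
  exact ⟨s * s, by rw [h4]; ring⟩

lemma jprod {ι : Type} (s : Finset ι) (a : ℤ) (g : ι → ℕ) (h0 : ∀ i ∈ s, g i ≠ 0) :
    ∏ i ∈ s, jacobiSym a (g i) = jacobiSym a (∏ i ∈ s, g i) := by
  classical
  induction s using Finset.induction_on with
  | empty => simp
  | @insert b s hb ih =>
    rw [prod_insert hb, prod_insert hb, ih (fun i hi => h0 i (mem_insert_of_mem hi)),
      jacobiSym.mul_right' a (h0 b (mem_insert_self _ _))
        (prod_ne_zero_iff.2 fun i hi => h0 i (mem_insert_of_mem hi))]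

lemma jle (a : ℤ) (b : ℕ) : |jacobiSym a b| ≤ 1 := by
  rcases jacobiSym.trichotomy a b with h | h | h <;> rw [h] <;> norm_num

lemma expand (k : ℕ) (P : Fin k → Finset ℕ) (a : ℤ) (h0 : ∀ i, ∀ p ∈ P i, p ≠ 0) :
    (∏ i, ∑ p ∈ P i, jacobiSym a p) ^ 2 =
      ∑ f ∈ Fintype.piFinset (fun i => P i ×ˢ P i), jacobiSym a (∏ i, (f i).1 * (f i).2) := by
  classical
  rw [← prod_pow]
  have h1 : ∀ i, (∑ p ∈ P i, jacobiSym a p) ^ 2 =
      ∑ x ∈ P i ×ˢ P i, jacobiSym a (x.1 * x.2) := by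
    intro i
    rw [sq, sum_mul_sum, ← sum_product']
    refine sum_congr rfl fun x hx => ?_
    rw [mem_product] at hx
    rw [jacobiSym.mul_right' a (h0 i _ hx.1) (h0 i _ hx.2)]
  rw [prod_congr rfl fun i _ => h1 i, prod_univ_sum]
  refine sum_congr rfl fun f hf => ?_
  rw [Fintype.mem_piFinset] at hf
  exact jprod univ a (fun i => (f i).1 * (f i).2) fun i _ => by
    have := mem_product.1 (hf i)
    exact mul_ne_zero (h0 i _ this.1) (h0 i _ this.2)

/-- the sum of the squares -/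
lemma total (hC : Char) {k m X y : ℕ} (P : Fin k → Finset ℕ)
    (hP : ∀ i, (P i).card = m ∧ ∀ p ∈ P i, p.Prime ∧ p ≠ 2 ∧ p ≤ y)
    (hd : ∀ i j, i ≠ j → Disjoint (P i) (P j)) :
    ∑ n ∈ Icc 1 X, (∏ i, ∑ p ∈ P i, jacobiSym (-(n : ℤ)) p) ^ 2 ≤ (m : ℤ) ^ k * X + ((m : ℤ) * y) ^ (2 * k) := by
  classical
  have h0 : ∀ i, ∀ p ∈ P i, p ≠ 0 := fun i p hp => ((hP i).2 p hp).1.ne_zero
  have hx : ∀ n ∈ Icc 1 X, (∏ i, ∑ p ∈ P i, jacobiSym (-(n : ℤ)) p) ^ 2 =
      ∑ f ∈ Fintype.piFinset (fun i => P i ×ˢ P i), jacobiSym (-(n : ℤ)) (∏ i, (f i).1 * (f i).2) :=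
    fun n _ => expand k P (-(n : ℤ)) h0
  rw [sum_congr rfl hx, sum_comm]
  set F := Fintype.piFinset (fun i => P i ×ˢ P i) with hF
  have hFc : F.card = (m * m) ^ k := by
    rw [hF, Fintype.card_piFinset]
    rw [prod_congr rfl fun i _ => by rw [card_product, (hP i).1]]
    rw [prod_const, card_univ, Fintype.card_fin]
  have hdiag : (F.filter (fun f => ∀ i, (f i).1 = (f i).2)).card ≤ m ^ k := by
    have h1 : F.filter (fun f => ∀ i, (f i).1 = (f i).2) ⊆
        (Fintype.piFinset P).image (fun g => fun i => (g i, g i)) := by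
      intro f hf
      rw [mem_filter, hF, Fintype.mem_piFinset] at hf
      rw [mem_image]
      refine ⟨fun i => (f i).1, ?_, ?_⟩
      · rw [Fintype.mem_piFinset]
        intro i
        exact (mem_product.1 (hf.1 i)).1
      · funext i
        exact Prod.ext rfl (hf.2 i)
    refine (card_le_card h1).trans (card_image_le.trans (le_of_eq ?_))
    rw [Fintype.card_piFinset, prod_congr rfl fun i _ => (hP i).1, prod_const, card_univ, Fintype.card_fin]
  have hb1 : ∀ f ∈ F, ∑ n ∈ Icc 1 X, jacobiSym (-(n : ℤ)) (∏ i, (f i).1 * (f i).2) ≤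
      (if ∀ i, (f i).1 = (f i).2 then (X : ℤ) else 0) + (y : ℤ) ^ (2 * k) := by
    intro f hf
    rw [hF, Fintype.mem_piFinset] at hf
    have hfi : ∀ i, (f i).1 ∈ P i ∧ (f i).2 ∈ P i := fun i => mem_product.1 (hf i)
    by_cases hdg : ∀ i, (f i).1 = (f i).2
    · rw [if_pos hdg]
      have h2 : ∑ n ∈ Icc 1 X, jacobiSym (-(n : ℤ)) (∏ i, (f i).1 * (f i).2) ≤ ∑ _n ∈ Icc 1 X, (1 : ℤ) :=
        sum_le_sum fun n _ => (le_abs_self _).trans (jle _ _)
      rw [sum_const, Nat.card_Icc, nsmul_eq_mul, mul_one] at h2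
      have h3 : (0 : ℤ) ≤ (y : ℤ) ^ (2 * k) := by positivity
      have h4 : ((X + 1 - 1 : ℕ) : ℤ) = X := by rw [Nat.add_sub_cancel]
      rw [h4] at h2
      linarith
    · rw [if_neg hdg]
      push Not at hdg
      obtain ⟨j, hj⟩ := hdg
      have hodd : Odd (∏ i, (f i).1 * (f i).2) := by
        apply Finset.prod_induction _ Odd (fun a b ha hb => ha.mul hb) odd_one
        intro i _
        exact (((hP i).2 _ (hfi i).1).1.odd_of_ne_two ((hP i).2 _ (hfi i).1).2.1).mul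
          (((hP i).2 _ (hfi i).2).1.odd_of_ne_two ((hP i).2 _ (hfi i).2).2.1)
      have hns : ¬ IsSquare (∏ i, (f i).1 * (f i).2) := by
        have hp := ((hP j).2 _ (hfi j).1).1
        rw [← mul_prod_erase univ _ (mem_univ j), mul_assoc]
        apply notsq hp
        intro hdv
        rcases hp.dvd_mul.1 hdv with h5 | h5
        · exact hj ((Nat.prime_dvd_prime_iff_eq hp ((hP j).2 _ (hfi j).2).1).1 h5)
        · obtain ⟨i, hi, h6⟩ := (Prime.dvd_finsetProd_iff hp.prime _).1 h5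
          have hij : i ≠ j := (mem_erase.1 hi).1
          have hdis := Finset.disjoint_left.1 (hd j i hij.symm) (hfi j).1
          rcases hp.dvd_mul.1 h6 with h7 | h7
          · rw [(Nat.prime_dvd_prime_iff_eq hp ((hP i).2 _ (hfi i).1).1).1 h7] at hdis
            exact hdis (hfi i).1
          · rw [(Nat.prime_dvd_prime_iff_eq hp ((hP i).2 _ (hfi i).2).1).1 h7] at hdis
            exact hdis (hfi i).2
      have h2 := hC (∏ i, (f i).1 * (f i).2) X hodd hns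
      have h3 : (∏ i, (f i).1 * (f i).2) ≤ y ^ (2 * k) := by
        have : (∏ i, (f i).1 * (f i).2) ≤ ∏ _i : Fin k, y * y :=
          prod_le_prod (fun i _ => Nat.zero_le _) fun i _ =>
            Nat.mul_le_mul ((hP i).2 _ (hfi i).1).2.2 ((hP i).2 _ (hfi i).2).2.2
        refine this.trans (le_of_eq ?_)
        rw [prod_const, card_univ, Fintype.card_fin, pow_mul, sq]
      have h4 : ((∏ i, (f i).1 * (f i).2 : ℕ) : ℤ) ≤ (y : ℤ) ^ (2 * k) := by exact_mod_cast h3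
      have h5 := (le_abs_self _).trans (h2.trans h4)
      linarith
  refine (sum_le_sum hb1).trans ?_
  rw [sum_add_distrib, ← sum_filter, sum_const, sum_const, hFc, nsmul_eq_mul, nsmul_eq_mul]
  have h6 : ((F.filter (fun f => ∀ i, (f i).1 = (f i).2)).card : ℤ) ≤ (m : ℤ) ^ k := by exact_mod_cast hdiag
  have h7 := mul_le_mul_of_nonneg_right h6 (Int.natCast_nonneg X)
  have h8 : (((m * m) ^ k : ℕ) : ℤ) * (y : ℤ) ^ (2 * k) = ((m : ℤ) * y) ^ (2 * k) := by
    push_cast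
    ring
  rw [h8]
  linarith

lemma block {m n : ℕ} {P : Finset ℕ} (hm : P.card = m) (hP : ∀ p ∈ P, p.Prime) (hn : 1 ≤ n)
    (hJ : ∀ p ∈ P, jacobiSym (-(n : ℤ)) p ≠ 1) (hω : 2 * n.primeFactors.card ≤ m) :
    2 * ∑ p ∈ P, jacobiSym (-(n : ℤ)) p ≤ -(m : ℤ) := by
  classical
  have h1 : ∀ p ∈ P, jacobiSym (-(n : ℤ)) p ≤ (if p ∣ n then 0 else -1) := by
    intro p hp
    split_ifs with h
    · rcases jacobiSym.trichotomy (-(n : ℤ)) p with h2 | h2 | h2
      · rw [h2]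
      · exact absurd h2 (hJ p hp)
      · rw [h2]; norm_num
    · rcases jacobiSym.trichotomy (-(n : ℤ)) p with h2 | h2 | h2
      · exfalso
        have hpn : NeZero p := ⟨(hP p hp).ne_zero⟩
        have h3 := (jacobiSym.eq_zero_iff_not_coprime (a := -(n : ℤ)) (b := p)).1 h2
        apply h3
        rw [Int.neg_gcd, Int.gcd_natCast_natCast]
        exact ((hP p hp).coprime_iff_not_dvd.2 h).symm
      · exact absurd h2 (hJ p hp)
      · rw [h2]
  have h2 := sum_le_sum h1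
  have h3 : ∑ p ∈ P, (if p ∣ n then (0 : ℤ) else -1) = -((P.filter (fun p => ¬ p ∣ n)).card : ℤ) := by
    rw [sum_ite, sum_const_zero, zero_add, sum_const, nsmul_eq_mul, mul_neg, mul_one]
  have h4 : (P.filter (fun p => p ∣ n)).card ≤ n.primeFactors.card := by
    apply card_le_card
    intro p hp
    rw [mem_filter] at hp
    rw [Nat.mem_primeFactors]
    exact ⟨hP p hp.1, hp.2, by omega⟩
  have h5 := card_filter_add_card_filter_not (s := P) (fun p => p ∣ n)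
  rw [h3] at h2
  have h6 : ((P.filter (fun p => p ∣ n)).card : ℤ) + ((P.filter (fun p => ¬ p ∣ n)).card : ℤ) = m := by
    rw [← hm]; exact_mod_cast h5
  have h7 : ((P.filter (fun p => p ∣ n)).card : ℤ) ≤ n.primeFactors.card := by exact_mod_cast h4
  have h8 : 2 * ((n.primeFactors.card : ℕ) : ℤ) ≤ m := by exact_mod_cast hω
  linarith

theorem mom77 (hC : Char) : Mom := by
  classical
  intro k m X y P hm hP hd
  have ht := total hC (k := k) (m := m) (X := X) (y := y) (fun i => P i) (fun i => hP i i.2)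
    (fun i j hij => hd i i.2 j j.2 (fun h => hij (Fin.ext h)))
  set B := (Icc 1 X).filter (fun n : ℕ => (∀ i < k, ∀ p ∈ P i, jacobiSym (-(n : ℤ)) p ≠ 1) ∧
    2 * n.primeFactors.card ≤ m) with hB
  have htr : ∑ n ∈ Icc 1 X, (((∏ i : Fin k, ∑ p ∈ P i, jacobiSym (-(n : ℤ)) p : ℤ)) : ℝ) ^ 2 ≤
      (m : ℝ) ^ k * X + ((m : ℝ) * y) ^ (2 * k) := by exact_mod_cast ht
  refine le_trans ?_ htr
  have h1 : ∀ n ∈ B, ((m : ℝ) / 2) ^ (2 * k) ≤ (((∏ i : Fin k, ∑ p ∈ P i, jacobiSym (-(n : ℤ)) p : ℤ)) : ℝ) ^ 2 := by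
    intro n hn
    rw [hB, mem_filter, mem_Icc] at hn
    have h2 : ∀ i : Fin k, ((m : ℝ) / 2) ^ 2 ≤ ((∑ p ∈ P i, jacobiSym (-(n : ℤ)) p : ℤ) : ℝ) ^ 2 := by
      intro i
      have h3 := block (hP i i.2).1 (fun p hp => ((hP i i.2).2 p hp).1) hn.1.1 (hn.2.1 i i.2) hn.2.2
      have h4 : 2 * ((∑ p ∈ P i, jacobiSym (-(n : ℤ)) p : ℤ) : ℝ) ≤ -(m : ℝ) := by exact_mod_cast h3
      have h5 : (0 : ℝ) ≤ m := Nat.cast_nonneg m
      nlinarith
    calc ((m : ℝ) / 2) ^ (2 * k) = ∏ _i : Fin k, ((m : ℝ) / 2) ^ 2 := by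
          rw [prod_const, card_univ, Fintype.card_fin, ← pow_mul]
      _ ≤ ∏ i : Fin k, ((∑ p ∈ P i, jacobiSym (-(n : ℤ)) p : ℤ) : ℝ) ^ 2 :=
          prod_le_prod (fun i _ => by positivity) fun i _ => h2 i
      _ = (((∏ i : Fin k, ∑ p ∈ P i, jacobiSym (-(n : ℤ)) p : ℤ)) : ℝ) ^ 2 := by
          rw [prod_pow, Int.cast_prod]
  calc (B.card : ℝ) * ((m : ℝ) / 2) ^ (2 * k) = ∑ _n ∈ B, ((m : ℝ) / 2) ^ (2 * k) := by
        rw [sum_const, nsmul_eq_mul]
    _ ≤ ∑ n ∈ B, (((∏ i : Fin k, ∑ p ∈ P i, jacobiSym (-(n : ℤ)) p : ℤ)) : ℝ) ^ 2 := sum_le_sum h1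
    _ ≤ _ := sum_le_sum_of_subset_of_nonneg (filter_subset _ _) fun n _ _ => by positivity

end Pool.Agent.OS.Mom77
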