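import Pool.Agent.OS.Stmts

/-! # Row OM: numbers with many prime divisors (helper3) -/

set_option autoImplicit false

namespace Pool.Agent.OS.Om3

open Finset

theorem one {X n : ℕ} (hn : n ∈ Icc 1 X) (z : ℝ) :
    (1 + z) ^ n.primeFactors.card =
      ∑ T ∈ ((Icc 1 X).filter Nat.Prime).powerset, if T ⊆ n.primeFactors then z ^ T.card else 0 := by
  classical
  rw [← Finset.sum_filter]
  have h1 : (((Icc 1 X).filter Nat.Prime).powerset).filter (fun T => T ⊆ n.primeFactors) =
      n.primeFactors.powerset := by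
    ext T
    rw [mem_filter, mem_powerset, mem_powerset]
    constructor
    · exact fun h => h.2
    · intro h
      refine ⟨fun p hp => ?_, h⟩
      have hp' := h hp
      rw [mem_Icc] at hn
      rw [Nat.mem_primeFactors] at hp'
      rw [mem_filter, mem_Icc]
      exact ⟨⟨hp'.1.one_lt.le, (Nat.le_of_dvd (by omega) hp'.2.1).trans hn.2⟩, hp'.1⟩
  rw [h1]
  have h2 := Finset.prod_one_add (f := fun _ : ℕ => z) n.primeFactors
  rw [prod_const] at h2
  rw [h2]
  refine sum_congr rfl fun T _ => ?_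
  rw [prod_const]

theorem two {X : ℕ} {T : Finset ℕ} (hT : ∀ p ∈ T, p.Prime) :
    (((Icc 1 X).filter (fun n : ℕ => T ⊆ n.primeFactors)).card : ℝ) ≤ X * ∏ p ∈ T, (1 : ℝ) / p := by
  have h1 : (Icc 1 X).filter (fun n : ℕ => T ⊆ n.primeFactors) ⊆ (Ioc 0 X).filter (fun n => (∏ p ∈ T, p) ∣ n) := by
    intro n hn
    rw [mem_filter, mem_Icc] at hn
    rw [mem_filter, mem_Ioc]
    exact ⟨by omega, (prod_dvd_prod_of_subset _ _ _ hn.2).trans (Nat.prod_primeFactors_dvd n)⟩
  have h2 := card_le_card h1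
  rw [Nat.Ioc_filter_dvd_card_eq_div] at h2
  have h3 : (((Icc 1 X).filter (fun n : ℕ => T ⊆ n.primeFactors)).card : ℝ) ≤ ((X / ∏ p ∈ T, p : ℕ) : ℝ) := by
    exact_mod_cast h2
  refine h3.trans (Nat.cast_div_le.trans (le_of_eq ?_))
  push_cast
  rw [div_eq_mul_inv, ← prod_inv_distrib]
  simp only [one_div]

end Pool.Agent.OS.Om3

namespace Pool.Agent.OS

open Finset in
theorem om3 : Om := by
  intro X w z hz
  have hz1 : (1 : ℝ) ≤ 1 + z := by linarith
  set P := (Icc 1 X).filter Nat.Prime with hP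
  have hPp : ∀ T ∈ P.powerset, ∀ p ∈ T, p.Prime := by
    intro T hT p hp
    exact (mem_filter.1 (mem_powerset.1 hT hp)).2
  calc (((Icc 1 X).filter (fun n : ℕ => w ≤ n.primeFactors.card)).card : ℝ) * (1 + z) ^ w
      = ∑ n ∈ (Icc 1 X).filter (fun n : ℕ => w ≤ n.primeFactors.card), (1 + z) ^ w := by
        rw [sum_const, nsmul_eq_mul]
    _ ≤ ∑ n ∈ (Icc 1 X).filter (fun n : ℕ => w ≤ n.primeFactors.card), (1 + z) ^ n.primeFactors.card := by
        refine sum_le_sum fun n hn => ?_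
        exact pow_le_pow_right₀ hz1 (mem_filter.1 hn).2
    _ ≤ ∑ n ∈ Icc 1 X, (1 + z) ^ n.primeFactors.card :=
        sum_le_sum_of_subset_of_nonneg (filter_subset _ _) fun _ _ _ => by positivity
    _ = ∑ n ∈ Icc 1 X, ∑ T ∈ P.powerset, (if T ⊆ n.primeFactors then z ^ T.card else 0) :=
        sum_congr rfl fun n hn => Om3.one hn z
    _ = ∑ T ∈ P.powerset, ∑ n ∈ Icc 1 X, (if T ⊆ n.primeFactors then z ^ T.card else 0) := sum_comm
    _ = ∑ T ∈ P.powerset, (((Icc 1 X).filter (fun n : ℕ => T ⊆ n.primeFactors)).card : ℝ) * z ^ T.card := by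
        refine sum_congr rfl fun T _ => ?_
        rw [← sum_filter, sum_const, nsmul_eq_mul]
    _ ≤ ∑ T ∈ P.powerset, (X * ∏ p ∈ T, (1 : ℝ) / p) * z ^ T.card := by
        refine sum_le_sum fun T hT => ?_
        exact mul_le_mul_of_nonneg_right (Om3.two (hPp T hT)) (by positivity)
    _ = X * ∑ T ∈ P.powerset, ∏ p ∈ T, (z * ((1 : ℝ) / p)) := by
        rw [mul_sum]
        refine sum_congr rfl fun T _ => ?_
        rw [prod_mul_distrib, prod_const]
        ring
    _ = X * ∏ p ∈ P, (1 + z * ((1 : ℝ) / p)) := by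
        rw [Finset.prod_one_add]
    _ ≤ X * ∏ p ∈ P, Real.exp (z * ((1 : ℝ) / p)) := by
        refine mul_le_mul_of_nonneg_left (prod_le_prod (fun p _ => by positivity) fun p _ => ?_) (by positivity)
        have := Real.add_one_le_exp (z * ((1 : ℝ) / p))
        linarith
    _ = X * Real.exp (z * ∑ p ∈ P, (1 : ℝ) / p) := by
        rw [← Real.exp_sum, mul_sum]

end Pool.Agent.OS
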