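import Pool.Agent.OS.Stmts

/-! # Row ONO (helper93): a power of a split prime divides a value -/

set_option autoImplicit false

namespace Pool.Agent.OS.Ono93

open Pool.Agent.OS

/-- Hensel -/
theorem hensel {D q : ℕ} (hq : q.Prime) (hq2 : q ≠ 2) (hqD : ¬ q ∣ D) (h : ∃ y : ℤ, (q : ℤ) ∣ y ^ 2 + D) (k : ℕ) :
    ∃ y : ℤ, ((q : ℤ) ^ k) ∣ y ^ 2 + D := by
  rcases Nat.eq_zero_or_pos k with rfl | hk
  · exact ⟨0, by simp⟩
  induction k, hk using Nat.le_induction with
  | base => simpa using h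
  | succ k hk ih =>
    obtain ⟨y, z, hz⟩ := ih
    have hqp : Prime (q : ℤ) := Nat.prime_iff_prime_int.1 hq
    -- `y` is prime to `q`
    have hy : ¬ (q : ℤ) ∣ y := by
      intro hy
      have h1 : (q : ℤ) ∣ y ^ 2 + D := ⟨(q : ℤ) ^ (k - 1) * z, by
        rw [hz, ← mul_assoc, ← pow_succ']
        congr 2
        omega⟩
      have h2 : (q : ℤ) ∣ (D : ℤ) := (dvd_add_right (Dvd.dvd.pow hy (by norm_num))).1 h1
      exact hqD (by exact_mod_cast h2)
    have h2y : ¬ (q : ℤ) ∣ 2 * y := by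
      intro h2
      rcases hqp.dvd_or_dvd h2 with h3 | h3
      · have h4 : q ∣ 2 := by exact_mod_cast h3
        exact hq2 ((Nat.prime_dvd_prime_iff_eq hq Nat.prime_two).1 h4)
      · exact hy h3
    have hcop : IsCoprime (2 * y) (q : ℤ) := ((Prime.coprime_iff_not_dvd hqp).2 h2y).symm
    obtain ⟨u, v, huv⟩ := hcop
    -- t with z + 2 y t = 0 mod q
    refine ⟨y + (q : ℤ) ^ k * (-z * u), ?_⟩
    have e : (y + (q : ℤ) ^ k * (-z * u)) ^ 2 + D =
        (q : ℤ) ^ (k + 1) * (z * v + (q : ℤ) ^ (k - 1) * (z * u) ^ 2) := by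
      have e1 : (q : ℤ) ^ k = (q : ℤ) * (q : ℤ) ^ (k - 1) := by
        rw [← pow_succ']
        congr 1
        omega
      have e2 : (y + (q : ℤ) ^ k * (-z * u)) ^ 2 + D =
          (y ^ 2 + D) - (q : ℤ) ^ k * z * (u * (2 * y)) + (q : ℤ) ^ k * (q : ℤ) ^ k * (z * u) ^ 2 := by ring
      rw [e2, hz]
      have e3 : u * (2 * y) = 1 - v * q := by linear_combination huv
      rw [e3, pow_succ]
      nth_rewrite 4 [e1]
      ring
    exact ⟨_, e⟩

theorem le_ono {Δ : ℤ} {x : ℤ} (hx0 : 0 ≤ x) (hx : 4 * (x + 1) ≤ |Δ|) :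
    ArithmeticFunction.cardFactors (eulerRab Δ x).natAbs ≤ onoInvariant Δ := by
  apply Finset.le_sup (f := fun x : ℤ => ArithmeticFunction.cardFactors (eulerRab Δ x).natAbs)
  unfold onoRange
  rw [Finset.mem_Icc]
  refine ⟨hx0, ?_⟩
  rw [Int.le_floor]
  have h1 : ((4 * (x + 1) : ℤ) : ℚ) ≤ ((|Δ| : ℤ) : ℚ) := by exact_mod_cast hx
  push_cast at h1 ⊢
  linarith

theorem card_ge {v : ℤ} {q k : ℕ} (hq : q.Prime) (hv : 0 < v) (h : ((q : ℤ) ^ k) ∣ v) :
    k ≤ ArithmeticFunction.cardFactors v.natAbs := by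
  have h1 : q ^ k ∣ v.natAbs := by
    have := Int.natAbs_dvd_natAbs.2 h
    rwa [Int.natAbs_pow, Int.natAbs_natCast] at this
  obtain ⟨w, hw⟩ := h1
  have hv0 : v.natAbs ≠ 0 := by omega
  have hw0 : w ≠ 0 := by
    rintro rfl
    rw [Nat.mul_zero] at hw
    exact hv0 hw
  rw [hw, ArithmeticFunction.cardFactors_mul (pow_ne_zero _ hq.ne_zero) hw0, ArithmeticFunction.cardFactors_pow,
    ArithmeticFunction.cardFactors_apply_prime hq]
  omega

theorem ono93 : Ono := by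
  intro D q k hD hq hq2 hqD hy hk
  obtain ⟨y, hy⟩ := hensel hq hq2 hqD hy k
  have hqk : (0 : ℤ) < (q : ℤ) ^ k := by
    have := hq.pos
    positivity
  by_cases h4 : (-(D : ℤ)) % 4 = 1
  · -- odd discriminant
    have hΔ : fundDisc (-(D : ℤ)) = -(D : ℤ) := by
      unfold fundDisc
      rw [if_pos h4]
    rw [hΔ] at hk ⊢
    have hnd : ¬ (4 : ℤ) ∣ -(D : ℤ) := by omega
    -- solve `2 x + 1 = y`
    have hodd : (q : ℤ) ^ k % 2 = 1 := by
      have h1 : Odd (q ^ k) := (hq.odd_of_ne_two hq2).pow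
      have h2 := Nat.odd_iff.1 h1
      exact_mod_cast h2
    obtain ⟨r, hr⟩ : ∃ r : ℤ, (q : ℤ) ^ k = 2 * r + 1 := ⟨(q : ℤ) ^ k / 2, by omega⟩
    set x := ((y - 1) * (r + 1)) % (q : ℤ) ^ k with hx
    have hx0 : 0 ≤ x := Int.emod_nonneg _ hqk.ne'
    have hx1 : x < (q : ℤ) ^ k := Int.emod_lt_of_pos _ hqk
    have hxd : ((q : ℤ) ^ k) ∣ x - (y - 1) * (r + 1) := by
      rw [hx]
      exact Int.ModEq.dvd (Int.mod_modEq _ _).symm
    obtain ⟨s, hs⟩ := hxd
    have habs : |(-(D : ℤ))| = D := by rw [abs_neg, abs_of_nonneg (by positivity)]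
    have hkz : 4 * (q : ℤ) ^ k ≤ D := by
      have : 4 * q ^ k ≤ D := by simpa using hk
      exact_mod_cast this
    refine le_trans ?_ (le_ono (Δ := -(D : ℤ)) hx0 (by rw [habs]; linarith))
    have hval : eulerRab (-(D : ℤ)) x = x ^ 2 + x + (1 - -(D : ℤ)) / 4 := by
      unfold eulerRab
      rw [if_neg hnd]
    rw [hval]
    have h4D : 4 * ((1 - -(D : ℤ)) / 4) = 1 + D := by omega
    apply card_ge hq
    · have : 0 ≤ x ^ 2 := sq_nonneg x
      have : (1 : ℤ) ≤ D := by exact_mod_cast hD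
      have : 0 < (1 - -(D : ℤ)) / 4 := by omega
      linarith
    · have h5 : ((q : ℤ) ^ k) ∣ 4 * (x ^ 2 + x + (1 - -(D : ℤ)) / 4) := by
        have e : 4 * (x ^ 2 + x + (1 - -(D : ℤ)) / 4) = (2 * x + 1) ^ 2 + D := by
          linear_combination h4D
        rw [e]
        have e2 : 2 * x + 1 = y + (q : ℤ) ^ k * (y - 1 + 2 * s) := by
          have : 2 * x = 2 * ((y - 1) * (r + 1)) + 2 * ((q : ℤ) ^ k * s) := by linarith
          have h6 : 2 * ((y - 1) * (r + 1)) = (y - 1) * ((q : ℤ) ^ k + 1) := by rw [hr]; ring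
          rw [this, h6]; ring
        rw [e2]
        have e3 : (y + (q : ℤ) ^ k * (y - 1 + 2 * s)) ^ 2 + D =
            (y ^ 2 + D) + (q : ℤ) ^ k * ((y - 1 + 2 * s) * (2 * y + (q : ℤ) ^ k * (y - 1 + 2 * s))) := by ring
        rw [e3]
        exact dvd_add hy (dvd_mul_right _ _)
      have hc : IsCoprime ((q : ℤ) ^ k) 4 := by
        apply IsCoprime.pow_left
        have h7 : Nat.Coprime q 4 := by
          have : Nat.Coprime q (2 ^ 2) := Nat.Coprime.pow_right 2 ((Nat.coprime_primes hq Nat.prime_two).2 hq2)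
          exact this
        have := Nat.isCoprime_iff_coprime.2 h7
        exact_mod_cast this
      exact hc.dvd_of_dvd_mul_left h5
  · -- even discriminant
    have hΔ : fundDisc (-(D : ℤ)) = 4 * -(D : ℤ) := by
      unfold fundDisc
      rw [if_neg h4]
    rw [hΔ] at hk ⊢
    set x := y % (q : ℤ) ^ k with hx
    have hx0 : 0 ≤ x := Int.emod_nonneg _ hqk.ne'
    have hx1 : x < (q : ℤ) ^ k := Int.emod_lt_of_pos _ hqk
    have hxd : ((q : ℤ) ^ k) ∣ x - y := by
      rw [hx]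
      exact Int.ModEq.dvd (Int.mod_modEq _ _).symm
    obtain ⟨s, hs⟩ := hxd
    have habs : |(4 * -(D : ℤ))| = 4 * D := by
      rw [abs_mul, abs_neg, abs_of_nonneg (by positivity : (0 : ℤ) ≤ (D : ℤ))]
      norm_num
    have hkz : 4 * (q : ℤ) ^ k ≤ 4 * D := by
      have h1 : (4 * -(D : ℤ)).natAbs = 4 * D := by omega
      rw [h1] at hk
      exact_mod_cast hk
    refine le_trans ?_ (le_ono (Δ := 4 * -(D : ℤ)) hx0 (by rw [habs]; linarith))
    have hval : eulerRab (4 * -(D : ℤ)) x = x ^ 2 + D := by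
      unfold eulerRab
      rw [if_pos (dvd_mul_right _ _)]
      have : 4 * -(D : ℤ) / 4 = -D := by omega
      rw [this]; ring
    rw [hval]
    apply card_ge hq
    · have : 0 ≤ x ^ 2 := sq_nonneg x
      have : (1 : ℤ) ≤ D := by exact_mod_cast hD
      linarith
    · have e : x ^ 2 + D = (y ^ 2 + D) + (q : ℤ) ^ k * (s * (x + y)) := by
        have : x = y + (q : ℤ) ^ k * s := by linarith
        calc x ^ 2 + (D : ℤ) = (y ^ 2 + D) + (x - y) * (x + y) := by ring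
          _ = (y ^ 2 + D) + ((q : ℤ) ^ k * s) * (x + y) := by rw [hs]
          _ = _ := by ring
      rw [e]
      exact dvd_add hy (dvd_mul_right _ _)

end Pool.Agent.OS.Ono93
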