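import Pool.Agent.OS.Stmts
import Pool.Agent.SPA.M20
import Pool.Agent.Helper53.GDS.Mert

/-! # Rows PRI1 and PRI2: sums of reciprocals of the primes, Chebyshev -/

set_option autoImplicit false

namespace Pool.Agent.OS

open Finset

theorem pri1_54 : Pri1 := by
  obtain ⟨C, hC0, hC⟩ := Pool.Agent.SPA.M20.sum_le
  refine ⟨1 + C, by linarith, fun X hX => ?_⟩
  have h1 := hC X (by omega)
  have hX' : (16 : ℝ) ≤ X := by exact_mod_cast hX
  have h2 : (1 : ℝ) ≤ Real.log (Real.log X) := by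
    have h4 : Real.log 16 = 4 * Real.log 2 := by
      rw [show (16 : ℝ) = 2 ^ 4 by norm_num, Real.log_pow]
      norm_num
    have h5 : Real.exp 1 ≤ Real.log X := by
      have h6 := Real.log_le_log (by norm_num) hX'
      have h7 := Real.log_two_gt_d9
      have h8 := Real.exp_one_lt_d9
      linarith
    have h9 := Real.log_le_log (Real.exp_pos 1) h5
    rwa [Real.log_exp] at h9
  refine h1.trans ?_
  nlinarith

theorem pri2_54 : Pri2 := by
  obtain ⟨z₀, hz4, hz⟩ := Pool.GDS.card_primes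
  refine ⟨max z₀ 3136, fun t ht => ?_⟩
  have ht1 : z₀ ≤ t := (le_max_left _ _).trans ht
  have ht2 : 3136 ≤ t := (le_max_right _ _).trans ht
  have htr : (3136 : ℝ) ≤ t := by exact_mod_cast ht2
  have h7 : t ≤ t ^ 7 := Nat.le_self_pow (by norm_num) t
  have h1 := hz (t ^ 7) (ht1.trans h7)
  have hsub : (Pool.GDS.prs (t ^ 7)).filter (fun p => t ^ 7 / 4 < p) ⊆
      (Finset.Icc 1 (t ^ 7)).filter (fun p => p.Prime ∧ p ≠ 2) := by
    intro p hp
    rw [mem_filter, Pool.GDS.mem_prs] at hp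
    rw [mem_filter, mem_Icc]
    obtain ⟨⟨h3, h4⟩, h5⟩ := hp
    have h8 : 2 ≤ t ^ 7 / 4 := by
      rw [Nat.le_div_iff_mul_le (by norm_num)]
      omega
    refine ⟨⟨?_, ?_⟩, ?_, by omega⟩
    all_goals first | exact h3.one_le | exact h4.one_le | exact h4 | exact h3
  have hcard := card_le_card hsub
  set N := ((Finset.Icc 1 (t ^ 7)).filter (fun p => p.Prime ∧ p ≠ 2)).card with hN
  have hlog : Real.log ((t ^ 7 : ℕ) : ℝ) = 7 * Real.log t := by
    push_cast
    rw [Real.log_pow]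
    norm_num
  have hlt : Real.log t ≤ t / 28 := by
    have hs : (56 : ℝ) ≤ Real.sqrt t := by
      apply Real.le_sqrt_of_sq_le
      norm_num
      exact ht2
    have hsq : Real.sqrt t * Real.sqrt t = t := Real.mul_self_sqrt (by linarith)
    have h9 : Real.log t = 2 * Real.log (Real.sqrt t) := by
      rw [Real.log_sqrt (by linarith)]
      ring
    have h10 := Real.log_le_self (show (0 : ℝ) ≤ Real.sqrt t by linarith)
    rw [h9]
    nlinarith
  have hlt0 : 0 ≤ Real.log t := Real.log_nonneg (by linarith)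
  have h2 : ((t ^ 7 : ℕ) : ℝ) / 4 ≤ N * (7 * (t / 28)) := by
    refine h1.trans ?_
    rw [hlog]
    have h11 : ((((Pool.GDS.prs (t ^ 7)).filter (fun p => t ^ 7 / 4 < p)).card : ℕ) : ℝ) ≤ N := by
      exact_mod_cast hcard
    gcongr
  have h3 : ((t ^ 6 : ℕ) : ℝ) ≤ N := by
    push_cast at h2 ⊢
    have h12 : (t : ℝ) ^ 7 = t ^ 6 * t := by ring
    rw [h12] at h2
    have h13 : (t : ℝ) ^ 6 * t ≤ N * t := by linarith
    exact le_of_mul_le_mul_right h13 (by linarith)
  exact_mod_cast h3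

end Pool.Agent.OS
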