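import Pool.Agent.OS.Stmts

/-!
# MP_ddb6ee_nt: the exponent `3 / 4 + ε` (statements)
-/

set_option autoImplicit false

namespace Pool.Agent.OS

/-- row PRI3: enough primes -/
def Pri3 : Prop := ∀ δ : ℝ, 0 < δ → ∃ y₀ : ℕ, ∀ y : ℕ, y₀ ≤ y →
  (y : ℝ) ^ (1 - δ) ≤ (((Finset.Icc 1 y).filter (fun p => p.Prime ∧ p ≠ 2)).card : ℝ)

/-- the main theorem, with the exponent `3 / 4 + ε` -/
def Main2 : Prop := ∀ ε : ℝ, 0 < ε → ∃ C : ℝ, ∀ X : ℕ, 1 ≤ X →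
  (((Finset.Icc 1 X).filter (fun D : ℕ => Squarefree D ∧
    onoInvariant (fundDisc (-(D : ℤ))) = (fundDisc (-(D : ℤ))).natAbs.primeFactors.card)).card : ℝ) ≤
      C * (X : ℝ) ^ ((3 : ℝ) / 4 + ε)

/-- row ASM2 -/
def Asm2 : Prop := Ono → Mom → Om → Pri1 → Pri3 → Main2

end Pool.Agent.OS
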