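import Mathlib
import Pool.Agent.OS.Stmts2

/-!
# MP_ddb6ee_nt: row PRI3, enough primes
-/

set_option autoImplicit false

namespace Pool.Agent.OS

open Finset

theorem pri317 : Pri3 := by
  intro δ hδ
  have e1 : ∀ᶠ y : ℕ in Filter.atTop, Real.log (y : ℝ) ≤ (1 / 8) * (y : ℝ) ^ δ := by
    have h := ((isLittleO_log_rpow_atTop hδ).comp_tendsto tendsto_natCast_atTop_atTop).bound
      (show (0 : ℝ) < 1 / 8 by norm_num)
    filter_upwards [h, Filter.eventually_ge_atTop 1] with t ht h1
    simp only [Function.comp_apply, Real.norm_eq_abs] at ht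
    rw [abs_of_nonneg (Real.log_nonneg (by exact_mod_cast h1)), abs_of_nonneg (by positivity)] at ht
    exact ht
  have e2 : ∀ᶠ y : ℕ in Filter.atTop, Real.log (y : ℝ) ≤ (1 / 24) * (y : ℝ) := by
    have h := (Real.isLittleO_log_id_atTop.comp_tendsto tendsto_natCast_atTop_atTop).bound
      (show (0 : ℝ) < 1 / 24 by norm_num)
    filter_upwards [h, Filter.eventually_ge_atTop 1] with t ht h1
    simp only [Function.comp_apply, id_eq, Real.norm_eq_abs] at ht
    rw [abs_of_nonneg (Real.log_nonneg (by exact_mod_cast h1)), abs_of_nonneg (by positivity)] at ht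
    exact ht
  obtain ⟨y₀, hy₀⟩ := Filter.eventually_atTop.1 (e1.and e2)
  refine ⟨max y₀ 3, fun y hy => ?_⟩
  have hy3 : 3 ≤ y := le_trans (le_max_right _ _) hy
  obtain ⟨h1, h2⟩ := hy₀ y (le_trans (le_max_left _ _) hy)
  have hyR : (3 : ℝ) ≤ y := by exact_mod_cast hy3
  have hlog : 0 < Real.log (y : ℝ) := Real.log_pos (by linarith)
  have hpi := Chebyshev.pi_ge y
  have hlt1 : Real.log ((y : ℝ) + 1) ≤ 2 * Real.log y := by
    have : (2 : ℝ) * Real.log y = Real.log ((y : ℝ) ^ 2) := by rw [Real.log_pow]; norm_num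
    rw [this]
    exact Real.log_le_log (by positivity) (by nlinarith)
  have hl2 : (1 : ℝ) / 2 ≤ Real.log 2 := by
    have := Real.log_two_gt_d9
    linarith
  have hkey : (y : ℝ) ^ (1 - δ) + 1 ≤ ((Nat.primeCounting y : ℕ) : ℝ) := by
    refine le_trans ?_ hpi
    rw [le_div_iff₀ hlog]
    have hp : (0 : ℝ) ≤ (y : ℝ) ^ (1 - δ) := by positivity
    have hA : (y : ℝ) ^ (1 - δ) * Real.log y ≤ (y : ℝ) ^ (1 - δ) * ((1 / 8) * (y : ℝ) ^ δ) := by gcongr
    have hB : (y : ℝ) ^ (1 - δ) * (y : ℝ) ^ δ = y := by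
      rw [← Real.rpow_add (by linarith)]
      simp
    have hC : (y : ℝ) * (1 / 2) ≤ (y : ℝ) * Real.log 2 := by gcongr
    nlinarith
  have hcard : Nat.primeCounting y ≤
      ((Finset.Icc 1 y).filter (fun p => p.Prime ∧ p ≠ 2)).card + 1 := by
    rw [Nat.primeCounting, Nat.primeCounting', Nat.count_eq_card_filter_range]
    have hsub : (Finset.range (y + 1)).filter Nat.Prime ⊆
        insert 2 ((Finset.Icc 1 y).filter (fun p => p.Prime ∧ p ≠ 2)) := by
      intro p hp
      rw [Finset.mem_filter, Finset.mem_range] at hp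
      rw [Finset.mem_insert, Finset.mem_filter, Finset.mem_Icc]
      by_cases h : p = 2
      · exact Or.inl h
      · exact Or.inr ⟨⟨hp.2.one_lt.le, by omega⟩, hp.2, h⟩
    exact (Finset.card_le_card hsub).trans (Finset.card_insert_le _ _)
  have hcardR : ((Nat.primeCounting y : ℕ) : ℝ) ≤
      (((Finset.Icc 1 y).filter (fun p => p.Prime ∧ p ≠ 2)).card : ℝ) + 1 := by
    exact_mod_cast hcard
  linarith

end Pool.Agent.OS
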