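import Pool.Agent.OS.Asm2_73
import Pool.Agent.OS.Ono93
import Pool.Agent.OS.Mom77
import Pool.Agent.OS.Char89
import Pool.Agent.OS.Om3
import Pool.Agent.OS.Pri54
import Pool.Agent.OS.PriB17

/-! # MP_ddb6ee_nt: the composition with the exponent 3/4 + eps -/

set_option autoImplicit false

namespace Pool.Agent.OS.Fin2_54

theorem main34 : Pool.Agent.OS.Main2 :=
  Pool.Agent.OS.A73.asm2_73 Pool.Agent.OS.Ono93.ono93 (Pool.Agent.OS.Mom77.mom77 Pool.Agent.OS.Char89.char89)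
    Pool.Agent.OS.om3 Pool.Agent.OS.pri1_54 Pool.Agent.OS.pri317

end Pool.Agent.OS.Fin2_54
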