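import Mathlib

/-!
# MP_ddb6ee_nt: few discriminants have an Ono invariant equal to the number of prime divisors (statements)
-/

set_option autoImplicit false

namespace Pool.Agent.OS

/-- The fundamental discriminant of the field generated by a square root of `D` (squarefree). -/
def fundDisc (D : ℤ) : ℤ := if D % 4 = 1 then D else 4 * D

/-- The first Euler-Rabinowitsch polynomial of `Δ`. -/
def eulerRab (Δ x : ℤ) : ℤ := if 4 ∣ Δ then x ^ 2 - Δ / 4 else x ^ 2 + x + (1 - Δ) / 4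

/-- The integers `x` with `0 ≤ x ≤ ⌊|Δ| / 4 - 1⌋`. -/
noncomputable def onoRange (Δ : ℤ) : Finset ℤ := Finset.Icc 0 ⌊((|Δ| : ℤ) : ℚ) / 4 - 1⌋

/-- The Ono invariant: the largest number of prime factors (with multiplicity) of a value. -/
noncomputable def onoInvariant (Δ : ℤ) : ℕ :=
  (onoRange Δ).sup fun x => ArithmeticFunction.cardFactors (eulerRab Δ x).natAbs

/-- row ONO: a power of a split prime divides a value -/
def Ono : Prop := ∀ D q k : ℕ, 1 ≤ D → q.Prime → q ≠ 2 → ¬ q ∣ D → (∃ y : ℤ, (q : ℤ) ∣ y ^ 2 + D) →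
  4 * q ^ k ≤ (fundDisc (-(D : ℤ))).natAbs → k ≤ onoInvariant (fundDisc (-(D : ℤ)))

/-- row CHAR: character sums -/
def Char : Prop := ∀ M X : ℕ, Odd M → ¬ IsSquare M →
  |∑ n ∈ Finset.Icc 1 X, jacobiSym (-(n : ℤ)) M| ≤ (M : ℤ)

/-- row MOM: the moment of products over blocks -/
def Mom : Prop := ∀ (k m X y : ℕ) (P : ℕ → Finset ℕ), 1 ≤ m →
  (∀ i < k, (P i).card = m ∧ ∀ p ∈ P i, p.Prime ∧ p ≠ 2 ∧ p ≤ y) →
  (∀ i < k, ∀ j < k, i ≠ j → Disjoint (P i) (P j)) →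
  (((Finset.Icc 1 X).filter (fun n : ℕ => (∀ i < k, ∀ p ∈ P i, jacobiSym (-(n : ℤ)) p ≠ 1) ∧
    2 * n.primeFactors.card ≤ m)).card : ℝ) * ((m : ℝ) / 2) ^ (2 * k) ≤ (m : ℝ) ^ k * X + ((m : ℝ) * y) ^ (2 * k)

/-- row OM: numbers with many prime divisors -/
def Om : Prop := ∀ (X w : ℕ) (z : ℝ), 0 ≤ z →
  (((Finset.Icc 1 X).filter (fun n : ℕ => w ≤ n.primeFactors.card)).card : ℝ) * (1 + z) ^ w ≤
    X * Real.exp (z * ∑ p ∈ (Finset.Icc 1 X).filter Nat.Prime, (1 : ℝ) / p)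

/-- row PRI1: the sum of the reciprocals of the primes -/
def Pri1 : Prop := ∃ C : ℝ, 0 < C ∧ ∀ X : ℕ, 16 ≤ X →
  ∑ p ∈ (Finset.Icc 1 X).filter Nat.Prime, (1 : ℝ) / p ≤ C * Real.log (Real.log X)

/-- row PRI2: enough primes -/
def Pri2 : Prop := ∃ t₀ : ℕ, ∀ t : ℕ, t₀ ≤ t →
  t ^ 6 ≤ ((Finset.Icc 1 (t ^ 7)).filter (fun p => p.Prime ∧ p ≠ 2)).card

/-- the main theorem -/
def Main : Prop := ∃ C : ℝ, ∀ X : ℕ, 1 ≤ X →
  (((Finset.Icc 1 X).filter (fun D : ℕ => Squarefree D ∧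
    onoInvariant (fundDisc (-(D : ℤ))) = (fundDisc (-(D : ℤ))).natAbs.primeFactors.card)).card : ℝ) ≤
      C * (X : ℝ) ^ ((9 : ℝ) / 10)

/-- row ASM -/
def Asm : Prop := Ono → Mom → Om → Pri1 → Pri2 → Main

end Pool.Agent.OS
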