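import Mathlib
import Pool.Agent.OS.Stmts

set_option autoImplicit false

namespace Pool.Agent.OS.Mom97

open Finset

theorem not_sq (p N : ℕ) (hp : p.Prime) (h : ¬ p ∣ N) : ¬ IsSquare (p * N) := by
  rintro ⟨r, hr⟩
  have h1 : p ∣ r * r := ⟨N, hr.symm⟩
  have h2 : p ∣ r := by
    rcases (Nat.Prime.dvd_mul hp).1 h1 with h | h <;> exact h
  obtain ⟨s, rfl⟩ := h2
  apply h
  have h3 : p * N = p * (s * (p * s)) := by rw [hr]; ring
  have h4 : N = s * (p * s) := Nat.eq_of_mul_eq_mul_left hp.pos h3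
  rw [h4]
  exact ⟨s * s, by ring⟩

theorem block (m n : ℕ) (hn : n ≠ 0) (P : Finset ℕ) (hc : P.card = m) (hp : ∀ p ∈ P, p.Prime)
    (hJ : ∀ p ∈ P, jacobiSym (-(n : ℤ)) p ≠ 1) (hw : 2 * n.primeFactors.card ≤ m) :
    ((m : ℝ) / 2) ^ 2 ≤ ((∑ p ∈ P, jacobiSym (-(n : ℤ)) p : ℤ) : ℝ) ^ 2 := by
  have h1 : ∀ p ∈ P, jacobiSym (-(n : ℤ)) p ≤ if p ∈ n.primeFactors then (0 : ℤ) else -1 := by
    intro p hpP
    rcases jacobiSym.trichotomy (-(n:ℤ)) p with h | h | h
    · rw [h]
      have hpp := hp p hpP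
      have : NeZero p := ⟨hpp.ne_zero⟩
      have h0 := jacobiSym.eq_zero_iff_not_coprime.1 h
      have : p ∈ n.primeFactors := by
        rw [Nat.mem_primeFactors]
        refine ⟨hpp, ?_, hn⟩
        by_contra hnd
        apply h0
        have : Nat.Coprime p n := (Nat.Prime.coprime_iff_not_dvd hpp).2 hnd
        rw [Int.neg_gcd, Int.gcd_natCast_natCast]
        exact this.symm
      simp [this]
    · exact absurd h (hJ p hpP)
    · rw [h]; split_ifs <;> norm_num
  have h2 : ∑ p ∈ P, jacobiSym (-(n : ℤ)) p ≤ ∑ p ∈ P, (if p ∈ n.primeFactors then (0:ℤ) else -1) :=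
    Finset.sum_le_sum h1
  have h3 : ∑ p ∈ P, (if p ∈ n.primeFactors then (0:ℤ) else -1)
      = - ((P.filter (fun p => p ∉ n.primeFactors)).card : ℤ) := by
    rw [Finset.sum_ite]
    simp
  have h4 : (P.filter (fun p => p ∈ n.primeFactors)).card + (P.filter (fun p => p ∉ n.primeFactors)).card = m := by
    rw [Finset.card_filter_add_card_filter_not, hc]
  have h5 : (P.filter (fun p => p ∈ n.primeFactors)).card ≤ n.primeFactors.card :=
    Finset.card_le_card (by intro p hp; exact (Finset.mem_filter.1 hp).2)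
  have h6 : ∑ p ∈ P, jacobiSym (-(n : ℤ)) p ≤ - ((P.filter (fun p => p ∉ n.primeFactors)).card : ℤ) := h2.trans_eq h3
  have h7 : m ≤ 2 * (P.filter (fun p => p ∉ n.primeFactors)).card := by omega
  have h8 : ((∑ p ∈ P, jacobiSym (-(n : ℤ)) p : ℤ) : ℝ) ≤ - ((P.filter (fun p => p ∉ n.primeFactors)).card : ℝ) := by
    exact_mod_cast h6
  have h9 : (m : ℝ) ≤ 2 * ((P.filter (fun p => p ∉ n.primeFactors)).card : ℝ) := by exact_mod_cast h7
  have h10 : (0 : ℝ) ≤ m := Nat.cast_nonneg _
  nlinarith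

theorem mom97 (hC : Char) : Mom := by
  intro k m X y P hm hP hD
  classical
  set J : ℕ → ℕ → ℤ := fun n p => jacobiSym (-(n : ℤ)) p with hJdef
  set T : ℕ → ℤ := fun n => ∏ i : Fin k, ∑ p ∈ P i, J n p with hT
  set B := (Finset.Icc 1 X).filter (fun n : ℕ => (∀ i < k, ∀ p ∈ P i, jacobiSym (-(n : ℤ)) p ≠ 1) ∧
    2 * n.primeFactors.card ≤ m) with hB
  -- lower bound
  have hlow : ∀ n ∈ B, ((m : ℝ) / 2) ^ (2 * k) ≤ ((T n : ℤ) : ℝ) ^ 2 := by
    intro n hn
    rw [hB, Finset.mem_filter, Finset.mem_Icc] at hn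
    obtain ⟨⟨hn1, _⟩, hn2, hn3⟩ := hn
    have e1 : ((T n : ℤ) : ℝ) ^ 2 = ∏ i : Fin k, (((∑ p ∈ P i, J n p : ℤ) : ℝ) ^ 2) := by
      rw [Finset.prod_pow, hT]
      push_cast
      rfl
    have e2 : ((m : ℝ) / 2) ^ (2 * k) = ∏ i : Fin k, ((m : ℝ) / 2) ^ 2 := by
      rw [Finset.prod_const, Finset.card_univ, Fintype.card_fin, pow_mul]
    rw [e1, e2]
    refine Finset.prod_le_prod (fun i _ => by positivity) (fun i _ => ?_)
    exact block m n (by omega) (P i) (hP i i.2).1 (fun p hp => ((hP i i.2).2 p hp).1)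
      (hn2 i i.2) hn3
  -- the upper bound
  have hup : (∑ n ∈ Finset.Icc 1 X, (T n) ^ 2 : ℤ) ≤ (m : ℤ) ^ k * X + ((m : ℤ) * y) ^ (2 * k) := by
    have e1 : ∀ n : ℕ, (T n) ^ 2 = ∑ x ∈ Fintype.piFinset (fun i : Fin k => P i ×ˢ P i),
        J n (∏ i, ((x i).1 * (x i).2)) := by
      intro n
      have a1 : (T n) ^ 2 = ∏ i : Fin k, ∑ z ∈ P i ×ˢ P i, (J n z.1 * J n z.2) := by
        rw [hT]
        simp only
        rw [← Finset.prod_pow]
        refine Finset.prod_congr rfl (fun i _ => ?_)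
        rw [sq, Finset.sum_mul_sum, Finset.sum_product]
      rw [a1, Finset.prod_univ_sum]
      refine Finset.sum_congr rfl (fun x hx => ?_)
      rw [Fintype.mem_piFinset] at hx
      have key : ∀ s : Finset (Fin k), ∏ i ∈ s, (J n (x i).1 * J n (x i).2)
          = J n (∏ i ∈ s, ((x i).1 * (x i).2)) := by
        intro s
        induction s using Finset.induction_on with
        | empty => simp [hJdef]
        | insert a s ha ih =>
          rw [Finset.prod_insert ha, Finset.prod_insert ha, ih]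
          have p1 := hx a
          rw [Finset.mem_product] at p1
          have q1 := ((hP a a.2).2 _ p1.1).1
          have q2 := ((hP a a.2).2 _ p1.2).1
          have q3 : ∏ i ∈ s, ((x i).1 * (x i).2) ≠ 0 := by
            rw [Finset.prod_ne_zero_iff]
            intro i _
            have p2 := hx i
            rw [Finset.mem_product] at p2
            exact mul_ne_zero ((hP i i.2).2 _ p2.1).1.ne_zero ((hP i i.2).2 _ p2.2).1.ne_zero
          have : NeZero (x a).1 := ⟨q1.ne_zero⟩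
          have : NeZero (x a).2 := ⟨q2.ne_zero⟩
          have : NeZero (∏ i ∈ s, ((x i).1 * (x i).2)) := ⟨q3⟩
          have : NeZero ((x a).1 * (x a).2) := ⟨mul_ne_zero q1.ne_zero q2.ne_zero⟩
          simp only [hJdef]
          rw [jacobiSym.mul_right, jacobiSym.mul_right]
      exact key Finset.univ
    simp_rw [e1]
    rw [Finset.sum_comm]
    set S := Fintype.piFinset (fun i : Fin k => P i ×ˢ P i) with hS
    rw [← Finset.sum_filter_add_sum_filter_not S (fun x => ∀ i, (x i).1 = (x i).2)]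
    refine add_le_add ?_ ?_
    · -- diagonal
      have c1 : (S.filter (fun x => ∀ i, (x i).1 = (x i).2)).card ≤ m ^ k := by
        have : (S.filter (fun x => ∀ i, (x i).1 = (x i).2)).card ≤
            (Fintype.piFinset (fun i : Fin k => P i)).card := by
          refine Finset.card_le_card_of_injOn (fun x i => (x i).1) ?_ ?_
          · intro x hx
            have hx' := (Finset.mem_filter.1 hx).1
            rw [hS, Fintype.mem_piFinset] at hx'
            simp only [Finset.mem_coe, Fintype.mem_piFinset]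
            intro i
            exact (Finset.mem_product.1 (hx' i)).1
          · intro x hx x' hx' hxx
            have h1 := (Finset.mem_filter.1 hx).2
            have h2 := (Finset.mem_filter.1 hx').2
            funext i
            have h3 := congrFun hxx i
            simp only at h3
            exact Prod.ext h3 (by rw [← h1 i, ← h2 i, h3])
        refine this.trans_eq ?_
        rw [Fintype.card_piFinset]
        rw [Finset.prod_congr rfl (fun (i : Fin k) _ => (hP i i.2).1)]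
        simp
      calc ∑ x ∈ S.filter (fun x => ∀ i, (x i).1 = (x i).2), ∑ n ∈ Finset.Icc 1 X, J n (∏ i, ((x i).1 * (x i).2))
          ≤ ∑ x ∈ S.filter (fun x => ∀ i, (x i).1 = (x i).2), (X : ℤ) := by
            refine Finset.sum_le_sum (fun x _ => ?_)
            calc ∑ n ∈ Finset.Icc 1 X, J n (∏ i, ((x i).1 * (x i).2)) ≤ ∑ n ∈ Finset.Icc 1 X, (1 : ℤ) := by
                  refine Finset.sum_le_sum (fun n _ => ?_)
                  rcases jacobiSym.trichotomy (-(n:ℤ)) (∏ i, ((x i).1 * (x i).2)) with h | h | h <;>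
                    simp only [hJdef, h] <;> norm_num
              _ = (X : ℤ) := by simp
        _ = ((S.filter (fun x => ∀ i, (x i).1 = (x i).2)).card : ℤ) * X := by simp
        _ ≤ (m : ℤ) ^ k * X := by
            refine mul_le_mul_of_nonneg_right ?_ (by positivity)
            exact_mod_cast c1
    · -- off the diagonal
      have c2 : S.card = m ^ (2 * k) := by
        rw [hS, Fintype.card_piFinset]
        rw [Finset.prod_congr rfl (fun (i : Fin k) _ => by rw [Finset.card_product, (hP i i.2).1])]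
        simp [pow_mul, sq]
      have c3 : ∀ x ∈ S.filter (fun x => ¬ ∀ i, (x i).1 = (x i).2),
          ∑ n ∈ Finset.Icc 1 X, J n (∏ i, ((x i).1 * (x i).2)) ≤ (y : ℤ) ^ (2 * k) := by
        intro x hx
        rw [Finset.mem_filter] at hx
        obtain ⟨hxS, hxn⟩ := hx
        rw [hS, Fintype.mem_piFinset] at hxS
        push Not at hxn
        obtain ⟨i₀, hi₀⟩ := hxn
        have m1 : ∀ i : Fin k, (x i).1 ∈ P i := fun i => (Finset.mem_product.1 (hxS i)).1
        have m2 : ∀ i : Fin k, (x i).2 ∈ P i := fun i => (Finset.mem_product.1 (hxS i)).2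
        have pr1 : ∀ i : Fin k, (x i).1.Prime := fun i => ((hP i i.2).2 _ (m1 i)).1
        have pr2 : ∀ i : Fin k, (x i).2.Prime := fun i => ((hP i i.2).2 _ (m2 i)).1
        have hodd : Odd (∏ i, ((x i).1 * (x i).2)) := by
          refine Finset.prod_induction _ Odd (fun a b => Odd.mul) odd_one (fun i _ => ?_)
          exact ((pr1 i).odd_of_ne_two ((hP i i.2).2 _ (m1 i)).2.1).mul
            ((pr2 i).odd_of_ne_two ((hP i i.2).2 _ (m2 i)).2.1)
        have hns : ¬ IsSquare (∏ i, ((x i).1 * (x i).2)) := by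
          have : ∏ i, ((x i).1 * (x i).2) = (x i₀).1 * ((x i₀).2 * ∏ i ∈ Finset.univ.erase i₀, ((x i).1 * (x i).2)) := by
            rw [← Finset.mul_prod_erase Finset.univ _ (Finset.mem_univ i₀), mul_assoc]
          rw [this]
          refine not_sq _ _ (pr1 i₀) ?_
          intro hdvd
          rcases (Nat.Prime.dvd_mul (pr1 i₀)).1 hdvd with h | h
          · exact hi₀ ((Nat.prime_dvd_prime_iff_eq (pr1 i₀) (pr2 i₀)).1 h)
          · obtain ⟨i, hi, h⟩ := (Prime.dvd_finsetProd_iff (pr1 i₀).prime _).1 h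
            have hne : i ≠ i₀ := (Finset.mem_erase.1 hi).1
            have hdis := hD i i.2 i₀ i₀.2 (fun h => hne (Fin.ext h))
            rcases (Nat.Prime.dvd_mul (pr1 i₀)).1 h with h | h
            · have e := (Nat.prime_dvd_prime_iff_eq (pr1 i₀) (pr1 i)).1 h
              exact (Finset.disjoint_left.1 hdis) (m1 i) (e ▸ m1 i₀)
            · have e := (Nat.prime_dvd_prime_iff_eq (pr1 i₀) (pr2 i)).1 h
              exact (Finset.disjoint_left.1 hdis) (m2 i) (e ▸ m1 i₀)
        have h1 := hC (∏ i, ((x i).1 * (x i).2)) X hodd hns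
        have h2 : ∏ i, ((x i).1 * (x i).2) ≤ y ^ (2 * k) := by
          calc ∏ i, ((x i).1 * (x i).2) ≤ ∏ i : Fin k, (y * y) := by
                refine Finset.prod_le_prod' (fun i _ => ?_)
                exact Nat.mul_le_mul ((hP i i.2).2 _ (m1 i)).2.2 ((hP i i.2).2 _ (m2 i)).2.2
            _ = y ^ (2 * k) := by simp [pow_mul, sq]
        calc ∑ n ∈ Finset.Icc 1 X, J n (∏ i, ((x i).1 * (x i).2))
            ≤ |∑ n ∈ Finset.Icc 1 X, J n (∏ i, ((x i).1 * (x i).2))| := le_abs_self _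
          _ ≤ ((∏ i, ((x i).1 * (x i).2) : ℕ) : ℤ) := h1
          _ ≤ (y : ℤ) ^ (2 * k) := by exact_mod_cast h2
      calc ∑ x ∈ S.filter (fun x => ¬ ∀ i, (x i).1 = (x i).2), ∑ n ∈ Finset.Icc 1 X, J n (∏ i, ((x i).1 * (x i).2))
          ≤ ∑ x ∈ S.filter (fun x => ¬ ∀ i, (x i).1 = (x i).2), (y : ℤ) ^ (2 * k) := Finset.sum_le_sum c3
        _ = ((S.filter (fun x => ¬ ∀ i, (x i).1 = (x i).2)).card : ℤ) * (y : ℤ) ^ (2 * k) := by simp
        _ ≤ (m : ℤ) ^ (2 * k) * (y : ℤ) ^ (2 * k) := by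
            refine mul_le_mul_of_nonneg_right ?_ (by positivity)
            have : (S.filter (fun x => ¬ ∀ i, (x i).1 = (x i).2)).card ≤ m ^ (2 * k) := by
              rw [← c2]
              exact Finset.card_filter_le _ _
            exact_mod_cast this
        _ = ((m : ℤ) * y) ^ (2 * k) := by rw [mul_pow]
  have hupR : (∑ n ∈ Finset.Icc 1 X, ((T n : ℤ) : ℝ) ^ 2) ≤ (m : ℝ) ^ k * X + ((m : ℝ) * y) ^ (2 * k) := by
    exact_mod_cast hup
  calc (B.card : ℝ) * ((m : ℝ) / 2) ^ (2 * k) = ∑ n ∈ B, ((m : ℝ) / 2) ^ (2 * k) := by simp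
    _ ≤ ∑ n ∈ B, ((T n : ℤ) : ℝ) ^ 2 := Finset.sum_le_sum hlow
    _ ≤ ∑ n ∈ Finset.Icc 1 X, ((T n : ℤ) : ℝ) ^ 2 :=
        Finset.sum_le_sum_of_subset_of_nonneg (Finset.filter_subset _ _) (fun _ _ _ => sq_nonneg _)
    _ ≤ _ := hupR

end Pool.Agent.OS.Mom97
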