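import Mathlib
import Pool.Agent.OS.Stmts2

set_option autoImplicit false

namespace Pool.Agent.OS

/-- row PV: the inequality of Polya and Vinogradov for Jacobi symbols -/
def PV : Prop := ∀ M X : ℕ, Odd M → Squarefree M → 1 < M →
  |((∑ n ∈ Finset.Icc 1 X, jacobiSym (n : ℤ) M : ℤ) : ℝ)| ≤ Real.sqrt M * (1 + Real.log M)

/-- row MOM3: the moment of products over blocks, from PV -/
def Mom3 : Prop := ∀ (k m X y : ℕ) (P : ℕ → Finset ℕ), 1 ≤ m → 1 ≤ y →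
  (∀ i < k, (P i).card = m ∧ ∀ p ∈ P i, p.Prime ∧ p ≠ 2 ∧ p ≤ y) →
  (∀ i < k, ∀ j < k, i ≠ j → Disjoint (P i) (P j)) →
  (((Finset.Icc 1 X).filter (fun n : ℕ => (∀ i < k, ∀ p ∈ P i, jacobiSym (-(n : ℤ)) p ≠ 1) ∧
    2 * n.primeFactors.card ≤ m)).card : ℝ) * ((m : ℝ) / 2) ^ (2 * k) ≤
      (m : ℝ) ^ k * X + (m : ℝ) ^ (2 * k) * (2 * (y : ℝ)) ^ k * (1 + 2 * k * Real.log y)

/-- the main theorem, exponent 5/8 -/
def Main3 : Prop := ∃ C : ℝ, ∀ X : ℕ, 1 ≤ X →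
  (((Finset.Icc 1 X).filter (fun D : ℕ => Squarefree D ∧
    onoInvariant (fundDisc (-(D : ℤ))) = (fundDisc (-(D : ℤ))).natAbs.primeFactors.card)).card : ℝ) ≤
      C * (X : ℝ) ^ ((5 : ℝ) / 8)

/-- row ASM3 -/
def Asm3 : Prop := Ono → Mom3 → Om → Pri1 → Pri3 → Main3

end Pool.Agent.OS
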