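import Mathlib
import Pool.Agent.OS.Stmts3
import Pool.Agent.OS.Mom97

set_option autoImplicit false

namespace Pool.Agent.OS.Mom3_97

open Finset

theorem sift (χ : ℕ → ℤ) (hmul : ∀ a b, χ (a * b) = χ a * χ b) (hle : ∀ a, |χ a| ≤ 1) (B : ℝ)
    (hB : ∀ X : ℕ, |((∑ n ∈ Finset.Icc 1 X, χ n : ℤ) : ℝ)| ≤ B) (Q : Finset ℕ) :
    (∀ p ∈ Q, p.Prime) → ∀ X : ℕ,
      |((∑ n ∈ (Finset.Icc 1 X).filter (fun n => ∀ p ∈ Q, ¬ p ∣ n), χ n : ℤ) : ℝ)| ≤ 2 ^ Q.card * B := by
  classical
  have hB0 : 0 ≤ B := (abs_nonneg _).trans (hB 0)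
  induction Q using Finset.induction_on with
  | empty =>
    intro _ X
    simpa using hB X
  | insert p Q hp ih =>
    intro hQ X
    have hpp : p.Prime := hQ p (Finset.mem_insert_self _ _)
    have hQ' : ∀ q ∈ Q, q.Prime := fun q hq => hQ q (Finset.mem_insert_of_mem hq)
    have ih' := ih hQ'
    have e0 : (Finset.Icc 1 X).filter (fun n => ∀ q ∈ insert p Q, ¬ q ∣ n)
        = ((Finset.Icc 1 X).filter (fun n => ∀ q ∈ Q, ¬ q ∣ n)).filter (fun n => ¬ p ∣ n) := by
      ext n
      simp only [Finset.mem_filter, Finset.mem_insert, forall_eq_or_imp]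
      tauto
    have e1 := Finset.sum_filter_add_sum_filter_not ((Finset.Icc 1 X).filter (fun n => ∀ q ∈ Q, ¬ q ∣ n))
      (fun n => p ∣ n) χ
    have e2 : ∑ n ∈ ((Finset.Icc 1 X).filter (fun n => ∀ q ∈ Q, ¬ q ∣ n)).filter (fun n => p ∣ n), χ n
        = χ p * ∑ n ∈ (Finset.Icc 1 (X / p)).filter (fun n => ∀ q ∈ Q, ¬ q ∣ n), χ n := by
      rw [Finset.mul_sum]
      symm
      refine Finset.sum_nbij (fun m => p * m) ?_ ?_ ?_ ?_
      · intro m hm
        rw [Finset.mem_filter, Finset.mem_Icc] at hm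
        rw [Finset.mem_filter, Finset.mem_filter, Finset.mem_Icc]
        refine ⟨⟨⟨Nat.mul_pos hpp.pos hm.1.1, ?_⟩, ?_⟩, dvd_mul_right _ _⟩
        · exact (Nat.mul_le_mul_left p hm.1.2).trans (Nat.mul_div_le X p)
        · intro q hq hd
          rcases (Nat.Prime.dvd_mul (hQ' q hq)).1 hd with h | h
          · have := (Nat.prime_dvd_prime_iff_eq (hQ' q hq) hpp).1 h
            exact hp (this ▸ hq)
          · exact hm.2 q hq h
      · intro a _ b _ hab
        exact Nat.eq_of_mul_eq_mul_left hpp.pos hab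
      · intro n hn
        rw [Finset.mem_coe, Finset.mem_filter, Finset.mem_filter, Finset.mem_Icc] at hn
        obtain ⟨⟨⟨hn1, hn2⟩, hn3⟩, m, rfl⟩ := hn
        refine ⟨m, ?_, rfl⟩
        rw [Finset.mem_coe, Finset.mem_filter, Finset.mem_Icc]
        refine ⟨⟨?_, ?_⟩, fun q hq h => hn3 q hq (dvd_mul_of_dvd_right h p)⟩
        · rcases Nat.eq_zero_or_pos m with h | h
          · rw [h, mul_zero] at hn1; omega
          · exact h
        · exact (Nat.le_div_iff_mul_le hpp.pos).2 (by rw [mul_comm]; exact hn2)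
      · intro m _
        rw [hmul]
    rw [e0]
    have e3 : ∑ n ∈ ((Finset.Icc 1 X).filter (fun n => ∀ q ∈ Q, ¬ q ∣ n)).filter (fun n => ¬ p ∣ n), χ n
        = ∑ n ∈ (Finset.Icc 1 X).filter (fun n => ∀ q ∈ Q, ¬ q ∣ n), χ n
          - χ p * ∑ n ∈ (Finset.Icc 1 (X / p)).filter (fun n => ∀ q ∈ Q, ¬ q ∣ n), χ n := by
      rw [← e2]
      linarith
    rw [e3, Finset.card_insert_of_notMem hp]
    push_cast
    have h1 := ih' X
    have h2 := ih' (X / p)
    push_cast at h1 h2
    have h3 : |((χ p : ℤ) : ℝ)| ≤ 1 := by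
      have := hle p
      rw [← Int.cast_abs]
      exact_mod_cast this
    refine (abs_sub _ _).trans ?_
    rw [abs_mul]
    have h4 : |((χ p : ℤ) : ℝ)| * |∑ n ∈ (Finset.Icc 1 (X / p)).filter (fun n => ∀ q ∈ Q, ¬ q ∣ n), ((χ n : ℤ) : ℝ)|
        ≤ 1 * (2 ^ Q.card * B) := mul_le_mul h3 h2 (abs_nonneg _) (by norm_num)
    rw [pow_succ]
    linarith

theorem jabs (a : ℤ) (M : ℕ) : |jacobiSym a M| ≤ 1 := by
  rcases jacobiSym.trichotomy a M with h | h | h <;> rw [h] <;> norm_num

/-- the key bound for the off diagonal sums -/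
theorem off (hPV : PV) (k X y : ℕ) (hy : 1 ≤ y) (a b : Fin k → ℕ)
    (pa : ∀ i, (a i).Prime) (pb : ∀ i, (b i).Prime) (a2 : ∀ i, a i ≠ 2) (b2 : ∀ i, b i ≠ 2)
    (ay : ∀ i, a i ≤ y) (bY : ∀ i, b i ≤ y)
    (hdis : ∀ i j, i ≠ j → a i ≠ a j ∧ a i ≠ b j ∧ b i ≠ a j ∧ b i ≠ b j)
    (hex : ∃ i, a i ≠ b i) :
    |((∑ n ∈ Finset.Icc 1 X, jacobiSym (-(n : ℤ)) (∏ i, (a i * b i)) : ℤ) : ℝ)|
      ≤ (2 * (y : ℝ)) ^ k * (1 + 2 * k * Real.log y) := by
  classical
  set O : Finset (Fin k) := Finset.univ.filter (fun i => a i ≠ b i) with hO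
  set D : Finset (Fin k) := Finset.univ.filter (fun i => ¬ a i ≠ b i) with hD
  set M1 : ℕ := ∏ i ∈ O, (a i * b i) with hM1
  have hsplit : ∏ i, (a i * b i) = M1 * ∏ i ∈ D, (a i * b i) := by
    rw [hM1, hO, hD, Finset.prod_filter_mul_prod_filter_not]
  have ne0 : ∀ i, a i * b i ≠ 0 := fun i => mul_ne_zero (pa i).ne_zero (pb i).ne_zero
  have hodd : Odd M1 := by
    refine Finset.prod_induction _ Odd (fun a b => Odd.mul) odd_one (fun i _ => ?_)
    exact ((pa i).odd_of_ne_two (a2 i)).mul ((pb i).odd_of_ne_two (b2 i))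
  have hM10 : M1 ≠ 0 := Finset.prod_ne_zero_iff.2 (fun i _ => ne0 i)
  have hsq : Squarefree M1 := by
    have gen : ∀ s : Finset (Fin k), (∀ i ∈ s, a i ≠ b i) → Squarefree (∏ i ∈ s, (a i * b i)) := by
      intro s
      induction s using Finset.induction_on with
      | empty => intro _; simp
      | insert c s hc ih =>
        intro h
        rw [Finset.prod_insert hc]
        have hcop : Nat.Coprime (a c * b c) (∏ i ∈ s, (a i * b i)) := by
          refine Nat.Coprime.prod_right (fun i hi => ?_)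
          have hne : c ≠ i := fun h => hc (h ▸ hi)
          obtain ⟨h1, h2, h3, h4⟩ := hdis c i hne
          exact Nat.Coprime.mul_left
            (Nat.Coprime.mul_right ((Nat.coprime_primes (pa c) (pa i)).2 h1) ((Nat.coprime_primes (pa c) (pb i)).2 h2))
            (Nat.Coprime.mul_right ((Nat.coprime_primes (pb c) (pa i)).2 h3) ((Nat.coprime_primes (pb c) (pb i)).2 h4))
        rw [Nat.squarefree_mul hcop]
        refine ⟨?_, ih (fun i hi => h i (Finset.mem_insert_of_mem hi))⟩
        rw [Nat.squarefree_mul ((Nat.coprime_primes (pa c) (pb c)).2 (h c (Finset.mem_insert_self _ _)))]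
        exact ⟨(pa c).squarefree, (pb c).squarefree⟩
    exact gen O (fun i hi => (Finset.mem_filter.1 hi).2)
  have h1 : 1 < M1 := by
    obtain ⟨i, hi⟩ := hex
    have hiO : i ∈ O := Finset.mem_filter.2 ⟨Finset.mem_univ _, hi⟩
    have hdvd : a i ∣ M1 := (Dvd.intro _ rfl : a i ∣ a i * b i).trans (Finset.dvd_prod_of_mem _ hiO)
    exact lt_of_lt_of_le (pa i).one_lt (Nat.le_of_dvd (Nat.pos_of_ne_zero hM10) hdvd)
  have hM1y : M1 ≤ y ^ (2 * k) := by
    calc M1 ≤ ∏ i ∈ O, (y * y) := Finset.prod_le_prod' (fun i _ => Nat.mul_le_mul (ay i) (bY i))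
      _ = (y * y) ^ O.card := by rw [Finset.prod_const]
      _ ≤ (y * y) ^ k := by
          refine Nat.pow_le_pow_right (Nat.mul_pos hy hy) ?_
          exact (Finset.card_le_univ O).trans_eq (Fintype.card_fin k)
      _ = y ^ (2 * k) := by rw [pow_mul, sq]
  set Q : Finset ℕ := D.image a with hQ
  have hQp : ∀ p ∈ Q, p.Prime := by
    intro p hp
    obtain ⟨i, _, rfl⟩ := Finset.mem_image.1 hp
    exact pa i
  have hQc : Q.card ≤ k := Finset.card_image_le.trans ((Finset.card_le_univ D).trans_eq (Fintype.card_fin k))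
  -- the values
  have hDval : ∀ n : ℕ, ∀ s : Finset (Fin k), s ⊆ D → jacobiSym (n : ℤ) (∏ i ∈ s, (a i * b i))
      = if ∀ p ∈ s.image a, ¬ p ∣ n then 1 else 0 := by
    intro n s
    induction s using Finset.induction_on with
    | empty => intro _; simp
    | insert c s hc ih =>
      intro hs
      have hcD := hs (Finset.mem_insert_self c s)
      have hab : a c = b c := by
        have := (Finset.mem_filter.1 hcD).2
        push Not at this
        exact this
      have n1 : NeZero (a c * b c) := ⟨ne0 c⟩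
      have n2 : NeZero (∏ i ∈ s, (a i * b i)) := ⟨Finset.prod_ne_zero_iff.2 (fun i _ => ne0 i)⟩
      have n3 : NeZero (a c) := ⟨(pa c).ne_zero⟩
      have n4 : NeZero (b c) := ⟨(pb c).ne_zero⟩
      rw [Finset.prod_insert hc, jacobiSym.mul_right, ih (fun i hi => hs (Finset.mem_insert_of_mem hi)),
        jacobiSym.mul_right, ← hab]
      by_cases hd : a c ∣ n
      · have hz : jacobiSym (n : ℤ) (a c) = 0 := by
          rw [jacobiSym.eq_zero_iff_not_coprime, Int.gcd_natCast_natCast]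
          intro h
          have := Nat.Coprime.eq_one_of_dvd (Nat.Coprime.symm h) hd
          exact (pa c).one_lt.ne' this
        rw [hz, zero_mul, zero_mul, if_neg]
        intro h
        exact h (a c) (Finset.mem_image_of_mem a (Finset.mem_insert_self _ _)) hd
      · have hz : jacobiSym (n : ℤ) (a c) * jacobiSym (n : ℤ) (a c) = 1 := by
          have hc' : jacobiSym (n : ℤ) (a c) ≠ 0 := by
            intro h0
            rw [jacobiSym.eq_zero_iff_not_coprime, Int.gcd_natCast_natCast] at h0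
            exact h0 ((Nat.Prime.coprime_iff_not_dvd (pa c)).2 hd).symm
          rcases jacobiSym.trichotomy (n : ℤ) (a c) with h | h | h
          · exact absurd h hc'
          · rw [h]; norm_num
          · rw [h]; norm_num
        rw [hz, one_mul]
        rw [Finset.image_insert]
        simp only [Finset.mem_insert, forall_eq_or_imp, hd, not_false_iff, true_and]
  have hval : ∀ n : ℕ, jacobiSym (-(n : ℤ)) (∏ i, (a i * b i))
      = jacobiSym (-1) (∏ i, (a i * b i)) * (if ∀ p ∈ Q, ¬ p ∣ n then jacobiSym (n : ℤ) M1 else 0) := by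
    intro n
    have n1 : NeZero M1 := ⟨hM10⟩
    have n2 : NeZero (∏ i ∈ D, (a i * b i)) := ⟨Finset.prod_ne_zero_iff.2 (fun i _ => ne0 i)⟩
    rw [neg_eq_neg_one_mul, jacobiSym.mul_left]
    congr 1
    rw [hsplit, jacobiSym.mul_right, hDval n D (Finset.Subset.refl _)]
    split_ifs <;> simp
  have hsum : ∑ n ∈ Finset.Icc 1 X, jacobiSym (-(n : ℤ)) (∏ i, (a i * b i))
      = jacobiSym (-1) (∏ i, (a i * b i)) *
        ∑ n ∈ (Finset.Icc 1 X).filter (fun n => ∀ p ∈ Q, ¬ p ∣ n), jacobiSym (n : ℤ) M1 := by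
    rw [Finset.sum_filter, Finset.mul_sum]
    exact Finset.sum_congr rfl (fun n _ => hval n)
  have hs := sift (fun n => jacobiSym (n : ℤ) M1) (fun a b => by push_cast; exact jacobiSym.mul_left _ _ _)
    (fun a => jabs _ _) (Real.sqrt M1 * (1 + Real.log M1)) (fun X => hPV M1 X hodd hsq h1) Q hQp X
  rw [hsum]
  push_cast
  rw [abs_mul]
  push_cast at hs
  have hj : |((jacobiSym (-1) (∏ i, (a i * b i)) : ℤ) : ℝ)| ≤ 1 := by
    rw [← Int.cast_abs]
    exact_mod_cast jabs _ _
  have hM1R : (1 : ℝ) < M1 := by exact_mod_cast h1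
  have hyR : (1 : ℝ) ≤ y := by exact_mod_cast hy
  have hlogy : 0 ≤ Real.log y := Real.log_nonneg hyR
  have hlogM : 0 < Real.log M1 := Real.log_pos hM1R
  have hMle : (M1 : ℝ) ≤ (y : ℝ) ^ (2 * k) := by exact_mod_cast hM1y
  have hsqrt : Real.sqrt M1 ≤ (y : ℝ) ^ k := by
    rw [Real.sqrt_le_left (by positivity), ← pow_mul, mul_comm k 2]
    exact hMle
  have hlog : Real.log M1 ≤ 2 * k * Real.log y := by
    have := Real.log_le_log (by linarith) hMle
    rw [Real.log_pow] at this
    push_cast at this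
    exact this
  calc _ ≤ 1 * (2 ^ Q.card * (Real.sqrt M1 * (1 + Real.log M1))) := by
        exact mul_le_mul hj hs (abs_nonneg _) (by norm_num)
    _ ≤ 1 * (2 ^ k * ((y : ℝ) ^ k * (1 + 2 * k * Real.log y))) := by
        gcongr
        norm_num
    _ = (2 * (y : ℝ)) ^ k * (1 + 2 * k * Real.log y) := by rw [mul_pow]; ring

theorem mom3_97 (hPV : PV) : Mom3 := by
  intro k m X y P hm hy hP hD
  classical
  set J : ℕ → ℕ → ℤ := fun n p => jacobiSym (-(n : ℤ)) p with hJdef
  set T : ℕ → ℤ := fun n => ∏ i : Fin k, ∑ p ∈ P i, J n p with hT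
  set B := (Finset.Icc 1 X).filter (fun n : ℕ => (∀ i < k, ∀ p ∈ P i, jacobiSym (-(n : ℤ)) p ≠ 1) ∧
    2 * n.primeFactors.card ≤ m) with hB
  -- lower bound
  have hlow : ∀ n ∈ B, ((m : ℝ) / 2) ^ (2 * k) ≤ ((T n : ℤ) : ℝ) ^ 2 := by
    intro n hn
    rw [hB, Finset.mem_filter, Finset.mem_Icc] at hn
    obtain ⟨⟨hn1, _⟩, hn2, hn3⟩ := hn
    have e1 : ((T n : ℤ) : ℝ) ^ 2 = ∏ i : Fin k, (((∑ p ∈ P i, J n p : ℤ) : ℝ) ^ 2) := by
      rw [Finset.prod_pow, hT]
      push_cast
      rfl
    have e2 : ((m : ℝ) / 2) ^ (2 * k) = ∏ i : Fin k, ((m : ℝ) / 2) ^ 2 := by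
      rw [Finset.prod_const, Finset.card_univ, Fintype.card_fin, pow_mul]
    rw [e1, e2]
    refine Finset.prod_le_prod (fun i _ => by positivity) (fun i _ => ?_)
    exact Mom97.block m n (by omega) (P i) (hP i i.2).1 (fun p hp => ((hP i i.2).2 p hp).1)
      (hn2 i i.2) hn3
  -- the upper bound
  have hup : (((∑ n ∈ Finset.Icc 1 X, (T n) ^ 2 : ℤ)) : ℝ) ≤ (m : ℝ) ^ k * X + (m : ℝ) ^ (2 * k) * (2 * (y : ℝ)) ^ k * (1 + 2 * k * Real.log y) := by
    have e1 : ∀ n : ℕ, (T n) ^ 2 = ∑ x ∈ Fintype.piFinset (fun i : Fin k => P i ×ˢ P i),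
        J n (∏ i, ((x i).1 * (x i).2)) := by
      intro n
      have a1 : (T n) ^ 2 = ∏ i : Fin k, ∑ z ∈ P i ×ˢ P i, (J n z.1 * J n z.2) := by
        rw [hT]
        simp only
        rw [← Finset.prod_pow]
        refine Finset.prod_congr rfl (fun i _ => ?_)
        rw [sq, Finset.sum_mul_sum, Finset.sum_product]
      rw [a1, Finset.prod_univ_sum]
      refine Finset.sum_congr rfl (fun x hx => ?_)
      rw [Fintype.mem_piFinset] at hx
      have key : ∀ s : Finset (Fin k), ∏ i ∈ s, (J n (x i).1 * J n (x i).2)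
          = J n (∏ i ∈ s, ((x i).1 * (x i).2)) := by
        intro s
        induction s using Finset.induction_on with
        | empty => simp [hJdef]
        | insert a s ha ih =>
          rw [Finset.prod_insert ha, Finset.prod_insert ha, ih]
          have p1 := hx a
          rw [Finset.mem_product] at p1
          have q1 := ((hP a a.2).2 _ p1.1).1
          have q2 := ((hP a a.2).2 _ p1.2).1
          have q3 : ∏ i ∈ s, ((x i).1 * (x i).2) ≠ 0 := by
            rw [Finset.prod_ne_zero_iff]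
            intro i _
            have p2 := hx i
            rw [Finset.mem_product] at p2
            exact mul_ne_zero ((hP i i.2).2 _ p2.1).1.ne_zero ((hP i i.2).2 _ p2.2).1.ne_zero
          have : NeZero (x a).1 := ⟨q1.ne_zero⟩
          have : NeZero (x a).2 := ⟨q2.ne_zero⟩
          have : NeZero (∏ i ∈ s, ((x i).1 * (x i).2)) := ⟨q3⟩
          have : NeZero ((x a).1 * (x a).2) := ⟨mul_ne_zero q1.ne_zero q2.ne_zero⟩
          simp only [hJdef]
          rw [jacobiSym.mul_right, jacobiSym.mul_right]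
      exact key Finset.univ
    simp_rw [e1]
    rw [Finset.sum_comm]
    set S := Fintype.piFinset (fun i : Fin k => P i ×ˢ P i) with hS
    rw [← Finset.sum_filter_add_sum_filter_not S (fun x => ∀ i, (x i).1 = (x i).2), Int.cast_add]
    refine add_le_add ?_ ?_
    · -- diagonal
      have hdiag : ∑ x ∈ S.filter (fun x => ∀ i, (x i).1 = (x i).2), ∑ n ∈ Finset.Icc 1 X, J n (∏ i, ((x i).1 * (x i).2)) ≤ (m : ℤ) ^ k * X := by
        have c1 : (S.filter (fun x => ∀ i, (x i).1 = (x i).2)).card ≤ m ^ k := by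
          have : (S.filter (fun x => ∀ i, (x i).1 = (x i).2)).card ≤
              (Fintype.piFinset (fun i : Fin k => P i)).card := by
            refine Finset.card_le_card_of_injOn (fun x i => (x i).1) ?_ ?_
            · intro x hx
              have hx' := (Finset.mem_filter.1 hx).1
              rw [hS, Fintype.mem_piFinset] at hx'
              simp only [Finset.mem_coe, Fintype.mem_piFinset]
              intro i
              exact (Finset.mem_product.1 (hx' i)).1
            · intro x hx x' hx' hxx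
              have h1 := (Finset.mem_filter.1 hx).2
              have h2 := (Finset.mem_filter.1 hx').2
              funext i
              have h3 := congrFun hxx i
              simp only at h3
              exact Prod.ext h3 (by rw [← h1 i, ← h2 i, h3])
          refine this.trans_eq ?_
          rw [Fintype.card_piFinset]
          rw [Finset.prod_congr rfl (fun (i : Fin k) _ => (hP i i.2).1)]
          simp
        calc ∑ x ∈ S.filter (fun x => ∀ i, (x i).1 = (x i).2), ∑ n ∈ Finset.Icc 1 X, J n (∏ i, ((x i).1 * (x i).2))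
            ≤ ∑ x ∈ S.filter (fun x => ∀ i, (x i).1 = (x i).2), (X : ℤ) := by
              refine Finset.sum_le_sum (fun x _ => ?_)
              calc ∑ n ∈ Finset.Icc 1 X, J n (∏ i, ((x i).1 * (x i).2)) ≤ ∑ n ∈ Finset.Icc 1 X, (1 : ℤ) := by
                    refine Finset.sum_le_sum (fun n _ => ?_)
                    rcases jacobiSym.trichotomy (-(n:ℤ)) (∏ i, ((x i).1 * (x i).2)) with h | h | h <;>
                      simp only [hJdef, h] <;> norm_num
                _ = (X : ℤ) := by simp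
          _ = ((S.filter (fun x => ∀ i, (x i).1 = (x i).2)).card : ℤ) * X := by simp
          _ ≤ (m : ℤ) ^ k * X := by
              refine mul_le_mul_of_nonneg_right ?_ (by positivity)
              exact_mod_cast c1
      exact_mod_cast hdiag
    · -- off the diagonal
      have c2 : S.card = m ^ (2 * k) := by
        rw [hS, Fintype.card_piFinset]
        rw [Finset.prod_congr rfl (fun (i : Fin k) _ => by rw [Finset.card_product, (hP i i.2).1])]
        simp [pow_mul, sq]
      have hR0 : 0 ≤ (2 * (y : ℝ)) ^ k * (1 + 2 * k * Real.log y) := by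
        have : 0 ≤ Real.log y := Real.log_nonneg (by exact_mod_cast hy)
        positivity
      have c3 : ∀ x ∈ S.filter (fun x => ¬ ∀ i, (x i).1 = (x i).2),
          ((∑ n ∈ Finset.Icc 1 X, J n (∏ i, ((x i).1 * (x i).2)) : ℤ) : ℝ)
            ≤ (2 * (y : ℝ)) ^ k * (1 + 2 * k * Real.log y) := by
        intro x hx
        rw [Finset.mem_filter] at hx
        obtain ⟨hxS, hxn⟩ := hx
        rw [hS, Fintype.mem_piFinset] at hxS
        push Not at hxn
        have m1 : ∀ i : Fin k, (x i).1 ∈ P i := fun i => (Finset.mem_product.1 (hxS i)).1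
        have m2 : ∀ i : Fin k, (x i).2 ∈ P i := fun i => (Finset.mem_product.1 (hxS i)).2
        refine (le_abs_self _).trans ?_
        refine off hPV k X y hy (fun i => (x i).1) (fun i => (x i).2)
          (fun i => ((hP i i.2).2 _ (m1 i)).1) (fun i => ((hP i i.2).2 _ (m2 i)).1)
          (fun i => ((hP i i.2).2 _ (m1 i)).2.1) (fun i => ((hP i i.2).2 _ (m2 i)).2.1)
          (fun i => ((hP i i.2).2 _ (m1 i)).2.2) (fun i => ((hP i i.2).2 _ (m2 i)).2.2) ?_ hxn
        intro i j hij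
        have hdis := Finset.disjoint_left.1 (hD i i.2 j j.2 (fun h => hij (Fin.ext h)))
        refine ⟨fun h => ?_, fun h => ?_, fun h => ?_, fun h => ?_⟩
        · exact hdis (m1 i) (h ▸ m1 j)
        · exact hdis (m1 i) (h ▸ m2 j)
        · exact hdis (m2 i) (h ▸ m1 j)
        · exact hdis (m2 i) (h ▸ m2 j)
      rw [Int.cast_sum]
      calc ∑ x ∈ S.filter (fun x => ¬ ∀ i, (x i).1 = (x i).2), ((∑ n ∈ Finset.Icc 1 X, J n (∏ i, ((x i).1 * (x i).2)) : ℤ) : ℝ)
          ≤ ∑ x ∈ S.filter (fun x => ¬ ∀ i, (x i).1 = (x i).2), ((2 * (y : ℝ)) ^ k * (1 + 2 * k * Real.log y)) := Finset.sum_le_sum c3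
        _ = ((S.filter (fun x => ¬ ∀ i, (x i).1 = (x i).2)).card : ℝ) * ((2 * (y : ℝ)) ^ k * (1 + 2 * k * Real.log y)) := by
            rw [Finset.sum_const, nsmul_eq_mul]
        _ ≤ (m : ℝ) ^ (2 * k) * ((2 * (y : ℝ)) ^ k * (1 + 2 * k * Real.log y)) := by
            refine mul_le_mul_of_nonneg_right ?_ hR0
            have : (S.filter (fun x => ¬ ∀ i, (x i).1 = (x i).2)).card ≤ m ^ (2 * k) := by
              rw [← c2]
              exact Finset.card_filter_le _ _
            exact_mod_cast this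
        _ = (m : ℝ) ^ (2 * k) * (2 * (y : ℝ)) ^ k * (1 + 2 * k * Real.log y) := by ring
  have hupR : (∑ n ∈ Finset.Icc 1 X, ((T n : ℤ) : ℝ) ^ 2) ≤ (m : ℝ) ^ k * X + (m : ℝ) ^ (2 * k) * (2 * (y : ℝ)) ^ k * (1 + 2 * k * Real.log y) := by
    push_cast at hup
    exact hup
  calc (B.card : ℝ) * ((m : ℝ) / 2) ^ (2 * k) = ∑ n ∈ B, ((m : ℝ) / 2) ^ (2 * k) := by simp
    _ ≤ ∑ n ∈ B, ((T n : ℤ) : ℝ) ^ 2 := Finset.sum_le_sum hlow
    _ ≤ ∑ n ∈ Finset.Icc 1 X, ((T n : ℤ) : ℝ) ^ 2 :=
        Finset.sum_le_sum_of_subset_of_nonneg (Finset.filter_subset _ _) (fun _ _ _ => sq_nonneg _)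
    _ ≤ _ := hupR



end Pool.Agent.OS.Mom3_97
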