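import Mathlib
import Pool.Agent.OS.Stmts3
import Pool.Agent.OS.Char89

set_option autoImplicit false

namespace Pool.Agent.OS.PV97

open Finset ZMod DirichletCharacter Complex

/-- the Jacobi symbol as a Dirichlet character -/
noncomputable def chi (M : ℕ) [NeZero M] (h1 : 1 < M) : DirichletCharacter ℂ M where
  toFun a := ((jacobiSym (a.val : ℤ) M : ℤ) : ℂ)
  map_one' := by
    have : Fact (1 < M) := ⟨h1⟩
    rw [ZMod.val_one]
    simp
  map_mul' a b := by
    rw [ZMod.val_mul]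
    push_cast
    rw [← jacobiSym.mod_left, jacobiSym.mul_left]
    push_cast
    rfl
  map_nonunit' a ha := by
    have h : jacobiSym (a.val : ℤ) M = 0 := by
      rw [jacobiSym.eq_zero_iff_not_coprime, Int.gcd_natCast_natCast]
      intro h
      apply ha
      have := (ZMod.isUnit_iff_coprime a.val M).2 h
      rwa [ZMod.natCast_zmod_val] at this
    show ((jacobiSym (a.val : ℤ) M : ℤ) : ℂ) = 0
    rw [h]
    simp

theorem chi_nat (M : ℕ) [NeZero M] (h1 : 1 < M) (n : ℕ) :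
    chi M h1 (n : ZMod M) = ((jacobiSym (n : ℤ) M : ℤ) : ℂ) := by
  show ((jacobiSym (((n : ZMod M)).val : ℤ) M : ℤ) : ℂ) = _
  rw [ZMod.val_natCast]
  push_cast
  rw [← jacobiSym.mod_left]

theorem chi_quad (M : ℕ) [NeZero M] (h1 : 1 < M) : (chi M h1).IsQuadratic := by
  intro a
  show ((jacobiSym (a.val : ℤ) M : ℤ) : ℂ) = 0 ∨ ((jacobiSym (a.val : ℤ) M : ℤ) : ℂ) = 1 ∨
    ((jacobiSym (a.val : ℤ) M : ℤ) : ℂ) = -1
  rcases jacobiSym.trichotomy (a.val : ℤ) M with h | h | h <;> rw [h] <;> simp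

theorem exists_u (p N : ℕ) (hp : p.Prime) (hp2 : p ≠ 2) (hN : N ≠ 0) (hcop : p.Coprime N) :
    ∃ u : ℕ, jacobiSym (u : ℤ) (p * N) = -1 ∧ u ≡ 1 [MOD N] := by
  have : Fact p.Prime := ⟨hp⟩
  obtain ⟨g, hg⟩ := FiniteField.exists_nonsquare (F := ZMod p) (by rw [ZMod.ringChar_zmod_n]; exact hp2)
  obtain ⟨u, hu1, hu2⟩ := Nat.chineseRemainder hcop g.val 1
  refine ⟨u, ?_, hu2⟩
  have : NeZero N := ⟨hN⟩
  have : NeZero p := ⟨hp.ne_zero⟩
  rw [jacobiSym.mul_right]
  have h1 : jacobiSym (u : ℤ) p = -1 := by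
    rw [← jacobiSym.legendreSym.to_jacobiSym, legendreSym.eq_neg_one_iff]
    have : ((u : ℤ) : ZMod p) = g := by
      have h2 : ((u : ℕ) : ZMod p) = ((g.val : ℕ) : ZMod p) := (ZMod.natCast_eq_natCast_iff _ _ _).mpr hu1
      rw [ZMod.natCast_zmod_val] at h2
      exact_mod_cast h2
    rw [this]
    exact hg
  have h2 : jacobiSym (u : ℤ) N = 1 := by
    have h3 : (u : ℤ) % N = (1 : ℤ) % N := by
      have : (u : ℤ) ≡ ((1 : ℕ) : ℤ) [ZMOD N] := Int.natCast_modEq_iff.mpr hu2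
      exact_mod_cast this
    rw [jacobiSym.mod_left, h3, ← jacobiSym.mod_left, jacobiSym.one_left]
  rw [h1, h2]
  norm_num

theorem chi_prim (M : ℕ) [NeZero M] (h1 : 1 < M) (hodd : Odd M) (hsq : Squarefree M) :
    (chi M h1).IsPrimitive := by
  rw [DirichletCharacter.isPrimitive_def]
  by_contra hne
  set d := (chi M h1).conductor with hd
  have hdM : d ∣ M := DirichletCharacter.conductor_dvd_level _
  obtain ⟨e, he⟩ := hdM
  have hM0 : M ≠ 0 := NeZero.ne M
  have he1 : e ≠ 1 := by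
    rintro rfl
    rw [mul_one] at he
    exact hne he.symm
  obtain ⟨p, hp, hpe⟩ := Nat.exists_prime_and_dvd he1
  obtain ⟨e', he'⟩ := hpe
  have hMp : M = p * (d * e') := by rw [he, he']; ring
  have hN0 : d * e' ≠ 0 := by
    intro h
    rw [h, mul_zero] at hMp
    exact hM0 hMp
  have hcop : p.Coprime (d * e') := by
    rw [Nat.Prime.coprime_iff_not_dvd hp]
    rintro ⟨t, ht⟩
    have : p * p ∣ M := ⟨t, by rw [hMp, ht]; ring⟩
    have := hsq p this
    exact hp.one_lt.ne' (Nat.isUnit_iff.1 this)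
  have hp2 : p ≠ 2 := by
    rintro rfl
    rw [hMp] at hodd
    exact (Nat.not_odd_iff_even.2 (even_two_mul _)) hodd
  obtain ⟨u, hu, hu1⟩ := exists_u p (d * e') hp hp2 hN0 hcop
  rw [← hMp] at hu
  have hft : (chi M h1).FactorsThrough d := DirichletCharacter.factorsThrough_conductor _
  obtain ⟨hdv, χ₀, hχ₀⟩ := hft
  have hcu : IsCoprime (u : ℤ) (M : ℤ) := by
    rw [Int.isCoprime_iff_gcd_eq_one]
    by_contra hg
    have := jacobiSym.eq_zero_iff_not_coprime.2 hg
    rw [this] at hu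
    norm_num at hu
  have h3 := changeLevel_eq_cast_of_dvd' χ₀ hdv hcu
  rw [← hχ₀] at h3
  have h4 : ((u : ℤ) : ZMod d) = 1 := by
    have : u ≡ 1 [MOD d] := Nat.ModEq.of_mul_right e' hu1
    have := (ZMod.natCast_eq_natCast_iff _ _ _).2 this
    push_cast at this ⊢
    exact this
  rw [h4, map_one] at h3
  have h5 := chi_nat M h1 u
  push_cast at h3
  rw [h5, hu] at h3
  norm_num at h3

open scoped ZMod

theorem gauss_norm (M : ℕ) [NeZero M] (h1 : 1 < M) (hodd : Odd M) (hsq : Squarefree M) :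
    ‖gaussSum (chi M h1) (stdAddChar (N := M))‖ = Real.sqrt M := by
  set χ := chi M h1 with hχ
  have hp := chi_prim M h1 hodd hsq
  have hq := chi_quad M h1
  set τ := gaussSum χ (stdAddChar (N := M)) with hτ
  have f1 : ∀ k : ZMod M, 𝓕 χ k = χ (-k) * τ := by
    intro k
    have := hp.fourierTransform_eq_inv_mul_gaussSum k
    rw [hq.inv] at this
    exact this
  have f2 : 𝓕 (𝓕 (χ : ZMod M → ℂ)) (-1) = (M : ℂ) := by
    rw [ZMod.dft_dft]
    simp
  have f3 : 𝓕 (𝓕 (χ : ZMod M → ℂ)) (-1) = χ (-1) * τ * τ := by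
    have e : (𝓕 (χ : ZMod M → ℂ)) = fun k => (χ (-1) * τ) * χ k := by
      funext k
      rw [f1 k, neg_eq_neg_one_mul, map_mul]
      ring
    rw [e]
    have : 𝓕 (fun k : ZMod M => (χ (-1) * τ) * χ k) (-1) = (χ (-1) * τ) * 𝓕 (χ : ZMod M → ℂ) (-1) := by
      rw [ZMod.dft_apply, ZMod.dft_apply, Finset.mul_sum]
      refine Finset.sum_congr rfl (fun j _ => ?_)
      simp only [smul_eq_mul]
      ring
    rw [this, f1]
    simp
  rw [f2] at f3
  have h2 : ‖χ (-1)‖ = 1 := by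
    have h3 : χ (-1) * χ (-1) = 1 := by rw [← map_mul]; simp
    have h4 : ‖χ (-1)‖ * ‖χ (-1)‖ = 1 := by rw [← norm_mul, h3, norm_one]
    nlinarith [norm_nonneg (χ (-1))]
  have h5 : (M : ℝ) = ‖τ‖ * ‖τ‖ := by
    have := congrArg (fun z : ℂ => ‖z‖) f3
    simp only [norm_mul, h2, one_mul] at this
    rw [Complex.norm_natCast] at this
    exact this
  rw [h5, Real.sqrt_mul_self (norm_nonneg _)]

theorem geo (z : ℂ) (hz : ‖z‖ = 1) (X : ℕ) : ‖∑ n ∈ Finset.Icc 1 X, z ^ n‖ * ‖z - 1‖ ≤ 2 := by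
  have e : ∑ n ∈ Finset.Icc 1 X, z ^ n = z * ∑ i ∈ Finset.range X, z ^ i := by
    rw [Finset.mul_sum, ← Finset.Ico_add_one_right_eq_Icc, Finset.sum_Ico_eq_sum_range]
    refine Finset.sum_congr (by simp) (fun i _ => ?_)
    rw [pow_add, pow_one]
  rw [e, norm_mul, hz, one_mul, ← norm_mul, geom_sum_mul]
  calc ‖z ^ X - 1‖ ≤ ‖z ^ X‖ + ‖(1 : ℂ)‖ := norm_sub_le _ _
    _ = 2 := by rw [norm_pow, hz]; norm_num

theorem std_norm (M : ℕ) [NeZero M] (k : ZMod M) : ‖(stdAddChar k : ℂ)‖ = 1 := by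
  rw [ZMod.stdAddChar_apply]
  exact Circle.norm_coe _

theorem std_sub (M : ℕ) [NeZero M] (k : ZMod M) (hk : k ≠ 0) :
    1 ≤ ‖(stdAddChar k : ℂ) - 1‖ * ((M : ℝ) / 4 * (1 / (k.val : ℝ) + 1 / ((M : ℝ) - k.val))) := by
  have hM : (0 : ℝ) < M := by exact_mod_cast NeZero.pos M
  have hv : 0 < k.val := by
    rcases Nat.eq_zero_or_pos k.val with h | h
    · exact absurd ((ZMod.val_eq_zero k).1 h) hk
    · exact h
  have hvR : (0 : ℝ) < k.val := by exact_mod_cast hv
  have hlt : (k.val : ℝ) < M := by exact_mod_cast ZMod.val_lt k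
  have e1 : (stdAddChar k : ℂ) = Complex.exp (Complex.I * ((2 * Real.pi * (k.val / M) : ℝ) : ℂ)) := by
    have := ZMod.stdAddChar_coe (N := M) (k.val : ℤ)
    have h2 : (((k.val : ℤ)) : ZMod M) = k := by
      push_cast
      exact ZMod.natCast_zmod_val k
    rw [h2] at this
    rw [this]
    congr 1
    push_cast
    ring
  rw [e1, Complex.norm_exp_I_mul_ofReal_sub_one]
  have e2 : 2 * Real.pi * ((k.val : ℝ) / M) / 2 = Real.pi * ((k.val : ℝ) / M) := by ring
  rw [e2]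
  set t : ℝ := (k.val : ℝ) / M with ht
  have ht0 : 0 < t := div_pos hvR hM
  have ht1 : t < 1 := (div_lt_one hM).2 hlt
  have hs : 0 < Real.sin (Real.pi * t) :=
    Real.sin_pos_of_pos_of_lt_pi (by positivity) (by nlinarith [Real.pi_pos])
  have hv' : (k.val : ℝ) = t * M := by rw [ht]; field_simp
  have e3 : (M : ℝ) / 4 * (1 / (k.val : ℝ) + 1 / ((M : ℝ) - k.val)) = 1 / (4 * t) + 1 / (4 * (1 - t)) := by
    rw [hv']
    have : (M : ℝ) - t * M = (1 - t) * M := by ring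
    rw [this]
    have : (1 - t) ≠ 0 := by linarith
    field_simp
  rw [e3, Real.norm_eq_abs, abs_of_pos (by positivity)]
  have h1t : 0 < 1 - t := by linarith
  rcases le_total t (1 / 2) with h | h
  · have hb := Real.mul_le_sin (x := Real.pi * t) (by positivity) (by nlinarith [Real.pi_pos])
    have hb2 : 2 / Real.pi * (Real.pi * t) = 2 * t := by field_simp
    rw [hb2] at hb
    have h4 : (0:ℝ) ≤ 1 / (4 * (1 - t)) := by positivity
    calc (1 : ℝ) = 2 * (2 * t) * (1 / (4 * t)) := by field_simp; norm_num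
      _ ≤ 2 * Real.sin (Real.pi * t) * (1 / (4 * t) + 1 / (4 * (1 - t))) := by
        refine mul_le_mul (by linarith) (by linarith) (by positivity) (by positivity)
  · have e5 : Real.sin (Real.pi * t) = Real.sin (Real.pi * (1 - t)) := by
      rw [← Real.sin_pi_sub]
      congr 1
      ring
    have hb := Real.mul_le_sin (x := Real.pi * (1 - t)) (by positivity) (by nlinarith [Real.pi_pos])
    have hb2 : 2 / Real.pi * (Real.pi * (1 - t)) = 2 * (1 - t) := by field_simp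
    rw [hb2, ← e5] at hb
    have h4 : (0:ℝ) ≤ 1 / (4 * t) := by positivity
    calc (1 : ℝ) = 2 * (2 * (1 - t)) * (1 / (4 * (1 - t))) := by field_simp; norm_num
      _ ≤ 2 * Real.sin (Real.pi * t) * (1 / (4 * t) + 1 / (4 * (1 - t))) := by
        refine mul_le_mul (by linarith) (by linarith) (by positivity) (by positivity)

theorem harm (M : ℕ) (h1 : 1 < M) : ∑ v ∈ Finset.Ico 1 M, (1 : ℝ) / v ≤ 1 + Real.log M := by
  have h := harmonic_le_one_add_log M
  rw [harmonic_eq_sum_Icc] at h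
  push_cast at h
  refine le_trans ?_ h
  refine (Finset.sum_le_sum_of_subset_of_nonneg (t := Finset.Icc 1 M) ?_ (fun _ _ _ => by positivity)).trans_eq ?_
  · intro v hv
    rw [Finset.mem_Ico] at hv
    rw [Finset.mem_Icc]
    omega
  · exact Finset.sum_congr rfl (fun _ _ => by rw [one_div])

theorem sumv (M : ℕ) [NeZero M] (h1 : 1 < M) :
    ∑ k ∈ (Finset.univ : Finset (ZMod M)).erase 0, (1 / (k.val : ℝ) + 1 / ((M : ℝ) - k.val))
      ≤ 2 * (1 + Real.log M) := by
  have e1 : ∑ k ∈ (Finset.univ : Finset (ZMod M)).erase 0, (1 / (k.val : ℝ) + 1 / ((M : ℝ) - k.val))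
      = ∑ v ∈ Finset.Ico 1 M, (1 / (v : ℝ) + 1 / ((M : ℝ) - v)) := by
    refine Finset.sum_nbij (fun k => k.val) ?_ ?_ ?_ (fun _ _ => rfl)
    · intro k hk
      have hk0 := (Finset.mem_erase.1 hk).1
      rw [Finset.mem_Ico]
      refine ⟨?_, ZMod.val_lt k⟩
      rcases Nat.eq_zero_or_pos k.val with h | h
      · exact absurd ((ZMod.val_eq_zero k).1 h) hk0
      · exact h
    · intro a _ b _ hab
      exact ZMod.val_injective M hab
    · intro v hv
      have hv' := Finset.mem_Ico.1 (Finset.mem_coe.1 hv)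
      refine ⟨(v : ZMod M), ?_, ZMod.val_natCast_of_lt hv'.2⟩
      rw [Finset.mem_coe, Finset.mem_erase]
      refine ⟨?_, Finset.mem_univ _⟩
      intro h
      have : ((v : ZMod M)).val = 0 := by rw [h, ZMod.val_zero]
      rw [ZMod.val_natCast_of_lt hv'.2] at this
      omega
  have e2 : ∑ v ∈ Finset.Ico 1 M, 1 / ((M : ℝ) - v) = ∑ v ∈ Finset.Ico 1 M, (1 : ℝ) / v := by
    refine Finset.sum_nbij' (fun v => M - v) (fun v => M - v) ?_ ?_ ?_ ?_ ?_
    · intro v hv; rw [Finset.mem_Ico] at hv ⊢; omega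
    · intro v hv; rw [Finset.mem_Ico] at hv ⊢; omega
    · intro v hv; rw [Finset.mem_Ico] at hv; omega
    · intro v hv; rw [Finset.mem_Ico] at hv; omega
    · intro v hv
      rw [Finset.mem_Ico] at hv
      rw [Nat.cast_sub (by omega)]
  rw [e1, Finset.sum_add_distrib, e2]
  have := harm M h1
  linarith

theorem pv97 : PV := by
  intro M X hodd hsq h1
  have : NeZero M := ⟨by omega⟩
  have hM : (0 : ℝ) < M := by exact_mod_cast (by omega : 0 < M)
  set χ := chi M h1 with hχ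
  have hp := chi_prim M h1 hodd hsq
  have hq := chi_quad M h1
  set τ := gaussSum χ (stdAddChar (N := M)) with hτ
  have hτn : ‖τ‖ = Real.sqrt M := gauss_norm M h1 hodd hsq
  have f1 : ∀ k : ZMod M, 𝓕 χ k = χ (-k) * τ := by
    intro k
    have := hp.fourierTransform_eq_inv_mul_gaussSum k
    rw [hq.inv] at this
    exact this
  have fn : ∀ k : ZMod M, ‖𝓕 χ k‖ ≤ Real.sqrt M := by
    intro k
    rw [f1 k, norm_mul, hτn]
    have : ‖χ (-k)‖ ≤ 1 := by
      rcases hq (-k) with h | h | h <;> rw [h] <;> simp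
    nlinarith [Real.sqrt_nonneg (M : ℝ)]
  have f0 : 𝓕 χ 0 = 0 := by
    rw [f1 0, neg_zero]
    have : χ (0 : ZMod M) = 0 := by
      have h := chi_nat M h1 0
      rw [Nat.cast_zero] at h
      rw [hχ, h]
      have : jacobiSym ((0 : ℕ) : ℤ) M = 0 := by
        rw [Nat.cast_zero]
        exact jacobiSym.zero_left h1
      rw [this]
      simp
    rw [this, zero_mul]
  have inv : ∀ n : ℕ, (M : ℂ) * χ (n : ZMod M) = ∑ j : ZMod M, 𝓕 χ j * (stdAddChar j : ℂ) ^ n := by
    intro n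
    have h := congrFun (ZMod.dft_dft (N := M) (χ : ZMod M → ℂ)) (-(n : ZMod M))
    simp only [neg_neg, smul_eq_mul] at h
    rw [← h, ZMod.dft_apply]
    refine Finset.sum_congr rfl (fun j _ => ?_)
    rw [smul_eq_mul, mul_comm]
    congr 1
    rw [← AddChar.map_nsmul_eq_pow]
    congr 1
    rw [nsmul_eq_mul]
    ring
  have key : (M : ℂ) * ∑ n ∈ Finset.Icc 1 X, χ (n : ZMod M) =
      ∑ j ∈ (Finset.univ : Finset (ZMod M)).erase 0, 𝓕 χ j * ∑ n ∈ Finset.Icc 1 X, (stdAddChar j : ℂ) ^ n := by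
    rw [Finset.mul_sum, Finset.sum_congr rfl (fun n _ => inv n), Finset.sum_comm]
    rw [← Finset.add_sum_erase Finset.univ _ (Finset.mem_univ (0 : ZMod M))]
    simp only [f0, zero_mul, Finset.sum_const_zero, zero_add]
    refine Finset.sum_congr rfl (fun j _ => ?_)
    rw [Finset.mul_sum]
  have hb : ‖(M : ℂ) * ∑ n ∈ Finset.Icc 1 X, χ (n : ZMod M)‖ ≤
      ∑ j ∈ (Finset.univ : Finset (ZMod M)).erase 0,
        Real.sqrt M * ((M : ℝ) / 2 * (1 / (j.val : ℝ) + 1 / ((M : ℝ) - j.val))) := by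
    rw [key]
    refine (norm_sum_le _ _).trans (Finset.sum_le_sum (fun j hj => ?_))
    have hj0 := (Finset.mem_erase.1 hj).1
    rw [norm_mul]
    refine mul_le_mul (fn j) ?_ (norm_nonneg _) (Real.sqrt_nonneg _)
    have g := geo (stdAddChar j : ℂ) (std_norm M j) X
    have s := std_sub M j hj0
    set A := ‖∑ n ∈ Finset.Icc 1 X, (stdAddChar j : ℂ) ^ n‖ with hA
    set B := ‖(stdAddChar j : ℂ) - 1‖ with hB
    set D := 1 / (j.val : ℝ) + 1 / ((M : ℝ) - j.val) with hD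
    have hA0 : 0 ≤ A := norm_nonneg _
    have hD0 : 0 ≤ D := by
      have hlt : (j.val : ℝ) < M := by exact_mod_cast ZMod.val_lt j
      have : 0 < (M : ℝ) - j.val := by linarith
      positivity
    calc A ≤ A * (B * ((M : ℝ) / 4 * D)) := le_mul_of_one_le_right hA0 s
      _ = (A * B) * ((M : ℝ) / 4 * D) := by ring
      _ ≤ 2 * ((M : ℝ) / 4 * D) := mul_le_mul_of_nonneg_right g (by positivity)
      _ = (M : ℝ) / 2 * D := by ring
  have hb2 : (M : ℝ) * ‖∑ n ∈ Finset.Icc 1 X, χ (n : ZMod M)‖ ≤ (M : ℝ) * (Real.sqrt M * (1 + Real.log M)) := by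
    rw [norm_mul, Complex.norm_natCast] at hb
    refine hb.trans ?_
    rw [← Finset.mul_sum, ← Finset.mul_sum]
    have := sumv M h1
    calc Real.sqrt M * ((M : ℝ) / 2 * ∑ j ∈ (Finset.univ : Finset (ZMod M)).erase 0, (1 / (j.val : ℝ) + 1 / ((M : ℝ) - j.val)))
        ≤ Real.sqrt M * ((M : ℝ) / 2 * (2 * (1 + Real.log M))) := by
          refine mul_le_mul_of_nonneg_left ?_ (Real.sqrt_nonneg _)
          exact mul_le_mul_of_nonneg_left this (by positivity)
      _ = (M : ℝ) * (Real.sqrt M * (1 + Real.log M)) := by ring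
  have hb3 := le_of_mul_le_mul_left hb2 hM
  refine le_trans (le_of_eq ?_) hb3
  have e : ∑ n ∈ Finset.Icc 1 X, χ (n : ZMod M) = (((∑ n ∈ Finset.Icc 1 X, jacobiSym (n : ℤ) M : ℤ) : ℝ) : ℂ) := by
    push_cast
    exact Finset.sum_congr rfl (fun n _ => chi_nat M h1 n)
  rw [e, Complex.norm_real, Real.norm_eq_abs]

end Pool.Agent.OS.PV97
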