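import Mathlib
import Pool.Agent.OS.Stmts
import Pool.Agent.Helper75.LG.Om

set_option autoImplicit false

namespace Pool.Agent.OS

open Finset

theorem pri217 : Pri2 := by
  have h1 : ∀ᶠ t : ℕ in Filter.atTop, Real.log (t : ℝ) ≤ (1 / 46) * (t : ℝ) := by
    have h := (Real.isLittleO_log_id_atTop.comp_tendsto tendsto_natCast_atTop_atTop).bound
      (show (0 : ℝ) < 1 / 46 by norm_num)
    filter_upwards [h, Filter.eventually_ge_atTop 1] with t ht h1
    simp only [Function.comp_apply, id_eq, Real.norm_eq_abs] at ht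
    rw [abs_of_nonneg (Real.log_nonneg (by exact_mod_cast h1)), abs_of_nonneg (by positivity)] at ht
    exact ht
  obtain ⟨t₀, ht₀⟩ := Filter.eventually_atTop.1 h1
  refine ⟨max t₀ 2, fun t ht => ?_⟩
  have ht2 : 2 ≤ t := le_trans (le_max_right _ _) ht
  have htl := ht₀ t (le_trans (le_max_left _ _) ht)
  have ht2R : (2 : ℝ) ≤ t := by exact_mod_cast ht2
  have hlog : 0 < Real.log (t : ℝ) := Real.log_pos (by linarith)
  have hpi := Chebyshev.pi_ge (t ^ 7)
  have hlt : Real.log ((t ^ 7 : ℕ) : ℝ) = 7 * Real.log t := by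
    push_cast
    rw [Real.log_pow]; norm_num
  have hlt1 : Real.log (((t ^ 7 : ℕ) : ℝ) + 1) ≤ 8 * Real.log t := by
    have : (8 : ℝ) * Real.log t = Real.log ((t : ℝ) ^ 8) := by rw [Real.log_pow]; norm_num
    rw [this]
    apply Real.log_le_log (by positivity)
    push_cast
    have h7 : (1 : ℝ) ≤ (t : ℝ) ^ 7 := one_le_pow₀ (by linarith)
    calc (t : ℝ) ^ 7 + 1 ≤ (t : ℝ) ^ 7 + (t : ℝ) ^ 7 := by linarith
      _ = 2 * (t : ℝ) ^ 7 := by ring
      _ ≤ t * (t : ℝ) ^ 7 := by gcongr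
      _ = (t : ℝ) ^ 8 := by ring
  have hl2 : (1 : ℝ) / 2 ≤ Real.log 2 := by
    have := Real.log_two_gt_d9
    linarith
  -- lower bound
  have hkey : (t : ℝ) ^ 6 + 1 ≤ ((Nat.primeCounting (t ^ 7) : ℕ) : ℝ) := by
    refine le_trans ?_ hpi
    rw [hlt, le_div_iff₀ (by positivity)]
    have h6 : (1 : ℝ) ≤ (t : ℝ) ^ 6 := one_le_pow₀ (by linarith)
    have h7 : ((t ^ 7 : ℕ) : ℝ) = (t : ℝ) ^ 6 * t := by push_cast; ring
    have hA : ((t ^ 7 : ℕ) : ℝ) * (1 / 2) ≤ ((t ^ 7 : ℕ) : ℝ) * Real.log 2 := by gcongr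
    have hB : (t : ℝ) ^ 6 * Real.log t ≤ (t : ℝ) ^ 6 * ((1 / 46) * t) := by gcongr
    have hC : Real.log t ≤ (t : ℝ) ^ 6 * Real.log t := le_mul_of_one_le_left hlog.le h6
    rw [h7] at hA
    rw [h7]
    rw [h7] at hlt1
    nlinarith
  have hcard : Nat.primeCounting (t ^ 7) ≤
      ((Finset.Icc 1 (t ^ 7)).filter (fun p => p.Prime ∧ p ≠ 2)).card + 1 := by
    rw [Nat.primeCounting, Nat.primeCounting', Nat.count_eq_card_filter_range]
    have hsub : (Finset.range (t ^ 7 + 1)).filter Nat.Prime ⊆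
        insert 2 ((Finset.Icc 1 (t ^ 7)).filter (fun p => p.Prime ∧ p ≠ 2)) := by
      intro p hp
      rw [Finset.mem_filter, Finset.mem_range] at hp
      rw [Finset.mem_insert, Finset.mem_filter, Finset.mem_Icc]
      by_cases h : p = 2
      · exact Or.inl h
      · exact Or.inr ⟨⟨hp.2.one_lt.le, by omega⟩, hp.2, h⟩
    exact (Finset.card_le_card hsub).trans (Finset.card_insert_le _ _)
  have hcardR : ((Nat.primeCounting (t ^ 7) : ℕ) : ℝ) ≤
      (((Finset.Icc 1 (t ^ 7)).filter (fun p => p.Prime ∧ p ≠ 2)).card : ℝ) + 1 := by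
    exact_mod_cast hcard
  have : (t : ℝ) ^ 6 ≤ (((Finset.Icc 1 (t ^ 7)).filter (fun p => p.Prime ∧ p ≠ 2)).card : ℝ) := by
    linarith
  exact_mod_cast this

theorem pri117 : Pri1 := by
  obtain ⟨C0, hC0⟩ := LG.sum_recip_loglog
  refine ⟨1 + |C0|, by positivity, fun X hX => ?_⟩
  have h1 := hC0 X (by omega)
  have hX' : (16 : ℝ) ≤ X := by exact_mod_cast hX
  have hl16 : Real.exp 1 ≤ Real.log 16 := by
    have h16 : Real.log 16 = 4 * Real.log 2 := by
      rw [show (16 : ℝ) = 2 ^ 4 by norm_num, Real.log_pow]; norm_num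
    rw [h16]
    have := Real.log_two_gt_d9
    have := Real.exp_one_lt_d9
    linarith
  have hll : 1 ≤ Real.log (Real.log X) := by
    rw [Real.le_log_iff_exp_le (Real.log_pos (by linarith))]
    exact hl16.trans (Real.log_le_log (by norm_num) hX')
  have h2 : C0 ≤ |C0| * Real.log (Real.log X) :=
    (le_abs_self C0).trans (le_mul_of_one_le_right (abs_nonneg _) hll)
  have h3 : ∑ p ∈ (Finset.Icc 1 X).filter Nat.Prime, (1 : ℝ) / p ≤ Real.log (Real.log X) + C0 := h1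
  linarith

end Pool.Agent.OS
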