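import Pool.Agent.OS.Stmts3
import Pool.Agent.OS.Asm389
import Pool.Agent.OS.PV97
import Pool.Agent.OS.Mom3_97
import Pool.Agent.OS.Ono93
import Pool.Agent.OS.Om3
import Pool.Agent.OS.Pri17
import Pool.Agent.OS.PriB17

/-!
# MP_ddb6ee_nt: composition of the rows, exponent `5 / 8`
-/

set_option autoImplicit false

namespace Pool.Agent.OS.Fin3_75

/-- the number of squarefree `D ≤ X` whose discriminant has Ono invariant `ω(Δ)` is `O(X ^ (5 / 8))` -/
theorem main3 : Main3 :=
  Asm389.asm389 Ono93.ono93 (Mom3_97.mom3_97 PV97.pv97) om3 pri117 pri317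

end Pool.Agent.OS.Fin3_75
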