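import Pool.Agent.OS.Asm75
import Pool.Agent.OS.Ono93
import Pool.Agent.OS.Mom77
import Pool.Agent.OS.Char89
import Pool.Agent.OS.Om3
import Pool.Agent.OS.Pri54

/-! # MP_ddb6ee_nt: the composition with the exponent 9/10 -/

set_option autoImplicit false

namespace Pool.Agent.OS.Fin54

theorem main9 : Pool.Agent.OS.Main :=
  Pool.Agent.OS.Asm75.asm75 Pool.Agent.OS.Ono93.ono93 (Pool.Agent.OS.Mom77.mom77 Pool.Agent.OS.Char89.char89)
    Pool.Agent.OS.om3 Pool.Agent.OS.pri1_54 Pool.Agent.OS.pri2_54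

end Pool.Agent.OS.Fin54
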