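import Pool.Agent.OS.Stmts2
import Pool.Agent.OS.Asm275
import Pool.Agent.OS.Char89
import Pool.Agent.OS.Mom77
import Pool.Agent.OS.Ono93
import Pool.Agent.OS.Om3
import Pool.Agent.OS.Pri17
import Pool.Agent.OS.PriB17

/-!
# MP_ddb6ee_nt: composition of the rows
-/

set_option autoImplicit false

namespace Pool.Agent.OS.Fin75

/-- the number of squarefree `D ≤ X` whose discriminant has Ono invariant `ω(Δ)` is `O(X ^ (3 / 4 + ε))` -/
theorem main2 : Main2 :=
  Asm275.asm275 Ono93.ono93 (Mom77.mom77 Char89.char89) om3 pri117 pri317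

end Pool.Agent.OS.Fin75
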