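import Pool.Agent.OS.Stmts

/-!
# MP_ddb6ee_nt: row OM (Rankin), second copy (helper34)
-/

set_option autoImplicit false

namespace Pool.Agent.OS.Om34

open Finset

theorem om34 : Pool.Agent.OS.Om := by
  classical
  intro X w z hz
  obtain ⟨Q, hQ⟩ : ∃ Q, Q = (Icc 1 X).filter Nat.Prime := ⟨_, rfl⟩
  have hQp : ∀ p ∈ Q, p.Prime := fun p hp => by rw [hQ, mem_filter] at hp; exact hp.2
  have hpf : ∀ n ∈ Icc 1 X, n.primeFactors ⊆ Q := by
    intro n hn p hp
    rw [mem_Icc] at hn
    have h1 := Nat.prime_of_mem_primeFactors hp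
    have h2 := Nat.le_of_dvd (by omega) (Nat.dvd_of_mem_primeFactors hp)
    rw [hQ, mem_filter, mem_Icc]
    exact ⟨⟨h1.one_le, by omega⟩, h1⟩
  -- the sum of (1 + z) ^ ω
  have h1 : ∑ n ∈ Icc 1 X, (1 + z) ^ n.primeFactors.card ≤
      X * Real.exp (z * ∑ p ∈ Q, (1 : ℝ) / p) := by
    have h2 : ∀ n ∈ Icc 1 X, (1 + z) ^ n.primeFactors.card =
        ∑ S ∈ Q.powerset, if S ⊆ n.primeFactors then z ^ S.card else 0 := by
      intro n hn
      have h3 : (1 + z) ^ n.primeFactors.card = ∑ S ∈ n.primeFactors.powerset, z ^ S.card := by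
        rw [← prod_const, Finset.prod_one_add]
        apply sum_congr rfl
        intro S _
        rw [prod_const]
      rw [h3, ← sum_filter]
      apply sum_congr _ (fun _ _ => rfl)
      ext S
      rw [mem_powerset, mem_filter, mem_powerset]
      exact ⟨fun h => ⟨h.trans (hpf n hn), h⟩, fun h => h.2⟩
    rw [sum_congr rfl h2, sum_comm]
    have h4 : ∀ S ∈ Q.powerset, ∑ n ∈ Icc 1 X, (if S ⊆ n.primeFactors then z ^ S.card else 0) ≤
        X * ∏ p ∈ S, (z * (1 / (p : ℝ))) := by
      intro S hS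
      rw [mem_powerset] at hS
      rw [← sum_filter, sum_const, nsmul_eq_mul]
      have hprod : 0 < ∏ p ∈ S, p := Finset.prod_pos fun p hp => (hQp p (hS hp)).pos
      have h5 : ((Icc 1 X).filter (fun n => S ⊆ n.primeFactors)).card ≤ X / ∏ p ∈ S, p := by
        have h6 : (Icc 1 X).filter (fun n => S ⊆ n.primeFactors) ⊆
            (Icc 1 (X / ∏ p ∈ S, p)).image (fun m => m * ∏ p ∈ S, p) := by
          intro n hn
          rw [mem_filter, mem_Icc] at hn
          have h7 : ∏ p ∈ S, p ∣ n := by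
            apply Finset.prod_primes_dvd
            · intro p hp
              exact (hQp p (hS hp)).prime
            · intro p hp
              exact Nat.dvd_of_mem_primeFactors (hn.2 hp)
          rw [mem_image]
          refine ⟨n / ∏ p ∈ S, p, ?_, Nat.div_mul_cancel h7⟩
          rw [mem_Icc]
          refine ⟨?_, Nat.div_le_div_right hn.1.2⟩
          exact Nat.div_pos (Nat.le_of_dvd (by omega) h7) hprod
        refine (card_le_card h6).trans (card_image_le.trans ?_)
        rw [Nat.card_Icc, Nat.add_sub_cancel]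
      have h8 : (((Icc 1 X).filter (fun n => S ⊆ n.primeFactors)).card : ℝ) ≤ (X : ℝ) / (∏ p ∈ S, p : ℕ) := by
        refine le_trans ((Nat.cast_le (α := ℝ)).2 h5) Nat.cast_div_le
      have h9 : ∏ p ∈ S, (z * (1 / (p : ℝ))) = z ^ S.card * (1 / ((∏ p ∈ S, p : ℕ) : ℝ)) := by
        rw [prod_mul_distrib, prod_const]
        congr 1
        push_cast
        rw [Finset.prod_div_distrib]
        simp
      rw [h9]
      calc (((Icc 1 X).filter (fun n => S ⊆ n.primeFactors)).card : ℝ) * z ^ S.card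
          ≤ (X : ℝ) / (∏ p ∈ S, p : ℕ) * z ^ S.card := mul_le_mul_of_nonneg_right h8 (by positivity)
        _ = X * (z ^ S.card * (1 / ((∏ p ∈ S, p : ℕ) : ℝ))) := by ring
    refine (sum_le_sum h4).trans ?_
    rw [← mul_sum, ← Finset.prod_one_add, mul_sum, Real.exp_sum]
    apply mul_le_mul_of_nonneg_left _ (Nat.cast_nonneg _)
    apply prod_le_prod
    · intro p _
      positivity
    · intro p _
      have := Real.add_one_le_exp (z * (1 / (p : ℝ)))
      linarith
  rw [← hQ]
  refine le_trans ?_ h1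
  have h3 : (((Icc 1 X).filter (fun n : ℕ => w ≤ n.primeFactors.card)).card : ℝ) * (1 + z) ^ w =
      ∑ _n ∈ (Icc 1 X).filter (fun n : ℕ => w ≤ n.primeFactors.card), (1 + z) ^ w := by
    rw [sum_const, nsmul_eq_mul]
  rw [h3]
  refine (sum_le_sum (g := fun n => (1 + z) ^ n.primeFactors.card) ?_).trans
    (sum_le_sum_of_subset_of_nonneg (filter_subset _ _) fun n _ _ => by positivity)
  intro n hn
  exact pow_le_pow_right₀ (by linarith) (mem_filter.1 hn).2

end Pool.Agent.OS.Om34
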