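import Mathlib
import Pool.Agent.OS.Stmts

set_option autoImplicit false

namespace Pool.Agent.OS.Om97

open Finset

theorem mult (X : ℕ) (S : Finset ℕ) (hS : ∀ p ∈ S, p.Prime) :
    (((Finset.Icc 1 X).filter (fun n => S ⊆ n.primeFactors)).card : ℝ) ≤ X * ∏ p ∈ S, (1 : ℝ) / p := by
  have hpos : 0 < ∏ p ∈ S, p := Finset.prod_pos (fun p hp => (hS p hp).pos)
  have h1 : ((Finset.Icc 1 X).filter (fun n => S ⊆ n.primeFactors)).card ≤ X / ∏ p ∈ S, p := by
    rw [← Nat.Ioc_filter_dvd_card_eq_div X (∏ p ∈ S, p)]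
    refine Finset.card_le_card ?_
    intro n hn
    rw [Finset.mem_filter, Finset.mem_Icc] at hn
    rw [Finset.mem_filter, Finset.mem_Ioc]
    refine ⟨⟨by omega, hn.1.2⟩, ?_⟩
    exact Finset.prod_primes_dvd n (fun p hp => (hS p hp).prime)
      (fun p hp => Nat.dvd_of_mem_primeFactors (hn.2 hp))
  have h2 : ((X / ∏ p ∈ S, p : ℕ) : ℝ) ≤ (X : ℝ) / ((∏ p ∈ S, p : ℕ) : ℝ) := Nat.cast_div_le
  have h3 : (X : ℝ) / ((∏ p ∈ S, p : ℕ) : ℝ) = X * ∏ p ∈ S, (1 : ℝ) / p := by
    rw [Finset.prod_div_distrib, Finset.prod_const_one]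
    push_cast
    ring
  rw [← h3]
  refine le_trans ?_ h2
  exact_mod_cast h1

theorem om97 : Om := by
  intro X w z hz
  classical
  set Q := (Finset.Icc 1 X).filter Nat.Prime with hQ
  have e1 : ∀ n ∈ Finset.Icc 1 X, (1 + z) ^ n.primeFactors.card
      = ∑ S ∈ Q.powerset, if S ⊆ n.primeFactors then z ^ S.card else 0 := by
    intro n hn
    rw [Finset.mem_Icc] at hn
    rw [← Finset.sum_filter]
    have a : Q.powerset.filter (fun S => S ⊆ n.primeFactors) = n.primeFactors.powerset := by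
      ext S
      rw [Finset.mem_filter, Finset.mem_powerset, Finset.mem_powerset]
      constructor
      · exact fun h => h.2
      · intro h
        refine ⟨fun p hp => ?_, h⟩
        have hp' := h hp
        rw [hQ, Finset.mem_filter, Finset.mem_Icc]
        have pp := Nat.prime_of_mem_primeFactors hp'
        refine ⟨⟨pp.pos, (Nat.le_of_dvd (by omega) (Nat.dvd_of_mem_primeFactors hp')).trans hn.2⟩, pp⟩
    rw [a]
    have b := Finset.prod_one_add (s := n.primeFactors) (f := fun _ => z)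
    simp only [Finset.prod_const] at b
    exact b
  have h1 : (((Finset.Icc 1 X).filter (fun n : ℕ => w ≤ n.primeFactors.card)).card : ℝ) * (1 + z) ^ w
      ≤ ∑ n ∈ Finset.Icc 1 X, (1 + z) ^ n.primeFactors.card := by
    calc (((Finset.Icc 1 X).filter (fun n : ℕ => w ≤ n.primeFactors.card)).card : ℝ) * (1 + z) ^ w
        = ∑ n ∈ (Finset.Icc 1 X).filter (fun n : ℕ => w ≤ n.primeFactors.card), (1 + z) ^ w := by simp
      _ ≤ ∑ n ∈ (Finset.Icc 1 X).filter (fun n : ℕ => w ≤ n.primeFactors.card), (1 + z) ^ n.primeFactors.card := by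
          refine Finset.sum_le_sum (fun n hn => ?_)
          exact pow_le_pow_right₀ (by linarith) (Finset.mem_filter.1 hn).2
      _ ≤ _ := Finset.sum_le_sum_of_subset_of_nonneg (Finset.filter_subset _ _)
          (fun _ _ _ => by positivity)
  refine h1.trans ?_
  rw [Finset.sum_congr rfl e1, Finset.sum_comm]
  calc ∑ S ∈ Q.powerset, ∑ n ∈ Finset.Icc 1 X, (if S ⊆ n.primeFactors then z ^ S.card else 0)
      ≤ ∑ S ∈ Q.powerset, X * ∏ p ∈ S, (z * (1 / (p : ℝ))) := by
        refine Finset.sum_le_sum (fun S hS => ?_)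
        rw [← Finset.sum_filter, Finset.sum_const, nsmul_eq_mul]
        have hp : ∀ p ∈ S, p.Prime := fun p hp => (Finset.mem_filter.1 ((Finset.mem_powerset.1 hS) hp)).2
        have := mul_le_mul_of_nonneg_right (mult X S hp) (pow_nonneg hz S.card)
        refine this.trans_eq ?_
        rw [Finset.prod_mul_distrib, Finset.prod_const]
        ring
    _ = X * ∏ p ∈ Q, (1 + z * (1 / (p : ℝ))) := by
        rw [← Finset.mul_sum, Finset.prod_one_add]
    _ ≤ X * Real.exp (z * ∑ p ∈ Q, (1 : ℝ) / p) := by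
        refine mul_le_mul_of_nonneg_left ?_ (Nat.cast_nonneg _)
        rw [Finset.mul_sum, Real.exp_sum]
        refine Finset.prod_le_prod (fun p _ => by positivity) (fun p _ => ?_)
        rw [add_comm]
        exact Real.add_one_le_exp _

end Pool.Agent.OS.Om97
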