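import Mathlib
import Pool.Agent.OS.Stmts
import Pool.Agent.Helper53.GDS.Mert

/-!
# MP_ddb6ee_nt: rows PRI1 and PRI2
-/

set_option autoImplicit false

namespace Pool.Agent.OS

open Finset

/-- the sum of the reciprocals of the primes up to `2 ^ (2 ^ j)` -/
theorem pri_dyadic46 (j : ℕ) :
    ∑ p ∈ (Finset.Icc 1 (2 ^ (2 ^ j))).filter Nat.Prime, (1 : ℝ) / p ≤ 4 * j + 1 := by
  induction j with
  | zero =>
    have h1 : (Finset.Icc 1 (2 ^ (2 ^ 0))).filter Nat.Prime = {2} := by decide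
    rw [h1]
    norm_num
  | succ j ih =>
    have hl2 : 0 < Real.log 2 := Real.log_pos (by norm_num)
    have hm := Pool.GDS.mertens (n := 2 ^ (2 ^ (j + 1))) Nat.one_le_two_pow
    have h1 : ∑ p ∈ (Finset.Icc 1 (2 ^ (2 ^ (j + 1)))).filter Nat.Prime, (1 : ℝ) / p ≤
        ∑ p ∈ (Finset.Icc 1 (2 ^ (2 ^ j))).filter Nat.Prime, (1 : ℝ) / p +
        ∑ p ∈ ((Finset.Icc 1 (2 ^ (2 ^ (j + 1)))).filter Nat.Prime).filter
          (fun p => 2 ^ (2 ^ j) < p), (1 : ℝ) / p := by
      rw [← Finset.sum_filter_add_sum_filter_not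
        ((Finset.Icc 1 (2 ^ (2 ^ (j + 1)))).filter Nat.Prime) (fun p => 2 ^ (2 ^ j) < p), add_comm]
      apply add_le_add_left
      apply Finset.sum_le_sum_of_subset_of_nonneg
      · intro p hp
        rw [Finset.mem_filter, Finset.mem_filter, Finset.mem_Icc] at hp
        rw [Finset.mem_filter, Finset.mem_Icc]
        exact ⟨⟨hp.1.1.1, not_lt.1 hp.2⟩, hp.1.2⟩
      · intro p _ _
        positivity
    have h2 : ∑ p ∈ ((Finset.Icc 1 (2 ^ (2 ^ (j + 1)))).filter Nat.Prime).filter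
        (fun p => 2 ^ (2 ^ j) < p), (1 : ℝ) / p ≤
        (1 / (2 ^ j * Real.log 2)) * ∑ p ∈ Pool.GDS.prs (2 ^ (2 ^ (j + 1))),
          Real.log p / p := by
      rw [Finset.mul_sum]
      have h3 : ∑ p ∈ ((Finset.Icc 1 (2 ^ (2 ^ (j + 1)))).filter Nat.Prime).filter
          (fun p => 2 ^ (2 ^ j) < p), (1 : ℝ) / p ≤
          ∑ p ∈ ((Finset.Icc 1 (2 ^ (2 ^ (j + 1)))).filter Nat.Prime).filter
          (fun p => 2 ^ (2 ^ j) < p), (1 / (2 ^ j * Real.log 2)) * (Real.log p / p) := by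
        apply Finset.sum_le_sum
        intro p hp
        rw [Finset.mem_filter, Finset.mem_filter, Finset.mem_Icc] at hp
        have hp0 : (0 : ℝ) < p := by exact_mod_cast hp.1.2.pos
        have h4 : (2 : ℝ) ^ j * Real.log 2 ≤ Real.log p := by
          have h5 : ((2 : ℝ) ^ (2 ^ j)) ≤ p := by exact_mod_cast hp.2.le
          have h6 := Real.log_le_log (by positivity) h5
          rw [Real.log_pow] at h6
          push_cast at h6
          exact h6
        rw [div_mul_div_comm, one_mul, div_le_div_iff₀ hp0 (by positivity), one_mul]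
        exact mul_le_mul_of_nonneg_right h4 hp0.le
      refine h3.trans ?_
      apply Finset.sum_le_sum_of_subset_of_nonneg
      · intro p hp
        rw [Finset.mem_filter, Finset.mem_filter, Finset.mem_Icc] at hp
        simp only [Pool.GDS.prs, Finset.mem_filter, Finset.mem_Icc]
        exact ⟨by omega, hp.1.2⟩
      · intro p hp _
        have hp1 : (0 : ℝ) ≤ Real.log p := Real.log_natCast_nonneg p
        positivity
    have h7 : (1 / (2 ^ j * Real.log 2)) * ∑ p ∈ Pool.GDS.prs (2 ^ (2 ^ (j + 1))),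
          Real.log p / p ≤ 4 := by
      have h8 : Real.log ((2 ^ (2 ^ (j + 1)) : ℕ) : ℝ) = 2 ^ (j + 1) * Real.log 2 := by
        push_cast
        rw [Real.log_pow]
        push_cast
        ring
      have h9 : Real.log 4 = 2 * Real.log 2 := by
        rw [show (4 : ℝ) = 2 ^ 2 by norm_num, Real.log_pow]
        push_cast
        ring
      rw [h8, h9] at hm
      have h10 : (1 : ℝ) ≤ 2 ^ j := one_le_pow₀ (by norm_num)
      calc (1 / (2 ^ j * Real.log 2)) * ∑ p ∈ Pool.GDS.prs (2 ^ (2 ^ (j + 1))),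
            Real.log p / p ≤ (1 / (2 ^ j * Real.log 2)) * (2 ^ (j + 1) * Real.log 2 +
              2 * Real.log 2) := by gcongr
        _ = 2 + 2 / 2 ^ j := by field_simp; ring
        _ ≤ 4 := by
            have : (2 : ℝ) / 2 ^ j ≤ 2 := by
              rw [div_le_iff₀ (by positivity)]
              linarith
            linarith
    push_cast
    linarith

/-- row PRI1 -/
theorem pri1_46 : Pri1 := by
  refine ⟨40, by norm_num, fun X hX => ?_⟩
  obtain ⟨j, hj⟩ : ∃ j, j = Nat.clog 2 (Nat.clog 2 X) := ⟨_, rfl⟩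
  have h1 : X ≤ 2 ^ (2 ^ j) := by
    calc X ≤ 2 ^ (Nat.clog 2 X) := Nat.le_pow_clog (by norm_num) X
      _ ≤ 2 ^ (2 ^ j) := by
        apply Nat.pow_le_pow_right (by norm_num)
        rw [hj]
        exact Nat.le_pow_clog (by norm_num) _
  have h2 : ∑ p ∈ (Finset.Icc 1 X).filter Nat.Prime, (1 : ℝ) / p ≤ 4 * j + 1 := by
    refine le_trans ?_ (pri_dyadic46 j)
    apply Finset.sum_le_sum_of_subset_of_nonneg
    · intro p hp
      rw [Finset.mem_filter, Finset.mem_Icc] at hp ⊢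
      exact ⟨⟨hp.1.1, hp.1.2.trans h1⟩, hp.2⟩
    · intro p _ _
      positivity
  refine h2.trans ?_
  have hX0 : (0 : ℝ) < X := by exact_mod_cast (by omega : 0 < X)
  have hl2 : 0.6931 < Real.log 2 := by have := Real.log_two_gt_d9; linarith
  have hl2' : Real.log 2 < 0.6932 := by have := Real.log_two_lt_d9; linarith
  have hlX : 4 * Real.log 2 ≤ Real.log X := by
    have h3 : (16 : ℝ) ≤ X := by exact_mod_cast hX
    have h4 := Real.log_le_log (by norm_num) h3
    rw [show (16 : ℝ) = 2 ^ 4 by norm_num, Real.log_pow] at h4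
    push_cast at h4
    exact h4
  have hlX0 : 0 < Real.log X := by linarith
  -- `L ≥ 1`
  have hLL : 1 ≤ Real.log (Real.log X) := by
    rw [Real.le_log_iff_exp_le hlX0]
    have := Real.exp_one_lt_d9
    linarith
  -- `2 ^ (j - 1) < clog X`
  have hclog : 1 < Nat.clog 2 X := by
    have : Nat.clog 2 16 ≤ Nat.clog 2 X := Nat.clog_mono_right 2 hX
    have h7 : Nat.clog 2 16 = 4 := by decide +kernel
    omega
  have h5 : 2 ^ (j - 1) < Nat.clog 2 X := by
    have h6 : 1 < Nat.clog 2 X := hclog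
    rw [hj]
    exact Nat.pow_pred_clog_lt_self (by norm_num) h6
  have h8 : 2 ^ (Nat.clog 2 X - 1) < X := Nat.pow_pred_clog_lt_self (by norm_num) (by omega)
  have h9 : ((Nat.clog 2 X : ℝ) - 1) * Real.log 2 < Real.log X := by
    have h10 : ((2 : ℝ) ^ (Nat.clog 2 X - 1)) < X := by exact_mod_cast h8
    have h11 := Real.log_lt_log (by positivity) h10
    rw [Real.log_pow] at h11
    have h12 : ((Nat.clog 2 X - 1 : ℕ) : ℝ) = (Nat.clog 2 X : ℝ) - 1 := by
      have : 1 ≤ Nat.clog 2 X := by omega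
      push_cast [this]
      ring
    rwa [h12] at h11
  have h13 : (Nat.clog 2 X : ℝ) < 2 * Real.log X := by nlinarith
  have h14 : ((j : ℝ) - 1) * Real.log 2 ≤ Real.log 2 + Real.log (Real.log X) := by
    have h15 : ((2 : ℝ) ^ (j - 1)) < 2 * Real.log X := by
      have : ((2 : ℝ) ^ (j - 1)) < Nat.clog 2 X := by exact_mod_cast h5
      linarith
    have h16 := Real.log_lt_log (by positivity) h15
    rw [Real.log_pow, Real.log_mul two_ne_zero hlX0.ne'] at h16
    have h17 : (j : ℝ) - 1 ≤ ((j - 1 : ℕ) : ℝ) := by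
      rcases Nat.eq_zero_or_pos j with h | h
      · rw [h]; norm_num
      · have : 1 ≤ j := h
        push_cast [this]
        linarith
    nlinarith
  nlinarith

/-- row PRI2 -/
theorem pri2_46 : Pri2 := by
  refine ⟨10000, fun t ht => ?_⟩
  have ht0 : 0 < t := by omega
  have h1 := Chebyshev.pi_ge (t ^ 7)
  obtain ⟨s, hs⟩ : ∃ s, s = ((Finset.Icc 1 (t ^ 7)).filter (fun p => p.Prime ∧ p ≠ 2)).card :=
    ⟨_, rfl⟩
  rw [← hs]
  have h2 : Nat.primeCounting (t ^ 7) ≤ s + 1 := by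
    rw [← Nat.primesLE_card_eq_primeCounting]
    have h3 : (t ^ 7).primesLE ⊆ insert 2 ((Finset.Icc 1 (t ^ 7)).filter
        (fun p => p.Prime ∧ p ≠ 2)) := by
      intro p hp
      rw [Nat.mem_primesLE] at hp
      rw [Finset.mem_insert, Finset.mem_filter, Finset.mem_Icc]
      by_cases h : p = 2
      · exact Or.inl h
      · exact Or.inr ⟨⟨hp.2.one_le, hp.1⟩, hp.2, h⟩
    exact (Finset.card_le_card h3).trans ((Finset.card_insert_le _ _).trans (by rw [hs]))
  have hT : (10000 : ℝ) ≤ t := by exact_mod_cast ht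
  have hT0 : (0 : ℝ) < t := by linarith
  have hl2 : 0.6931 < Real.log 2 := by have := Real.log_two_gt_d9; linarith
  obtain ⟨r, hr⟩ : ∃ r, r = √(t : ℝ) := ⟨_, rfl⟩
  have hr0 : 0 < r := by rw [hr]; positivity
  have hrr : r * r = t := by rw [hr]; exact Real.mul_self_sqrt hT0.le
  have hr100 : 100 ≤ r := by
    rw [hr]
    apply Real.le_sqrt_of_sq_le
    linarith
  have hlog : Real.log t ≤ 2 * r := by
    rw [← hrr, Real.log_mul hr0.ne' hr0.ne']
    have := Real.log_le_sub_one_of_pos hr0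
    linarith
  have hlt : 0 < Real.log t := Real.log_pos (by linarith)
  have h4 : Real.log ((t ^ 7 : ℕ) : ℝ) = 7 * Real.log t := by
    push_cast
    rw [Real.log_pow]
    push_cast
    ring
  have ht7 : (1 : ℝ) ≤ (t : ℝ) ^ 7 := one_le_pow₀ (by linarith)
  have h5 : Real.log (((t ^ 7 : ℕ) : ℝ) + 1) ≤ 14 * r + 1 := by
    have h6 : Real.log (((t ^ 7 : ℕ) : ℝ) + 1) ≤ Real.log (2 * (t : ℝ) ^ 7) := by
      apply Real.log_le_log (by positivity)
      push_cast
      linarith
    rw [Real.log_mul two_ne_zero (by positivity), Real.log_pow] at h6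
    have := Real.log_two_lt_d9
    push_cast at h6 ⊢
    linarith
  have h7 : (((t ^ 7 : ℕ) : ℝ) * Real.log 2 - Real.log (((t ^ 7 : ℕ) : ℝ) + 1)) /
      Real.log ((t ^ 7 : ℕ) : ℝ) ≤ (s : ℝ) + 1 := by
    refine h1.trans ?_
    exact_mod_cast h2
  rw [h4, div_le_iff₀ (by positivity)] at h7
  have h8 : ((t : ℝ) ^ 7 * Real.log 2 - (14 * r + 1)) ≤ ((s : ℝ) + 1) * (14 * r) := by
    have h9 : ((s : ℝ) + 1) * (7 * Real.log t) ≤ ((s : ℝ) + 1) * (14 * r) := by
      apply mul_le_mul_of_nonneg_left _ (by positivity)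
      linarith
    push_cast at h7 h5
    linarith
  by_contra hcon
  push Not at hcon
  have h10 : (s : ℝ) + 1 ≤ (t : ℝ) ^ 6 := by exact_mod_cast hcon
  have h11 : ((s : ℝ) + 1) * (14 * r) ≤ (t : ℝ) ^ 6 * (14 * r) := by gcongr
  have ht6 : (1 : ℝ) ≤ (t : ℝ) ^ 6 := one_le_pow₀ (by linarith)
  have h12 : (t : ℝ) ^ 7 = (t : ℝ) ^ 6 * (r * r) := by rw [hrr]; ring
  rw [h12] at h8
  have h13 : (t : ℝ) ^ 6 * (r * r) * 0.6931 ≤ (t : ℝ) ^ 6 * (r * r) * Real.log 2 := by gcongr
  have h14 : (t : ℝ) ^ 6 * (r * 100) ≤ (t : ℝ) ^ 6 * (r * r) := by gcongr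
  have h15 : 100 ≤ (t : ℝ) ^ 6 * r := by nlinarith
  have h16 : r ≤ (t : ℝ) ^ 6 * r := by nlinarith
  nlinarith

end Pool.Agent.OS
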